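import Pool.Agent.H371.SC.V5
import Pool.Graph.R_pool_sql_team_668148b0.Helper160.NilpFG

/-!
Task SC-10 (project of helper371): group rings of finitely generated residually torsion-free
nilpotent groups have property `Res` (helper120).  The representations are the ones on the
integer valued polynomial functions, with right translations.
-/

set_option autoImplicit false

namespace Pool.Agent.H371.SC

open Pool.Agent.H371.SA Pool.Agent.H371.SB

namespace SC10x

section poly

variable (A : Type) [CommRing A] (N : Type) [Group N]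

/-- right translation of functions -/
def Tr (g : N) : (N → A) →ₗ[A] (N → A) where
  toFun F := fun x => F (x * g)
  map_add' _ _ := rfl
  map_smul' _ _ := rfl

/-- functions killed by all products of `d` differences -/
def PR : ℕ → Submodule A (N → A)
  | 0 => ⊥
  | d + 1 =>
    { carrier := {F | ∀ g : N, Tr A N g F - F ∈ PR d}
      add_mem' := by
        intro F G hF hG m
        have : Tr A N m (F + G) - (F + G) = (Tr A N m F - F) + (Tr A N m G - G) := by
          rw [map_add]; abel
        rw [this]; exact Submodule.add_mem _ (hF m) (hG m)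
      zero_mem' := by
        intro m
        rw [map_zero, sub_zero]; exact Submodule.zero_mem _
      smul_mem' := by
        intro c F hF m
        have : Tr A N m (c • F) - c • F = c • (Tr A N m F - F) := by rw [map_smul, smul_sub]
        rw [this]; exact Submodule.smul_mem _ _ (hF m) }

variable {A N}

theorem Tr_apply (g : N) (F : N → A) (x : N) : Tr A N g F x = F (x * g) := rfl

theorem mem_zero {F : N → A} : F ∈ PR A N 0 ↔ F = 0 := by simp [PR]

theorem mem_succ {d : ℕ} {F : N → A} :
    F ∈ PR A N (d + 1) ↔ ∀ g : N, Tr A N g F - F ∈ PR A N d := Iff.rfl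

theorem le_succ (d : ℕ) : PR A N d ≤ PR A N (d + 1) := by
  induction d with
  | zero =>
    intro F hF
    rw [mem_zero] at hF
    rw [hF]; exact Submodule.zero_mem _
  | succ d ih =>
    intro F hF m
    exact ih (hF m)

theorem mono : Monotone (PR A N) := monotone_nat_of_le_succ le_succ

theorem stable {d : ℕ} {F : N → A} (hF : F ∈ PR A N d) (g : N) : Tr A N g F ∈ PR A N d := by
  have h1 : Tr A N g F = (Tr A N g F - F) + F := by abel
  rw [h1]
  exact Submodule.add_mem _ (le_succ d hF g) hF

theorem const_mem (d : ℕ) (c : A) : (fun _ => c : N → A) ∈ PR A N (d + 1) := by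
  intro g
  have h1 : Tr A N g (fun _ => c) - (fun _ => c : N → A) = 0 := by
    funext x
    simp [Tr_apply]
  rw [h1]
  exact Submodule.zero_mem _

theorem mul_mem_aux (n : ℕ) : ∀ d e : ℕ, d + e = n → ∀ F ∈ PR A N d, ∀ G ∈ PR A N e,
    F * G ∈ PR A N (d + e) := by
  induction n with
  | zero =>
    intro d e hde F hF G hG
    have hd : d = 0 := by omega
    subst hd
    rw [mem_zero] at hF
    rw [hF, zero_mul]; exact Submodule.zero_mem _
  | succ n ih =>
    intro d e hde F hF G hG
    rcases d with _ | d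
    · rw [mem_zero] at hF
      rw [hF, zero_mul]; exact Submodule.zero_mem _
    rcases e with _ | e
    · rw [mem_zero] at hG
      rw [hG, mul_zero]; exact Submodule.zero_mem _
    have e1 : d + 1 + (e + 1) = (d + (e + 1)) + 1 := by ring
    rw [e1]
    intro g
    have e2 : Tr A N g (F * G) - F * G = (Tr A N g F - F) * Tr A N g G +
        F * (Tr A N g G - G) := by
      funext x
      simp only [Tr_apply, Pi.mul_apply, Pi.sub_apply, Pi.add_apply]
      ring
    rw [e2]
    refine Submodule.add_mem _ ?_ ?_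
    · exact ih d (e + 1) (by omega) _ (hF g) _ (stable hG g)
    · have h3 := ih (d + 1) e (by omega) _ hF _ (hG g)
      have e3 : d + (e + 1) = d + 1 + e := by ring
      rw [e3]
      exact h3

theorem mul_mem {d e : ℕ} {F G : N → A} (hF : F ∈ PR A N d) (hG : G ∈ PR A N e) :
    F * G ∈ PR A N (d + e) := mul_mem_aux _ d e rfl F hF G hG

theorem comp_mem {Q : Type} [Group Q] (f : N →* Q) (d : ℕ) : ∀ F ∈ PR A Q d,
    (fun x => F (f x)) ∈ PR A N d := by
  induction d with
  | zero =>
    intro F hF
    rw [mem_zero] at hF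
    rw [mem_zero, hF]; rfl
  | succ d ih =>
    intro F hF g
    have h1 := ih _ (hF (f g))
    have h2 : Tr A N g (fun x => F (f x)) - (fun x => F (f x)) =
        fun x => (Tr A Q (f g) F - F) (f x) := by
      funext x
      simp [Tr_apply]
    rw [h2]
    exact h1

theorem cast_mem (d : ℕ) : ∀ G : N → ℤ, (fun x => (G x : ℚ)) ∈ PR ℚ N d ↔ G ∈ PR ℤ N d := by
  induction d with
  | zero =>
    intro G
    rw [mem_zero, mem_zero]
    constructor
    · intro h
      funext x
      have := congrFun h x
      simpa using this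
    · intro h
      rw [h]
      funext x
      simp
  | succ d ih =>
    intro G
    rw [mem_succ, mem_succ]
    refine forall_congr' fun g => ?_
    rw [← ih]
    have : (fun x => (((Tr ℤ N g G - G) x : ℤ) : ℚ)) =
        Tr ℚ N g (fun x => (G x : ℚ)) - fun x => (G x : ℚ) := by
      funext x
      simp [Tr_apply]
    rw [this]

open Pool.Agent.Helper160.PolSep in
theorem of_Pol (d : ℕ) : ∀ F : N → ℚ, F ∈ Pol (⊤ : Subgroup N) d →
    (fun x => F x⁻¹) ∈ PR ℚ N d := by
  induction d with
  | zero =>
    intro F hF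
    rw [mem_Pol_zero] at hF
    rw [mem_zero, hF]; rfl
  | succ d ih =>
    intro F hF g
    have h1 := ih _ (mem_Pol_succ.mp hF g⁻¹ (Subgroup.mem_top _))
    have h2 : Tr ℚ N g (fun x => F x⁻¹) - (fun x => F x⁻¹) =
        fun x => (T g⁻¹ F - F) x⁻¹ := by
      funext x
      simp [Tr_apply, T_apply]
    rw [h2]
    exact h1

/-- denominators of polynomial functions are bounded -/
theorem denom [hN : Group.FG N] (d : ℕ) : ∀ F ∈ PR ℚ N d, ∃ m : ℕ, m ≠ 0 ∧
    ∃ G : N → ℤ, ∀ x, (G x : ℚ) = m * F x := by
  classical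
  obtain ⟨S, hS⟩ := Group.fg_def.mp hN
  induction d with
  | zero =>
    intro F hF
    rw [mem_zero] at hF
    refine ⟨1, one_ne_zero, 0, fun x => ?_⟩
    rw [hF]
    simp
  | succ d ih =>
    intro F hF
    choose m hm G hG using fun s : N => ih _ (hF s)
    refine ⟨(F 1).den * ∏ s ∈ S, m s,
      mul_ne_zero (F 1).den_nz (Finset.prod_ne_zero_iff.2 fun s _ => hm s), ?_⟩
    have key : ∀ s ∈ S, ∀ x, ∃ z : ℤ, (z : ℚ) =
        (((F 1).den * ∏ s ∈ S, m s : ℕ) : ℚ) * (F (x * s) - F x) := by
      intro s hs x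
      have h1 : (G s x : ℚ) = m s * (F (x * s) - F x) := by
        rw [hG s x]; rfl
      refine ⟨(F 1).den * (∏ t ∈ S.erase s, m t : ℕ) * G s x, ?_⟩
      rw [← Finset.mul_prod_erase S m hs]
      push_cast
      rw [h1]
      ring
    have h2 : ∀ x : N, ∃ z : ℤ, (z : ℚ) = (((F 1).den * ∏ s ∈ S, m s : ℕ) : ℚ) * F x := by
      intro x
      have hx : x ∈ Subgroup.closure (S : Set N) := by rw [hS]; trivial
      induction hx using Subgroup.closure_induction_right with
      | one =>
        refine ⟨(F 1).num * (∏ s ∈ S, m s : ℕ), ?_⟩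
        have h3 : (F 1 : ℚ) * (F 1).den = (F 1).num := Rat.mul_den_eq_num (F 1)
        push_cast
        rw [← h3]
        ring
      | mul_right x _ s hs ih =>
        obtain ⟨z, hz⟩ := ih
        obtain ⟨w, hw⟩ := key s hs x
        refine ⟨z + w, ?_⟩
        rw [Int.cast_add, hz, hw]
        ring
      | mul_inv_cancel x _ s hs ih =>
        obtain ⟨z, hz⟩ := ih
        obtain ⟨w, hw⟩ := key s hs (x * s⁻¹)
        refine ⟨z - w, ?_⟩
        rw [inv_mul_cancel_right] at hw
        rw [Int.cast_sub, hz, hw]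
        ring
    choose G' hG' using h2
    exact ⟨G', hG'⟩

theorem noeth [hN : Group.FG N] (d : ℕ) : IsNoetherian ℤ (PR ℤ N d) := by
  obtain ⟨S, hS⟩ := Group.fg_def.mp hN
  induction d with
  | zero =>
    have : PR ℤ N 0 = ⊥ := rfl
    rw [this]
    infer_instance
  | succ d ih =>
    let f : ℤ →ₗ[ℤ] PR ℤ N (d + 1) :=
      { toFun := fun c => ⟨fun _ => c, const_mem d c⟩
        map_add' := fun _ _ => rfl
        map_smul' := fun _ _ => rfl }
    let g : PR ℤ N (d + 1) →ₗ[ℤ] (S → PR ℤ N d) :=
      { toFun := fun F s => ⟨Tr ℤ N s F - F, F.2 s⟩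
        map_add' := by
          intro F G
          funext s
          apply Subtype.ext
          simp only [Submodule.coe_add, map_add, Pi.add_apply]
          abel
        map_smul' := by
          intro c F
          funext s
          apply Subtype.ext
          simp only [Submodule.coe_smul, map_smul, Pi.smul_apply, RingHom.id_apply, smul_sub] }
    refine isNoetherian_of_range_eq_ker f g ?_
    apply le_antisymm
    · rintro _ ⟨c, rfl⟩
      rw [LinearMap.mem_ker]
      funext s
      apply Subtype.ext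
      funext x
      simp [f, g, Tr_apply]
    · intro F hF
      rw [LinearMap.mem_ker] at hF
      have h1 : ∀ s ∈ S, ∀ x, (F : N → ℤ) (x * s) = (F : N → ℤ) x := by
        intro s hs x
        have h2 : g F ⟨s, hs⟩ = 0 := congrFun hF ⟨s, hs⟩
        have h3 : (F : N → ℤ) (x * s) - (F : N → ℤ) x = 0 :=
          congrArg (fun w : PR ℤ N d => (w : N → ℤ) x) h2
        linarith
      refine ⟨(F : N → ℤ) 1, ?_⟩
      apply Subtype.ext
      funext x
      have hx : x ∈ Subgroup.closure (S : Set N) := by rw [hS]; trivial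
      have h4 : (F : N → ℤ) x = (F : N → ℤ) 1 := by
        induction hx using Subgroup.closure_induction_right with
        | one => rfl
        | mul_right x _ s hs ih => rw [h1 s hs, ih]
        | mul_inv_cancel x _ s hs ih =>
          rw [← ih, ← h1 s hs (x * s⁻¹), inv_mul_cancel_right]
      exact h4.symm

end poly

section sep

variable {N : Type} [Group N]

open Pool.Agent.Helper160.PolSep Pool.Agent.Helper160.NilpFG

/-- polynomial functions separate two points -/
theorem sep_two [Group.FG N] (hN : RTFN N) (g s : N) (hgs : g ≠ s) :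
    ∃ (d : ℕ) (F : N → ℤ), F ∈ PR ℤ N d ∧ F s = 0 ∧ F g ≠ 0 := by
  have hx : s * g⁻¹ ≠ 1 := by
    intro h
    exact hgs (mul_inv_eq_one.1 h).symm
  obtain ⟨L, hL, hxL, hnil, htf⟩ := hN (s * g⁻¹) hx
  have hTF : TF (N ⧸ L) := by
    intro g hg m hm h
    exact hg (htf g m (by omega) h)
  have hR := R_top hTF
  have hx1 : (QuotientGroup.mk' L (s * g⁻¹)) ≠ 1 :=
    fun h => hxL ((QuotientGroup.eq_one_iff _).mp h)
  obtain ⟨d, F, hF, hFx⟩ := hR (QuotientGroup.mk' L (s * g⁻¹)) (Subgroup.mem_top _) hx1
  have h1 := stable (of_Pol (d + 1) _ (Pol_le_succ _ _ hF)) (QuotientGroup.mk' L s)⁻¹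
  have h2 := Submodule.sub_mem _ h1 (const_mem d (F 1))
  have h3 := comp_mem (QuotientGroup.mk' L) _ _ h2
  have h4 : (fun y => F (QuotientGroup.mk' L (s * y⁻¹)) - F 1 : N → ℚ) ∈ PR ℚ N (d + 1) := by
    convert h3 using 1
    funext y
    simp [Tr_apply]
  obtain ⟨m, hm, G, hG⟩ := denom _ _ h4
  refine ⟨d + 1, G, ?_, ?_, ?_⟩
  · rw [← cast_mem]
    have h5 : (fun x => (G x : ℚ)) = (m : ℚ) • (fun y => F (QuotientGroup.mk' L (s * y⁻¹)) - F 1) := by
      funext x
      rw [hG x]; rfl
    rw [h5]
    exact Submodule.smul_mem _ _ h4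
  · have h5 := hG s
    rw [mul_inv_cancel, map_one, sub_self, mul_zero] at h5
    exact_mod_cast h5
  · have h5 := hG g
    intro h6
    rw [h6, Int.cast_zero] at h5
    have h7 : (m : ℚ) ≠ 0 := by exact_mod_cast hm
    rcases mul_eq_zero.1 h5.symm with h8 | h8
    · exact h7 h8
    · exact hFx (sub_eq_zero.1 h8)

/-- polynomial functions with prescribed zeros -/
theorem sep_many [Group.FG N] (hN : RTFN N) (g : N) (S : Finset N) (hg : g ∉ S) :
    ∃ (d : ℕ) (F : N → ℤ), F ∈ PR ℤ N d ∧ (∀ s ∈ S, F s = 0) ∧ F g ≠ 0 := by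
  classical
  induction S using Finset.induction_on with
  | empty =>
    exact ⟨1, fun _ => 1, const_mem 0 1, by simp, one_ne_zero⟩
  | insert s S hs ih =>
    rw [Finset.mem_insert, not_or] at hg
    obtain ⟨d, F, hF, hF0, hFg⟩ := ih hg.2
    obtain ⟨e, G, hG, hG0, hGg⟩ := sep_two hN g s hg.1
    refine ⟨d + e, F * G, mul_mem hF hG, ?_, mul_ne_zero hFg hGg⟩
    intro t ht
    rcases Finset.mem_insert.1 ht with rfl | ht
    · rw [Pi.mul_apply, hG0, mul_zero]
    · rw [Pi.mul_apply, hF0 t ht, zero_mul]

end sep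

section rep

variable (C : Type) [CommRing C] [IsDomain C] [CharZero C] {N : Type} [Group N]

/-- the action on the integer valued polynomial functions -/
def act (d : ℕ) : N →* Module.End ℤ (PR ℤ N d) where
  toFun g := (Tr ℤ N g).restrict fun _ hF => stable hF g
  map_one' := by
    apply LinearMap.ext
    intro F
    apply Subtype.ext
    funext x
    simp [LinearMap.restrict_apply, Tr_apply]
  map_mul' g h := by
    apply LinearMap.ext
    intro F
    apply Subtype.ext
    funext x
    simp [LinearMap.restrict_apply, Tr_apply, mul_assoc]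

theorem act_apply (d : ℕ) (g : N) (F : PR ℤ N d) (x : N) :
    (act d g F : N → ℤ) x = (F : N → ℤ) (x * g) := rfl

variable {k d : ℕ} (b : Module.Basis (Fin k) ℤ (PR ℤ N d))

/-- the matrices over `C` -/
noncomputable def rho : N →* Matrix (Fin k) (Fin k) C where
  toFun g := (Int.castRingHom C).mapMatrix (LinearMap.toMatrixAlgEquiv b (act d g))
  map_one' := by rw [map_one, map_one, map_one]
  map_mul' g h := by rw [map_mul, map_mul, map_mul]

/-- the coordinates in `C` -/
noncomputable def cv (F : PR ℤ N d) : Fin k → C := fun j => ((b.repr F j : ℤ) : C)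

omit [IsDomain C] [CharZero C] in
theorem cv_sub (F G : PR ℤ N d) : cv C b (F - G) = cv C b F - cv C b G := by
  funext j
  simp [cv]

omit [IsDomain C] [CharZero C] in
theorem rho_cv (g : N) (F : PR ℤ N d) : (rho C b g).mulVec (cv C b F) = cv C b (act d g F) := by
  funext j
  have h1 := LinearMap.toMatrix_mulVec_repr b b (act d g) F
  have h2 := RingHom.map_mulVec (Int.castRingHom C) (LinearMap.toMatrix b b (act d g))
    (b.repr F) j
  rw [h1] at h2
  exact h2.symm

/-- the filtration -/
noncomputable def WW (i : ℕ) : Submodule C (Fin k → C) :=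
  Submodule.span C {w | ∃ F : PR ℤ N d, (F : N → ℤ) ∈ PR ℤ N i ∧ w = cv C b F}

omit [IsDomain C] [CharZero C] in
theorem WW_zero : WW C b 0 = ⊥ := by
  rw [WW, Submodule.span_eq_bot]
  rintro _ ⟨F, hF, rfl⟩
  rw [mem_zero] at hF
  have : F = 0 := Subtype.ext hF
  rw [this]
  funext j
  simp [cv]

omit [IsDomain C] [CharZero C] in
theorem WW_top : WW C b d = ⊤ := by
  rw [eq_top_iff]
  intro w _
  have h1 : w = ∑ j, w j • cv C b (b j) := by
    funext i
    rw [Finset.sum_apply, Finset.sum_eq_single i]
    · simp [cv]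
    · intro j _ hj
      simp [cv, hj]
    · simp
  rw [h1]
  exact Submodule.sum_mem _ fun j _ => Submodule.smul_mem _ _
    (Submodule.subset_span ⟨b j, (b j).2, rfl⟩)

omit [IsDomain C] [CharZero C] in
theorem WW_le (i : ℕ) : WW C b i ≤ WW C b (i + 1) :=
  Submodule.span_mono fun _ ⟨F, hF, e⟩ => ⟨F, le_succ i hF, e⟩

omit [IsDomain C] [CharZero C] in
theorem rho_sub (g : N) (i : ℕ) (w : Fin k → C) (hw : w ∈ WW C b (i + 1)) :
    (rho C b g).mulVec w - w ∈ WW C b i := by
  rw [WW] at hw
  induction hw using Submodule.span_induction with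
  | mem w hw =>
    obtain ⟨F, hF, rfl⟩ := hw
    rw [rho_cv, ← cv_sub]
    exact Submodule.subset_span ⟨_, hF g, rfl⟩
  | zero => rw [Matrix.mulVec_zero, sub_zero]; exact zero_mem _
  | add v w _ _ hv hw =>
    rw [Matrix.mulVec_add, add_sub_add_comm]
    exact add_mem hv hw
  | smul c w _ hw =>
    rw [Matrix.mulVec_smul, ← smul_sub]
    exact Submodule.smul_mem _ _ hw

/-- the representation -/
noncomputable def pr : MonoidAlgebra C N →ₐ[C] Matrix (Fin k) (Fin k) C :=
  MonoidAlgebra.lift C (Matrix (Fin k) (Fin k) C) N (rho C b)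

omit [IsDomain C] [CharZero C] in
theorem pr_sub (x : MonoidAlgebra C N) (i : ℕ) (w : Fin k → C) (hw : w ∈ WW C b (i + 1)) :
    (pr C b x).mulVec w - (MonoidAlgebra.lift C C N (1 : N →* C) x) • w ∈ WW C b i := by
  induction x using MonoidAlgebra.induction_on with
  | of g =>
    rw [pr, MonoidAlgebra.lift_of, MonoidAlgebra.lift_of, MonoidHom.one_apply, one_smul]
    exact rho_sub C b g i w hw
  | add x y hx hy =>
    rw [map_add, map_add, Matrix.add_mulVec, add_smul, add_sub_add_comm]
    exact add_mem hx hy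
  | smul c x hx =>
    rw [map_smul, map_smul, Matrix.smul_mulVec, smul_assoc, ← smul_sub]
    exact Submodule.smul_mem _ _ hx

omit [IsDomain C] [CharZero C] in
theorem pr_list (l : List (MonoidAlgebra C N)) : ∀ i : ℕ,
    (∀ x ∈ l, MonoidAlgebra.lift C C N (1 : N →* C) x = 0) → ∀ w ∈ WW C b (i + l.length),
    (pr C b l.prod).mulVec w ∈ WW C b i := by
  induction l with
  | nil =>
    intro i _ w hw
    rw [List.prod_nil, map_one, Matrix.one_mulVec]
    exact hw
  | cons x l ih =>
    intro i hl w hw
    rw [List.prod_cons, map_mul, ← Matrix.mulVec_mulVec]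
    have h1 := ih (i + 1) (fun y hy => hl y (List.mem_cons_of_mem _ hy)) w (by
      rw [List.length_cons] at hw
      have e : i + 1 + l.length = i + (l.length + 1) := by ring
      rw [e]
      exact hw)
    have h2 := pr_sub C b x i _ h1
    rw [hl x (by simp), zero_smul, sub_zero] at h2
    exact h2

omit [IsDomain C] [CharZero C] in
theorem pr_zero (l : List (MonoidAlgebra C N)) (hl : l.length = d)
    (h0 : ∀ x ∈ l, MonoidAlgebra.lift C C N (1 : N →* C) x = 0) : pr C b l.prod = 0 := by
  have h1 : ∀ w, (pr C b l.prod).mulVec w = 0 := by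
    intro w
    have h2 := pr_list C b l 0 h0 w (by
      rw [zero_add, hl, WW_top]
      trivial)
    rw [WW_zero, Submodule.mem_bot] at h2
    exact h2
  ext i j
  have h3 := congrFun (h1 (Pi.single j 1)) i
  rw [Matrix.mulVec_single_one] at h3
  exact h3

/-- the evaluation at `1` -/
noncomputable def ev (w : Fin k → C) : C := ∑ j, w j * (((b j : PR ℤ N d) : N → ℤ) 1 : C)

omit [IsDomain C] [CharZero C] in
theorem ev_cv (F : PR ℤ N d) : ev C b (cv C b F) = (((F : N → ℤ) 1 : ℤ) : C) := by
  have h1 : (F : N → ℤ) 1 = ∑ j, b.repr F j * ((b j : PR ℤ N d) : N → ℤ) 1 := by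
    have h2 := b.sum_repr F
    have h3 := congrArg (fun G : PR ℤ N d => (G : N → ℤ) 1) h2
    simp only [Submodule.coe_sum, Submodule.coe_smul, Finset.sum_apply, Pi.smul_apply,
      smul_eq_mul] at h3
    exact h3.symm
  rw [h1, ev]
  push_cast
  rfl

omit [IsDomain C] [CharZero C] in
theorem ev_pr (F : PR ℤ N d) (r : MonoidAlgebra C N) :
    ev C b ((pr C b r).mulVec (cv C b F)) = r.coeff.sum fun g a => a * ((F : N → ℤ) g : C) := by
  have hlin : ∀ v w, ev C b (v + w) = ev C b v + ev C b w := by
    intro v w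
    simp [ev, add_mul, Finset.sum_add_distrib]
  have hsm : ∀ (c : C) w, ev C b (c • w) = c * ev C b w := by
    intro c w
    simp [ev, Finset.mul_sum, mul_assoc]
  have h0 : ev C b 0 = 0 := by simp [ev]
  rw [pr, MonoidAlgebra.lift_apply, Finsupp.sum, Finsupp.sum, Matrix.sum_mulVec]
  have hsum : ∀ (s : Finset N) (f : N → Fin k → C), ev C b (∑ g ∈ s, f g) = ∑ g ∈ s, ev C b (f g) := by
    classical
    intro s f
    induction s using Finset.induction_on with
    | empty => simpa using h0
    | insert g s hg ih => rw [Finset.sum_insert hg, Finset.sum_insert hg, hlin, ih]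
  rw [hsum]
  refine Finset.sum_congr rfl fun g _ => ?_
  rw [Matrix.smul_mulVec, hsm, rho_cv, ev_cv, act_apply, one_mul]

end rep

end SC10x

/-- group rings of finitely generated residually torsion-free nilpotent groups -/
theorem res_group_ring (C : Type) [CommRing C] [IsDomain C] [CharZero C] (N : Type) [Group N]
    [Group.FG N] (hN : RTFN N) :
    Res (MonoidAlgebra.lift C C N (1 : N →* C) : MonoidAlgebra C N →ₐ[C] C) := by
  classical
  intro r hr
  have hc : r.coeff ≠ 0 := by
    intro h
    apply hr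
    exact MonoidAlgebra.coeff_injective h
  obtain ⟨g, hg⟩ := Finsupp.support_nonempty_iff.2 hc
  obtain ⟨d, F, hF, hF0, hFg⟩ := SC10x.sep_many hN g (r.coeff.support.erase g)
    (Finset.notMem_erase g _)
  have hno := SC10x.noeth (N := N) d
  have hfr : Module.Free ℤ (SC10x.PR ℤ N d) := inferInstance
  refine ⟨_, d, SC10x.pr C (Module.finBasis ℤ (SC10x.PR ℤ N d)),
    fun l hl h0 => SC10x.pr_zero C _ l hl h0, ?_⟩
  intro h
  have h1 := SC10x.ev_pr C (Module.finBasis ℤ (SC10x.PR ℤ N d)) ⟨F, hF⟩ r
  rw [h, Matrix.zero_mulVec, Finsupp.sum, Finset.sum_eq_single g] at h1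
  · have h2 : r.coeff g * ((F g : ℤ) : C) ≠ 0 :=
      mul_ne_zero (Finsupp.mem_support_iff.1 hg) (by exact_mod_cast hFg)
    apply h2
    rw [← h1]
    simp [SC10x.ev]
  · intro s hs hsg
    have h3 : F s = 0 := hF0 s (Finset.mem_erase.2 ⟨hsg, hs⟩)
    simp [h3]
  · intro h3
    exact absurd hg h3

end Pool.Agent.H371.SC
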