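import Pool.Agent.H371.SC.V5

/-! TASK SC-11: power series rings have property Res. -/

set_option autoImplicit false

namespace Pool.Agent.H371.SC.SC11x

open Finset

variable {C : Type} [CommRing C] {n : ℕ} (d : Fin n →₀ ℕ)

/-- truncation -/
noncomputable def tr : MvPowerSeries (Fin n) C →ₗ[C] (Finset.Iic d → C) where
  toFun f := fun e => MvPowerSeries.coeff e.1 f
  map_add' f g := by funext e; simp
  map_smul' c f := by funext e; simp

/-- section of the truncation -/
noncomputable def se : (Finset.Iic d → C) →ₗ[C] MvPowerSeries (Fin n) C where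
  toFun v := fun e => if h : e ∈ Finset.Iic d then v ⟨e, h⟩ else 0
  map_add' v w := by
    funext e
    show (if h : e ∈ Finset.Iic d then (v + w) ⟨e, h⟩ else 0) =
      (if h : e ∈ Finset.Iic d then v ⟨e, h⟩ else 0) +
        (if h : e ∈ Finset.Iic d then w ⟨e, h⟩ else 0)
    by_cases h : e ∈ Finset.Iic d
    · rw [dif_pos h, dif_pos h, dif_pos h]
      rfl
    · rw [dif_neg h, dif_neg h, dif_neg h, add_zero]
  map_smul' c v := by
    funext e
    show (if h : e ∈ Finset.Iic d then (c • v) ⟨e, h⟩ else 0) =
      c * (if h : e ∈ Finset.Iic d then v ⟨e, h⟩ else 0)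
    by_cases h : e ∈ Finset.Iic d
    · rw [dif_pos h, dif_pos h]
      rfl
    · rw [dif_neg h, dif_neg h, mul_zero]

theorem tr_se (v : Finset.Iic d → C) : tr d (se d v) = v := by
  funext e
  show (if h : e.1 ∈ Finset.Iic d then v ⟨e.1, h⟩ else 0) = v e
  rw [dif_pos e.2]

theorem tr_mul (f h h' : MvPowerSeries (Fin n) C) (hh : tr d h = tr d h') :
    tr d (f * h) = tr d (f * h') := by
  classical
  funext e
  show MvPowerSeries.coeff e.1 (f * h) = MvPowerSeries.coeff e.1 (f * h')
  rw [MvPowerSeries.coeff_mul, MvPowerSeries.coeff_mul]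
  refine sum_congr rfl fun p hp => ?_
  congr 1
  have h1 := mem_antidiagonal.1 hp
  have h2 : p.2 ≤ e.1 := by
    rw [← h1]
    exact le_add_self
  have h3 : p.2 ∈ Finset.Iic d := Finset.mem_Iic.2 (h2.trans (Finset.mem_Iic.1 e.2))
  exact congrFun hh ⟨p.2, h3⟩

/-- multiplication on truncated series -/
noncomputable def mu : MvPowerSeries (Fin n) C →ₐ[C] Module.End C (Finset.Iic d → C) where
  toFun f := (tr d) ∘ₗ (LinearMap.mulLeft C f) ∘ₗ (se d)
  map_one' := by
    ext v e
    simp [tr_se]
  map_mul' f g := by
    refine LinearMap.ext fun v => ?_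
    show tr d (f * g * se d v) = tr d (f * se d (tr d (g * se d v)))
    rw [mul_assoc]
    exact (tr_mul d f _ _ (tr_se d _)).symm
  map_zero' := by
    refine LinearMap.ext fun v => ?_
    show tr d (0 * se d v) = 0
    rw [zero_mul, map_zero]
  map_add' f g := by
    refine LinearMap.ext fun v => ?_
    show tr d ((f + g) * se d v) = tr d (f * se d v) + tr d (g * se d v)
    rw [add_mul, map_add]
  commutes' c := by
    refine LinearMap.ext fun v => ?_
    show tr d (algebraMap C _ c * se d v) = c • v
    rw [← Algebra.smul_def, map_smul, tr_se]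

theorem mu_apply (f : MvPowerSeries (Fin n) C) (v : Finset.Iic d → C) :
    mu d f v = tr d (f * se d v) := rfl

theorem coeff_prod (l : List (MvPowerSeries (Fin n) C))
    (hl : ∀ x ∈ l, MvPowerSeries.constantCoeff x = 0) :
    ∀ e : Fin n →₀ ℕ, e.degree < l.length → MvPowerSeries.coeff e l.prod = 0 := by
  classical
  induction l with
  | nil => intro e he; simp at he
  | cons x l ih =>
    intro e he
    rw [List.prod_cons, MvPowerSeries.coeff_mul]
    refine sum_eq_zero fun p hp => ?_
    have h1 := mem_antidiagonal.1 hp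
    by_cases h0 : p.1 = 0
    · rw [h0]
      have := hl x (by simp)
      rw [MvPowerSeries.coeff_zero_eq_constantCoeff_apply, this, zero_mul]
    · have h2 : p.1.degree ≠ 0 := by
        rwa [Ne, Finsupp.degree_eq_zero_iff]
      have h3 : e.degree = p.1.degree + p.2.degree := by
        rw [← h1, map_add]
      rw [ih (fun y hy => hl y (List.mem_cons_of_mem _ hy)) p.2 (by
        rw [List.length_cons] at he
        omega), mul_zero]

end Pool.Agent.H371.SC.SC11x

namespace Pool.Agent.H371.SC

open SC11x in
theorem res_power_series (C : Type) [CommRing C] [IsDomain C] [CharZero C] (n : ℕ)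
    (ε : MvPowerSeries (Fin n) C →ₐ[C] C)
    (hε : ∀ f : MvPowerSeries (Fin n) C, ε f = MvPowerSeries.constantCoeff f) : Res ε := by
  classical
  intro f hf
  obtain ⟨d, hd⟩ : ∃ d : Fin n →₀ ℕ, MvPowerSeries.coeff d f ≠ 0 := by
    by_contra hcon
    push Not at hcon
    exact hf (MvPowerSeries.ext fun d => by rw [hcon d, map_zero])
  set m : ℕ := Fintype.card (Finset.Iic d) with hm
  let e : Finset.Iic d ≃ Fin m := Fintype.equivFin _
  let φ : Module.End C (Finset.Iic d → C) ≃ₐ[C] Matrix (Fin m) (Fin m) C :=
    (LinearMap.toMatrixAlgEquiv').trans (Matrix.reindexAlgEquiv C C e)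
  refine ⟨m, d.degree + 1, (φ : Module.End C (Finset.Iic d → C) →ₐ[C] _).comp (mu d), ?_, ?_⟩
  · intro l hl h0
    have h1 : mu d l.prod = 0 := by
      refine LinearMap.ext fun v => ?_
      rw [mu_apply]
      funext x
      show MvPowerSeries.coeff x.1 (l.prod * se d v) = 0
      rw [MvPowerSeries.coeff_mul]
      refine Finset.sum_eq_zero fun p hp => ?_
      have h2 := Finset.HasAntidiagonal.mem_antidiagonal.1 hp
      have h3 : p.1 ≤ d := by
        refine le_trans ?_ (Finset.mem_Iic.1 x.2)
        rw [← h2]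
        exact le_self_add
      have h4 : p.1.degree ≤ d.degree := by
        obtain ⟨c, hc⟩ := exists_add_of_le h3
        rw [hc, map_add]
        exact Nat.le_add_right _ _
      rw [coeff_prod l (fun x hx => by rw [← hε]; exact h0 x hx) p.1 (by rw [hl]; omega),
        zero_mul]
    show φ (mu d l.prod) = 0
    rw [h1, map_zero]
  · intro h
    have h1 : φ (mu d f) = 0 := h
    have h2 : mu d f = 0 := by
      apply φ.injective
      rw [h1, map_zero]
    have h3 : mu d f (tr d 1) = tr d (f * 1) := by
      rw [mu_apply]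
      exact tr_mul d f _ _ (tr_se d _)
    rw [h2, mul_one] at h3
    have h4 := congrFun h3 ⟨d, Finset.mem_Iic.2 le_rfl⟩
    exact hd h4.symm

end Pool.Agent.H371.SC
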