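import Pool.Agent.H371.SC.Defs

/-!
TASK SC-2: symmetric polynomials in the eigenvalues are virtual characters.
-/

set_option autoImplicit false

namespace Pool.Agent.H371.SC

open Pool.Agent.H371.SA

namespace SC2x

section tens

variable (p : ℕ) [Fact p.Prime] (O : Type) [CommRing O] {A : Type} [Ring A] (P : Subgroup Aˣ)

/-- the continuity condition -/
def Cont {ι : Type} [DecidableEq ι] [Fintype ι] (ρ : P →* Matrix ι ι O) : Prop :=
  ∀ n, ∀ g : P, (∃ a : A, ((g : Aˣ) : A) = 1 + (p : A) ^ n * a) →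
      ∀ i j, (p : O) ^ n ∣ (ρ g - 1) i j

omit [Fact p.Prime] in
theorem mem_of_cont {v : ℕ} (ρ : P →* Matrix (Fin v) (Fin v) O) (h : Cont p O P ρ) :
    (fun g => (ρ g).trace) ∈ ACO p O P :=
  AddSubgroup.subset_closure ⟨v, ρ, h, rfl⟩

omit [Fact p.Prime] in
/-- representations with an arbitrary finite index type -/
theorem mem_of_cont' {ι : Type} [DecidableEq ι] [Fintype ι] (ρ : P →* Matrix ι ι O)
    (h : Cont p O P ρ) : (fun g => (ρ g).trace) ∈ ACO p O P := by
  let e := Fintype.equivFin ι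
  let ρ' : P →* Matrix (Fin (Fintype.card ι)) (Fin (Fintype.card ι)) O :=
    { toFun := fun g => Matrix.reindex e e (ρ g)
      map_one' := by rw [map_one]; simp
      map_mul' := by
        intro x y
        rw [map_mul]
        simp only [Matrix.reindex_apply]
        rw [Matrix.submatrix_mul_equiv] }
  have h1 := mem_of_cont p O P ρ' (by
    intro n g hg i j
    have h2 := h n g hg (e.symm i) (e.symm j)
    have h3 : (ρ' g - 1) i j = (ρ g - 1) (e.symm i) (e.symm j) := by
      rw [Matrix.sub_apply, Matrix.sub_apply]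
      congr 1
      simp only [Matrix.one_apply, e.symm.injective.eq_iff]
    rw [h3]
    exact h2)
  have h4 : (fun g => (ρ' g).trace) = fun g => (ρ g).trace := by
    funext g
    exact Equiv.sum_comp e.symm (fun x => (ρ g) x x)
  rw [h4] at h1
  exact h1

/-- the tensor product of two representations -/
noncomputable def tens {v w : ℕ} (ρ : P →* Matrix (Fin v) (Fin v) O)
    (σ : P →* Matrix (Fin w) (Fin w) O) :
    P →* Matrix (Fin v × Fin w) (Fin v × Fin w) O where
  toFun g := Matrix.kroneckerMap (· * ·) (ρ g) (σ g)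
  map_one' := by
    rw [map_one, map_one]
    exact Matrix.one_kronecker_one
  map_mul' g h := by
    rw [map_mul, map_mul]
    exact Matrix.mul_kronecker_mul _ _ _ _

theorem trace_tens {v w : ℕ} (ρ : P →* Matrix (Fin v) (Fin v) O)
    (σ : P →* Matrix (Fin w) (Fin w) O) (g : P) :
    (tens O P ρ σ g).trace = (ρ g).trace * (σ g).trace :=
  Matrix.trace_kronecker _ _

omit [Fact p.Prime] in
theorem cont_tens {v w : ℕ} (ρ : P →* Matrix (Fin v) (Fin v) O)
    (σ : P →* Matrix (Fin w) (Fin w) O) (hρ : Cont p O P ρ) (hσ : Cont p O P σ) :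
    Cont p O P (tens O P ρ σ) := by
  intro n g hg i j
  have h1 := hρ n g hg i.1 j.1
  have h2 := hσ n g hg i.2 j.2
  have h3 : (tens O P ρ σ g - 1) i j =
      (ρ g - 1) i.1 j.1 * (σ g) i.2 j.2 + (1 : Matrix (Fin v) (Fin v) O) i.1 j.1 *
        (σ g - 1) i.2 j.2 := by
    have h4 : (1 : Matrix (Fin v × Fin w) (Fin v × Fin w) O) i j =
        (1 : Matrix (Fin v) (Fin v) O) i.1 j.1 * (1 : Matrix (Fin w) (Fin w) O) i.2 j.2 := by
      simp only [Matrix.one_apply, Prod.ext_iff]
      by_cases h5 : i.1 = j.1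
      · by_cases h6 : i.2 = j.2
        · simp [h5, h6]
        · simp [h6]
      · simp [h5]
    have h5 : (tens O P ρ σ g) i j = (ρ g) i.1 j.1 * (σ g) i.2 j.2 := rfl
    rw [Matrix.sub_apply, Matrix.sub_apply, Matrix.sub_apply, h4, h5]
    ring
  rw [h3]
  exact dvd_add (Dvd.dvd.mul_right h1 _) (Dvd.dvd.mul_left h2 _)

theorem ACO.mul {f g : P → O} (hf : f ∈ ACO p O P) (hg : g ∈ ACO p O P) : f * g ∈ ACO p O P := by
  unfold ACO at hf
  induction hf using AddSubgroup.closure_induction with
  | mem f hf =>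
    obtain ⟨v, ρ, hρ, rfl⟩ := hf
    unfold ACO at hg
    induction hg using AddSubgroup.closure_induction with
    | mem g hg =>
      obtain ⟨w, σ, hσ, rfl⟩ := hg
      have h := mem_of_cont' p O P (tens O P ρ σ) (cont_tens p O P ρ σ hρ hσ)
      have h2 : (fun g => (tens O P ρ σ g).trace) =
          (fun g => (ρ g).trace) * (fun g => (σ g).trace) := by
        funext x
        exact trace_tens O P ρ σ x
      rw [h2] at h
      exact h
    | zero => rw [mul_zero]; exact zero_mem _
    | add x y _ _ hx hy => rw [mul_add]; exact add_mem hx hy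
    | neg x _ hx => rw [mul_neg]; exact neg_mem hx
  | zero => rw [zero_mul]; exact zero_mem _
  | add x y _ _ hx hy => rw [add_mul]; exact add_mem hx hy
  | neg x _ hx => rw [neg_mul]; exact neg_mem hx

theorem ACO.const (z : ℤ) : (fun _ => (z : O)) ∈ ACO p O P := by
  have h : (fun _ : P => (1 : O)) ∈ ACO p O P := by
    have h1 := mem_of_cont p O P (1 : P →* Matrix (Fin 1) (Fin 1) O) (by
      intro n g _ i j
      simp)
    have h2 : (fun g : P => ((1 : P →* Matrix (Fin 1) (Fin 1) O) g).trace) =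
        fun _ => (1 : O) := by
      funext g
      simp
    rw [h2] at h1
    exact h1
  have h2 := zsmul_mem h z
  have h3 : z • (fun _ : P => (1 : O)) = fun _ => (z : O) := by
    funext x
    simp
  rw [h3] at h2
  exact h2

end tens

/-! ### compound matrices -/

section compound

variable {O : Type} [CommRing O] {n : ℕ} (k : ℕ)

/-- the `k`-th compound matrix -/
noncomputable def cmp (t : Matrix (Fin n) (Fin n) O) :
    Matrix (Set.powersetCard (Fin n) k) (Set.powersetCard (Fin n) k) O :=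
  LinearMap.toMatrix ((Pi.basisFun O (Fin n)).exteriorPower k)
    ((Pi.basisFun O (Fin n)).exteriorPower k) (exteriorPower.map k (Matrix.toLin' t))

theorem cmp_one : cmp k (1 : Matrix (Fin n) (Fin n) O) = 1 := by
  unfold cmp
  rw [Matrix.toLin'_one, exteriorPower.map_id, LinearMap.toMatrix_id]

theorem cmp_mul (t u : Matrix (Fin n) (Fin n) O) : cmp k (t * u) = cmp k t * cmp k u := by
  unfold cmp
  rw [Matrix.toLin'_mul, exteriorPower.map_comp, LinearMap.toMatrix_comp _
    ((Pi.basisFun O (Fin n)).exteriorPower k)]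

theorem cmp_apply (t : Matrix (Fin n) (Fin n) O) (s s' : Set.powersetCard (Fin n) k) :
    cmp k t s s' = (t.submatrix (Set.powersetCard.ofFinEmbEquiv.symm s)
      (Set.powersetCard.ofFinEmbEquiv.symm s')).det := by
  unfold cmp
  rw [LinearMap.toMatrix_apply, exteriorPower.basis_repr_apply, exteriorPower.basis_apply,
    exteriorPower.map_apply_ιMulti_family, exteriorPower.ιMulti_family,
    exteriorPower.ιMultiDual_apply_ιMulti, ← Matrix.det_transpose]
  congr 1
  ext i j
  simp

theorem dvd_det {m : ℕ} (c : O) (M N : Matrix (Fin m) (Fin m) O)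
    (h : ∀ i j, c ∣ M i j - N i j) : c ∣ M.det - N.det := by
  rw [← Ideal.mem_span_singleton, ← Ideal.Quotient.mk_eq_mk_iff_sub_mem, RingHom.map_det,
    RingHom.map_det]
  congr 1
  ext i j
  simp only [RingHom.mapMatrix_apply, Matrix.map_apply]
  rw [Ideal.Quotient.mk_eq_mk_iff_sub_mem, Ideal.mem_span_singleton]
  exact h i j

theorem cmp_dvd (c : O) (t : Matrix (Fin n) (Fin n) O) (h : ∀ i j, c ∣ (t - 1) i j)
    (s s' : Set.powersetCard (Fin n) k) : c ∣ (cmp k t - 1) s s' := by
  rw [← cmp_one k, Matrix.sub_apply, cmp_apply, cmp_apply]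
  exact dvd_det c _ _ (fun i j => h _ _)

theorem cmp_trace (t : Matrix (Fin n) (Fin n) O) :
    (cmp k t).trace = ∑ s ∈ Finset.univ.powersetCard k,
      (t.submatrix (Subtype.val : s → Fin n) (Subtype.val : s → Fin n)).det := by
  unfold Matrix.trace
  rw [Finset.sum_subtype (Finset.univ.powersetCard k) (p := fun s => s.card = k)
    (fun s => by simp [Finset.mem_powersetCard])]
  refine Finset.sum_congr rfl (fun s _ => ?_)
  rw [Matrix.diag_apply, cmp_apply]
  rw [← Matrix.det_submatrix_equiv_self (s.1.orderIsoOfFin s.2).toEquiv]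
  rfl

theorem trace_eq_esymm {L : Type} [Field L] [Algebra O L] (t : Matrix (Fin n) (Fin n) O)
    (x : Fin n → L)
    (hx : (t.map (algebraMap O L)).charpoly = ∏ i, (Polynomial.X - Polynomial.C (x i)))
    (hk : k ≤ n) :
    algebraMap O L (cmp k t).trace = MvPolynomial.aeval x (MvPolynomial.esymm (Fin n) ℤ k) := by
  have h1 := Matrix.charpoly_coeff_eq_sum_minors (t.map (algebraMap O L)) k (by simpa using hk)
  rw [hx, Fintype.card_fin] at h1
  have h2 : ∏ i, (Polynomial.X - Polynomial.C (x i)) =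
      ((Finset.univ.val.map x).map (fun t => Polynomial.X - Polynomial.C t)).prod := by
    rw [Multiset.map_map]
    rfl
  have h3 := Multiset.prod_X_sub_C_coeff (Finset.univ.val.map x) (k := n - k) (by simp)
  rw [← h2, h1] at h3
  have h4 : Multiset.card (Finset.univ.val.map x) - (n - k) = k := by
    simp; omega
  rw [h4] at h3
  rw [MvPolynomial.aeval_esymm_eq_multiset_esymm, cmp_trace, map_sum]
  have h5 : ((-1 : L) ^ k) ≠ 0 := pow_ne_zero _ (by simp)
  have h6 := mul_left_cancel₀ h5 h3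
  rw [← h6]
  refine Finset.sum_congr rfl (fun s _ => ?_)
  rw [RingHom.map_det]
  rfl

end compound

end SC2x

theorem sym_char (p : ℕ) [Fact p.Prime] (O : Type) [CommRing O] [IsDomain O] [CharZero O] (n : ℕ)
    (Q : MvPolynomial (Fin n) ℤ) (hQ : Q.IsSymmetric) :
    ∃ f : (⊤ : Subgroup (Matrix (Fin n) (Fin n) O)ˣ) → O,
      f ∈ ACO p O (⊤ : Subgroup (Matrix (Fin n) (Fin n) O)ˣ) ∧
      ∀ (t : (⊤ : Subgroup (Matrix (Fin n) (Fin n) O)ˣ)) (N : ℕ), 0 < N → t ^ N = 1 →
        ∀ (L : Type) [Field L] [IsAlgClosed L] [Algebra O L] [FaithfulSMul O L] (x : Fin n → L),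
          ((((t : (Matrix (Fin n) (Fin n) O)ˣ) : Matrix (Fin n) (Fin n) O).map
            (algebraMap O L))).charpoly = ∏ i, (Polynomial.X - Polynomial.C (x i)) →
          algebraMap O L (f t) = MvPolynomial.aeval x Q := by
  obtain ⟨q, hq⟩ := MvPolynomial.esymmAlgHom_surjective (σ := Fin n) ℤ (n := n) (by simp)
    ⟨Q, hQ⟩
  have hq' : MvPolynomial.aeval (fun i : Fin n => MvPolynomial.esymm (Fin n) ℤ (i + 1)) q = Q := by
    rw [← MvPolynomial.esymmAlgHom_apply, hq]
  let χ : Fin n → (⊤ : Subgroup (Matrix (Fin n) (Fin n) O)ˣ) → O := fun i t =>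
    (SC2x.cmp (i + 1) ((t : (Matrix (Fin n) (Fin n) O)ˣ) : Matrix (Fin n) (Fin n) O)).trace
  have hχ : ∀ i, χ i ∈ ACO p O (⊤ : Subgroup (Matrix (Fin n) (Fin n) O)ˣ) := by
    intro i
    let ρ : (⊤ : Subgroup (Matrix (Fin n) (Fin n) O)ˣ) →*
        Matrix (Set.powersetCard (Fin n) (i + 1)) (Set.powersetCard (Fin n) (i + 1)) O :=
      { toFun := fun t => SC2x.cmp (i + 1)
          ((t : (Matrix (Fin n) (Fin n) O)ˣ) : Matrix (Fin n) (Fin n) O)
        map_one' := SC2x.cmp_one _
        map_mul' := fun _ _ => SC2x.cmp_mul _ _ _ }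
    refine SC2x.mem_of_cont' p O _ ρ ?_
    intro m g hg s s'
    obtain ⟨a, ha⟩ := hg
    refine SC2x.cmp_dvd _ _ _ (fun i j => ?_) s s'
    have h1 : (p : Matrix (Fin n) (Fin n) O) ^ m * a = (p : O) ^ m • a := by
      rw [Algebra.smul_def, map_pow, map_natCast]
    rw [ha, add_sub_cancel_left, h1, Matrix.smul_apply, smul_eq_mul]
    exact Dvd.intro _ rfl
  refine ⟨MvPolynomial.aeval χ q, ?_, ?_⟩
  · clear hq hq'
    induction q using MvPolynomial.induction_on with
    | C a =>
      rw [MvPolynomial.aeval_C]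
      exact SC2x.ACO.const p O _ a
    | add f g hf hg => rw [map_add]; exact add_mem hf hg
    | mul_X f i hf =>
      rw [map_mul, MvPolynomial.aeval_X]
      exact SC2x.ACO.mul p O _ hf (hχ i)
  · intro t N _ _ L _ _ _ _ x hx
    have h1 : algebraMap O L (MvPolynomial.aeval χ q t) =
        ((algebraMap O L).comp (Pi.evalRingHom (fun _ => O) t)) (MvPolynomial.aeval χ q) := rfl
    rw [h1, MvPolynomial.map_aeval, ← hq', MvPolynomial.comp_aeval_apply]
    have h2 : (fun i => ((algebraMap O L).comp (Pi.evalRingHom (fun _ => O) t)) (χ i)) =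
        fun i : Fin n => MvPolynomial.aeval x (MvPolynomial.esymm (Fin n) ℤ (i + 1)) :=
      funext fun i => SC2x.trace_eq_esymm (i + 1) _ x hx (by omega)
    have h3 : ((algebraMap O L).comp (Pi.evalRingHom (fun _ => O) t)).comp
        (algebraMap ℤ ((⊤ : Subgroup (Matrix (Fin n) (Fin n) O)ˣ) → O)) = algebraMap ℤ L :=
      RingHom.ext_int _ _
    rw [h2, h3]
    rfl

end Pool.Agent.H371.SC
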