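import Pool.Agent.H371.SC.Defs
import Pool.Agent.H371.SA.TO

/-! Project SC, task SC-3 (helper225 for helper371): `dvr_of_prime` and `trace_unr`. -/

set_option autoImplicit false

namespace Pool.Agent.H371.SC

open Pool.Agent.H371.SA

namespace SC3x

open Polynomial

section dvr

variable {p : ℕ} [hp : Fact p.Prime] {O : Type} [CommRing O] [IsDomain O] [Algebra ℤ_[p] O]
  [Module.Free ℤ_[p] O] [Module.Finite ℤ_[p] O]

omit [IsDomain O] [Module.Free ℤ_[p] O] [Module.Finite ℤ_[p] O] in
theorem smul_pow_eq (n : ℕ) (z : O) : ((p : ℤ_[p]) ^ n) • z = (p : O) ^ n * z := by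
  rw [Algebra.smul_def, map_pow, map_natCast]

omit [IsDomain O] [Module.Free ℤ_[p] O] [Module.Finite ℤ_[p] O] in
theorem dvd_iff_repr {ι : Type} [Fintype ι] (b : Module.Basis ι ℤ_[p] O) (n : ℕ) (z : O) :
    (p : O) ^ n ∣ z ↔ ∀ i, (p : ℤ_[p]) ^ n ∣ b.repr z i := by
  constructor
  · rintro ⟨w, rfl⟩ i
    rw [← smul_pow_eq, map_smul, Finsupp.smul_apply, smul_eq_mul]
    exact dvd_mul_right _ _
  · intro h
    choose c hc using h
    refine ⟨∑ i, c i • b i, ?_⟩
    rw [← smul_pow_eq, Finset.smul_sum]
    conv_lhs => rw [← b.sum_repr z]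
    refine Finset.sum_congr rfl fun i _ => ?_
    rw [hc i, mul_smul]

omit hp in
theorem smodeq_iff {R : Type} [CommRing R] (n : ℕ) (x y : R) :
    (x ≡ y [SMOD ((Ideal.span {(p : R)}) ^ n • ⊤ : Submodule R R)]) ↔ (p : R) ^ n ∣ x - y := by
  rw [SModEq.sub_mem, smul_eq_mul, Ideal.mul_top, Ideal.span_singleton_pow,
    Ideal.mem_span_singleton]

omit [IsDomain O] in
theorem adic_complete : IsAdicComplete (Ideal.span {(p : O)}) O := by
  classical
  let b := Module.Free.chooseBasis ℤ_[p] O
  have hZ : IsAdicComplete (Ideal.span {(p : ℤ_[p])}) ℤ_[p] := by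
    rw [← PadicInt.maximalIdeal_eq_span_p]
    infer_instance
  have hhaus : IsHausdorff (Ideal.span {(p : O)}) O := by
    constructor
    intro x hx
    have h1 : ∀ n : ℕ, (p : O) ^ n ∣ x := by
      intro n
      have := (smodeq_iff n x 0).1 (hx n)
      rwa [sub_zero] at this
    have h2 : ∀ i, b.repr x i = 0 := by
      intro i
      apply hZ.toIsHausdorff.haus
      intro n
      rw [smodeq_iff, sub_zero]
      exact (dvd_iff_repr b n x).1 (h1 n) i
    have h3 : b.repr x = 0 := Finsupp.ext h2
    exact b.repr.map_eq_zero_iff.1 h3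
  have hprec : IsPrecomplete (Ideal.span {(p : O)}) O := by
    constructor
    intro f hf
    have h1 : ∀ i, ∃ L : ℤ_[p], ∀ n, (p : ℤ_[p]) ^ n ∣ b.repr (f n) i - L := by
      intro i
      obtain ⟨L, hL⟩ := hZ.toIsPrecomplete.prec' (fun n => b.repr (f n) i) (by
        intro m n hmn
        rw [smodeq_iff]
        have h2 := (dvd_iff_repr b m _).1 ((smodeq_iff m _ _).1 (hf hmn)) i
        rwa [map_sub, Finsupp.sub_apply] at h2)
      exact ⟨L, fun n => (smodeq_iff n _ _).1 (hL n)⟩
    choose L hL using h1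
    refine ⟨∑ i, L i • b i, fun n => ?_⟩
    rw [smodeq_iff, dvd_iff_repr b]
    intro i
    rw [map_sub, Finsupp.sub_apply]
    have h2 : b.repr (∑ i, L i • b i) i = L i := by
      rw [b.repr_sum_self]
    rw [h2]
    exact hL i n
  exact { toIsHausdorff := hhaus, toIsPrecomplete := hprec }

theorem idem_lift (e0 : O) (h : (p : O) ∣ e0 ^ 2 - e0) :
    ∃ e : O, e ^ 2 = e ∧ (p : O) ∣ e - e0 := by
  have := adic_complete (p := p) (O := O)
  have hH : HenselianRing O (Ideal.span {(p : O)}) := inferInstance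
  have hm : (X ^ 2 - X : O[X]).Monic := by
    apply monic_X_pow_sub
    rw [degree_X]
    norm_num
  obtain ⟨e, he, h2⟩ := hH.is_henselian (X ^ 2 - X) hm e0 (by
      rw [Ideal.mem_span_singleton]
      simpa using h) (by
      have h3 : eval e0 (derivative (X ^ 2 - X : O[X])) = 2 * e0 - 1 := by
        simp [derivative_sub, derivative_pow]
      rw [h3]
      refine IsUnit.of_mul_eq_one (Ideal.Quotient.mk _ (2 * e0 - 1)) ?_
      rw [← map_mul, ← map_one (Ideal.Quotient.mk _), Ideal.Quotient.eq,
        Ideal.mem_span_singleton]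
      obtain ⟨c, hc⟩ := h
      exact ⟨4 * c, by linear_combination 4 * hc⟩)
  refine ⟨e, ?_, Ideal.mem_span_singleton.1 h2⟩
  have h4 : e ^ 2 - e = 0 := by simpa [IsRoot.def] using he
  linear_combination h4

end dvr

end SC3x

open SC3x in
/-- a domain which is finite and free over the `p`-adic integers and in which a prime element
divides `p` is a discrete valuation ring -/
theorem SC3x.dvr_and_unique (p : ℕ) [Fact p.Prime] (O : Type) [CommRing O] [IsDomain O] [Algebra ℤ_[p] O]
    [Module.Free ℤ_[p] O] [Module.Finite ℤ_[p] O] (π : O) (hπ : Prime π) (hdvd : π ∣ (p : O)) :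
    IsDiscreteValuationRing O ∧ (∀ M : Ideal O, M.IsMaximal → M = Ideal.span {π}) := by
  classical
  have hnoeth : IsNoetherianRing O := isNoetherian_of_tower ℤ_[p] inferInstance
  have hint : Algebra.IsIntegral ℤ_[p] O := inferInstance
  have hp0 : (p : O) ≠ 0 := by
    intro h
    have hinj := FaithfulSMul.algebraMap_injective ℤ_[p] O
    have h1 : algebraMap ℤ_[p] O (p : ℤ_[p]) = algebraMap ℤ_[p] O 0 := by
      rw [map_natCast, map_zero, h]
    exact PadicInt.prime_p.ne_zero (hinj h1)
  -- the ideal generated by `π` is maximal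
  have hmax : ∀ P : Ideal ℤ_[p], P ≠ ⊤ → (p : ℤ_[p]) ∈ P → P.IsMaximal := by
    intro P hP hpP
    have h1 : IsLocalRing.maximalIdeal ℤ_[p] ≤ P := by
      rw [PadicInt.maximalIdeal_eq_span_p, Ideal.span_singleton_le_iff_mem]
      exact hpP
    have h2 : IsLocalRing.maximalIdeal ℤ_[p] = P :=
      (IsLocalRing.maximalIdeal.isMaximal ℤ_[p]).eq_of_le hP h1
    rw [← h2]
    exact IsLocalRing.maximalIdeal.isMaximal _
  have hπmax : (Ideal.span {π}).IsMaximal := by
    have hprime : (Ideal.span {π}).IsPrime := (Ideal.span_singleton_prime hπ.ne_zero).2 hπ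
    apply Ideal.isMaximal_of_isIntegral_of_isMaximal_comap (R := ℤ_[p])
    apply hmax
    · exact Ideal.comap_ne_top _ hprime.ne_top
    · rw [Ideal.mem_comap, map_natCast, Ideal.mem_span_singleton]
      exact hdvd
  -- factorisation of `p`
  obtain ⟨e, u, hu, hpu⟩ := WfDvdMonoid.max_power_factor hp0 hπ.irreducible
  have he : e ≠ 0 := by
    rintro rfl
    rw [pow_zero, one_mul] at hpu
    exact hu (hpu ▸ hdvd)
  have hcop : IsCoprime (π ^ e) u := by
    obtain ⟨y, i, hi, hyi⟩ := hπmax.exists_inv (x := u) (by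
      rwa [Ideal.mem_span_singleton])
    obtain ⟨c, rfl⟩ := Ideal.mem_span_singleton.1 hi
    have : IsCoprime π u := ⟨c, y, by linear_combination hyi⟩
    exact this.pow_left
  obtain ⟨a, b, hab⟩ := hcop
  have hunit : IsUnit u := by
    obtain ⟨f, hf, hf2⟩ := idem_lift (p := p) (a * π ^ e) (by
      rw [hpu]
      refine ⟨-(a * b), ?_⟩
      have : b * u = 1 - a * π ^ e := by linear_combination hab
      linear_combination (a * π ^ e) * this)
    have hf3 : f = 0 ∨ f = 1 := by
      have : f * (f - 1) = 0 := by linear_combination hf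
      rcases mul_eq_zero.1 this with h | h
      · exact Or.inl h
      · exact Or.inr (by linear_combination h)
    obtain ⟨c, hc⟩ := hf2
    rw [hpu] at hc
    have hπe : π ^ e ≠ 0 := pow_ne_zero _ hπ.ne_zero
    rcases hf3 with h | h
    · -- `a π ^ e = - π ^ e u c`
      rw [h] at hc
      have h1 : a = -(u * c) := by
        apply mul_left_cancel₀ hπe
        linear_combination -hc
      refine IsUnit.of_mul_eq_one (b - c * π ^ e) ?_
      rw [h1] at hab
      linear_combination hab
    · rw [h] at hc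
      exfalso
      -- `b u = π ^ e u c`
      have h2 : u * b = u * (π ^ e * c) := by linear_combination hab + hc
      have hu0 : u ≠ 0 := by
        rintro rfl
        exact hu (dvd_zero _)
      have h3 := mul_left_cancel₀ hu0 h2
      have h4 : π ^ e * (a + c * u) = 1 := by
        rw [h3] at hab
        linear_combination hab
      have h5 : IsUnit (π ^ e) := IsUnit.of_mul_eq_one _ h4
      exact hπ.not_isUnit ((isUnit_pow_iff he).1 h5)
  have huniq : ∀ M : Ideal O, M.IsMaximal → M = Ideal.span {π} := by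
    intro M hM
    have h1 : (M.comap (algebraMap ℤ_[p] O)).IsMaximal :=
      Ideal.isMaximal_comap_of_isIntegral_of_isMaximal M
    have h2 : (p : O) ∈ M := by
      have h3 : M.comap (algebraMap ℤ_[p] O) = IsLocalRing.maximalIdeal ℤ_[p] :=
        IsLocalRing.eq_maximalIdeal h1
      have h4 : (p : ℤ_[p]) ∈ M.comap (algebraMap ℤ_[p] O) := by
        rw [h3, PadicInt.maximalIdeal_eq_span_p]
        exact Ideal.mem_span_singleton_self _
      rwa [Ideal.mem_comap, map_natCast] at h4
    have h5 : π ∈ M := by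
      rw [hpu] at h2
      have h6 : π ^ e ∈ M := (Ideal.mul_unit_mem_iff_mem M hunit).1 h2
      exact hM.isPrime.mem_of_pow_mem _ h6
    exact (hπmax.eq_of_le hM.ne_top ((Ideal.span_singleton_le_iff_mem _).2 h5)).symm
  have hloc : IsLocalRing O := IsLocalRing.of_unique_max_ideal ⟨Ideal.span {π}, hπmax, huniq⟩
  have hnf : ¬ IsField O := by
    intro hF
    exact hπ.not_isUnit (by
      obtain ⟨y, hy⟩ := hF.mul_inv_cancel hπ.ne_zero
      exact IsUnit.of_mul_eq_one _ hy)
  refine ⟨?_, huniq⟩
  refine ((IsDiscreteValuationRing.TFAE O hnf).out 4 0).1 ?_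
  have : IsLocalRing.maximalIdeal O = Ideal.span {π} :=
    (IsLocalRing.eq_maximalIdeal hπmax).symm
  rw [this]
  exact ⟨⟨π, rfl⟩⟩


/-- a domain which is finite and free over the `p`-adic integers and in which a prime element
divides `p` is a discrete valuation ring -/
theorem dvr_of_prime (p : ℕ) [Fact p.Prime] (O : Type) [CommRing O] [IsDomain O] [Algebra ℤ_[p] O]
    [Module.Free ℤ_[p] O] [Module.Finite ℤ_[p] O] (π : O) (hπ : Prime π) (hdvd : π ∣ (p : O)) :
    IsDiscreteValuationRing O :=
  (SC3x.dvr_and_unique p O π hπ hdvd).1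

namespace SC3x

open Polynomial

section irr

variable {p : ℕ} [hp : Fact p.Prime] {O : Type} [CommRing O] [IsDomain O]

theorem eis (hpp : Prime (p : O)) (n : ℕ) :
    ((cyclotomic (p ^ (n + 1)) O).comp (X + 1)).IsEisensteinAt
      (Ideal.span {(p : O)}) := by
  have h := cyclotomic_prime_pow_comp_X_add_one_isEisensteinAt p n
  have e : (cyclotomic (p ^ (n + 1)) O).comp (X + 1) =
      ((cyclotomic (p ^ (n + 1)) ℤ).comp (X + 1)).map (Int.castRingHom O) := by
    rw [Polynomial.map_comp, map_cyclotomic]; simp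
  have hm : ((cyclotomic (p ^ (n + 1)) ℤ).comp (X + 1)).Monic := by
    rw [show (X + 1 : ℤ[X]) = X + C 1 by simp]
    refine (cyclotomic.monic _ ℤ).comp (monic_X_add_C 1) fun h => ?_
    rw [natDegree_X_add_C] at h
    exact zero_ne_one h.symm
  have hm' : ((cyclotomic (p ^ (n + 1)) O).comp (X + 1)).Monic := by
    rw [e]; exact hm.map _
  have hne : (Ideal.span {(p : O)}) ≠ ⊤ := by
    rw [Ne, Ideal.span_singleton_eq_top]; exact hpp.not_isUnit
  refine ⟨?_, ?_, ?_⟩
  · rw [hm'.leadingCoeff]
    intro h1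
    exact hne ((Ideal.eq_top_iff_one _).2 h1)
  · intro k hk
    rw [e, hm.natDegree_map] at hk
    have := h.mem hk
    rw [e, coeff_map, Ideal.mem_span_singleton]
    obtain ⟨c, hc⟩ := Ideal.mem_span_singleton.1 (show _ ∈ Ideal.span {(p : ℤ)} from this)
    rw [hc]
    exact ⟨(c : O), by simp⟩
  · rw [coeff_zero_eq_eval_zero, eval_comp]
    simp only [eval_add, eval_X, eval_one, zero_add]
    rw [eval_one_cyclotomic_prime_pow]
    rw [Ideal.span_singleton_pow, Ideal.mem_span_singleton]
    intro h2
    have h3 : (p : O) * 1 = p := mul_one _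
    obtain ⟨c, hc⟩ := h2
    have h4 : (p : O) * 1 = p * (p * c) := by rw [h3]; linear_combination hc
    have h5 := mul_left_cancel₀ hpp.ne_zero h4
    exact hpp.not_isUnit (IsUnit.of_mul_eq_one c h5.symm)

/-- the cyclotomic polynomials of `p`-power order are irreducible over the fraction field -/
theorem irr [IsIntegrallyClosed O] (F : Type) [Field F] [Algebra O F] [IsFractionRing O F]
    (hpp : Prime (p : O)) (n : ℕ) : Irreducible (cyclotomic (p ^ n) F) := by
  rcases n with _ | n
  · rw [pow_zero, cyclotomic_one, ← C_1]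
    exact irreducible_X_sub_C 1
  have hprime : (Ideal.span {(p : O)}).IsPrime :=
    (Ideal.span_singleton_prime hpp.ne_zero).2 hpp
  have hm : ((cyclotomic (p ^ (n + 1)) O).comp (X + 1)).Monic := by
    rw [show (X + 1 : O[X]) = X + C 1 by simp]
    refine (cyclotomic.monic _ _).comp (monic_X_add_C 1) fun h => ?_
    rw [natDegree_X_add_C] at h
    exact zero_ne_one h.symm
  have hd : 0 < ((cyclotomic (p ^ (n + 1)) O).comp (X + 1)).natDegree := by
    rw [natDegree_comp, natDegree_cyclotomic, show (X + 1 : O[X]) = X + C 1 by simp,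
      natDegree_X_add_C, mul_one]
    exact Nat.totient_pos.2 (pow_pos hp.out.pos _)
  have h1 := (eis hpp n).irreducible hprime hm.isPrimitive hd
  have h2 : Irreducible (cyclotomic (p ^ (n + 1)) O) := by
    have e2 : (cyclotomic (p ^ (n + 1)) O).comp (X + 1) =
        algEquivAevalXAddC (1 : O) (cyclotomic (p ^ (n + 1)) O) := by
      simp [comp, aeval_def, algebraMap_eq]
    rw [e2] at h1
    exact (MulEquiv.irreducible_iff (algEquivAevalXAddC (1 : O))).1 h1
  have h3 := ((cyclotomic.monic (p ^ (n + 1)) O).irreducible_iff_irreducible_map_fraction_map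
    (K := F)).1 h2
  rwa [map_cyclotomic] at h3

end irr

end SC3x

open Polynomial SC3x Pool.Agent.H371.SA.Ox in
theorem trace_unr (p : ℕ) [Fact p.Prime] (O : Type) [CommRing O] [IsDomain O] [Algebra ℤ_[p] O]
    [Module.Free ℤ_[p] O] [Module.Finite ℤ_[p] O] (hp : Prime (p : O)) (n : ℕ)
    (t : Matrix (Fin n) (Fin n) O) (a : ℕ) (ht : t ^ (p ^ a) = 1) (h1 : t ≠ 1) :
    ∃ k : ℕ, 1 ≤ k ∧ k * (p - 1) ≤ n ∧ t.trace = (n : O) - p * k := by
  classical
  have hpr : p.Prime := Fact.out
  have hdvr : IsDiscreteValuationRing O := dvr_of_prime p O (p : O) hp dvd_rfl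
  have hchO : CharZero O := charZero_of_injective_algebraMap
    (FaithfulSMul.algebraMap_injective ℤ_[p] O)
  let F := FractionRing O
  have hchF : CharZero F := charZero_of_injective_algebraMap (IsFractionRing.injective O F)
  set φ : O →+* F := algebraMap O F with hφ
  have hφi : Function.Injective φ := IsFractionRing.injective O F
  set T := t.map φ with hT
  have hTN : T ^ (p ^ a) = 1 := by
    have := congrArg (fun M : Matrix (Fin n) (Fin n) O => M.map φ) ht
    rw [Matrix.map_pow] at this
    rw [hT, this]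
    exact Matrix.map_one _ (map_zero _) (map_one _)
  have hT1 : T ≠ 1 := by
    intro h
    apply h1
    apply Matrix.map_injective hφi
    change t.map φ = (1 : Matrix (Fin n) (Fin n) O).map φ
    rw [← hT, h]
    exact (Matrix.map_one _ (map_zero _) (map_one _)).symm
  set f := T.charpoly with hf
  have hfm : f.Monic := T.charpoly_monic
  set s := UniqueFactorizationMonoid.normalizedFactors f with hs
  have hprod : s.prod = f := by
    have h2 := UniqueFactorizationMonoid.prod_normalizedFactors_eq hfm.ne_zero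
    rw [← hs, hfm.normalize_eq_self] at h2
    exact h2
  have hsm : ∀ q ∈ s, q.Monic := fun q hq => by
    have h3 := UniqueFactorizationMonoid.normalize_normalized_factor q hq
    have h4 := (UniqueFactorizationMonoid.irreducible_of_normalized_factor q hq).ne_zero
    rw [← h3]
    exact monic_normalize h4
  have hsX : ∀ q ∈ s, q ∣ X ^ (p ^ a) - 1 := fun q hq =>
    eig T (p ^ a) hTN q (UniqueFactorizationMonoid.irreducible_of_normalized_factor q hq)
      (hsm q hq) (UniqueFactorizationMonoid.dvd_of_mem_normalizedFactors hq)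
  have hcyc : ∀ q ∈ s, ∃ n', q = cyclotomic (p ^ n') F := by
    intro q hq
    have hqi := UniqueFactorizationMonoid.irreducible_of_normalized_factor q hq
    have h5 := hsX q hq
    rw [← prod_cyclotomic_eq_X_pow_sub_one (pow_pos hpr.pos a)] at h5
    obtain ⟨d, hd, h6⟩ := (Prime.dvd_finsetProd_iff hqi.prime _).1 h5
    rw [Nat.mem_divisors, Nat.dvd_prime_pow hpr] at hd
    obtain ⟨⟨n', _, rfl⟩, _⟩ := hd
    refine ⟨n', ?_⟩
    exact eq_of_monic_of_associated (hsm q hq) (cyclotomic.monic _ _)
      (hqi.associated_of_dvd (irr (O := O) F hp n') h6)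
  obtain ⟨_, k, hk1, hk2, hk3⟩ := multi (p := p) F s hsm (fun q hq => by
    obtain ⟨n', rfl⟩ := hcyc q hq
    exact cyc_data F n')
  rw [hprod] at hk1 hk2 hk3
  have hdeg : f.natDegree = n := by rw [hf, Matrix.charpoly_natDegree_eq_dim, Fintype.card_fin]
  rw [hdeg] at hk1 hk2
  refine ⟨k, ?_, hk2, ?_⟩
  · by_contra hk
    have hk0 : k = 0 := by omega
    have h7 := hk3 hk0
    -- `T - 1` is nilpotent and `T` is annihilated by a separable polynomial
    apply hT1
    have h8 : minpoly F T ∣ (X - 1) ^ Multiset.card s := by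
      rw [← h7]; exact Matrix.minpoly_dvd_charpoly T
    have h9 : minpoly F T ∣ X ^ (p ^ a) - 1 := by
      apply minpoly.dvd
      simp [hTN]
    have h10 : (X ^ (p ^ a) - 1 : F[X]).Separable := by
      have : ((p ^ a : ℕ) : F) ≠ 0 := by
        exact_mod_cast pow_ne_zero a hpr.ne_zero
      have h := separable_X_pow_sub_C (n := p ^ a) (1 : F) this one_ne_zero
      simpa using h
    have h11 : Squarefree (minpoly F T) := h10.squarefree.squarefree_of_dvd h9
    have hX1 : (X - 1 : F[X]) = X - C 1 := by simp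
    have h12 : minpoly F T ∣ X - 1 :=
      (h11.dvd_pow_iff_dvd (Nat.succ_ne_zero (Multiset.card s))).1
        (h8.trans (pow_dvd_pow _ (Nat.le_succ _)))
    obtain ⟨r, hr⟩ := h12
    have h13 := congrArg (aeval T) hr
    rw [map_mul, minpoly.aeval, zero_mul] at h13
    simpa [sub_eq_zero] using h13
  · apply hφi
    rw [map_sub, map_mul]
    simp only [map_natCast]
    have h7 : φ t.trace = T.trace := by
      rw [hT, Matrix.trace, Matrix.trace, map_sum]; rfl
    rw [h7, Matrix.trace_eq_neg_charpoly_nextCoeff, ← hf]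
    linear_combination -hk1


end Pool.Agent.H371.SC
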