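import Pool.Agent.H371.SC.Defs
import Pool.Agent.H371.SA.TO

/-!
TASK SC-4: eigenvalues of elements of `p`-power order, cyclotomic case
-/

set_option autoImplicit false

namespace Pool.Agent.H371.SC.SC4x

open Polynomial

variable {p : ℕ} [hp : Fact p.Prime] {O : Type} [CommRing O] [IsDomain O]

theorem assoc {a : ℕ} {ξ : O} (hξ : IsPrimitiveRoot ξ (p ^ a)) (μ : O)
    (hμ : IsPrimitiveRoot μ (p ^ a)) : Associated (1 - ξ) (1 - μ) := by
  have : NeZero (p ^ a) := ⟨pow_ne_zero _ hp.out.ne_zero⟩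
  obtain ⟨j, -, hj, rfl⟩ := hξ.isPrimitiveRoot_iff.1 hμ
  have h := hξ.associated_sub_one_pow_sub_one_of_coprime hj
  have h1 : (1 - ξ) = -(ξ - 1) := by ring
  have h2 : (1 - ξ ^ j) = -(ξ ^ j - 1) := by ring
  rw [h1, h2]
  exact (h.neg_left).neg_right

theorem p_eq {a : ℕ} (ha : 1 ≤ a) {ξ : O} (hξ : IsPrimitiveRoot ξ (p ^ a)) :
    (p : O) = ∏ μ ∈ primitiveRoots (p ^ a) O, (1 - μ) := by
  obtain ⟨k, rfl⟩ : ∃ k, a = k + 1 := ⟨a - 1, by omega⟩
  have h := eval_one_cyclotomic_prime_pow (R := O) (p := p) k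
  rw [← h, cyclotomic_eq_prod_X_sub_primitiveRoots hξ, eval_prod]
  exact Finset.prod_congr rfl fun μ _ => by simp

theorem dvd_p {a : ℕ} (ha : 1 ≤ a) {ξ : O} (hξ : IsPrimitiveRoot ξ (p ^ a)) :
    (1 - ξ) ∣ (p : O) := by
  rw [p_eq ha hξ]
  apply Finset.dvd_prod_of_mem
  rw [mem_primitiveRoots (pow_pos hp.out.pos _)]
  exact hξ

theorem p_dvd {a : ℕ} (ha : 1 ≤ a) {ξ : O} (hξ : IsPrimitiveRoot ξ (p ^ a)) :
    ∃ N : ℕ, (p : O) ∣ (1 - ξ) ^ N := by
  refine ⟨(primitiveRoots (p ^ a) O).card, ?_⟩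
  rw [p_eq ha hξ, ← Finset.prod_const]
  apply Finset.prod_dvd_prod_of_dvd
  intro μ hμ
  rw [mem_primitiveRoots (pow_pos hp.out.pos _)] at hμ
  exact (assoc hξ μ hμ).symm.dvd

theorem dvr [Algebra ℤ_[p] O] [Module.Free ℤ_[p] O] [Module.Finite ℤ_[p] O] (π : O) (hπ : Prime π)
    (h1 : π ∣ (p : O)) (h2 : ∃ N : ℕ, (p : O) ∣ π ^ N) : IsDiscreteValuationRing O := by
  have hint : Algebra.IsIntegral ℤ_[p] O := inferInstance
  have hmax : ∀ M : Ideal O, M.IsMaximal → (p : O) ∈ M := by
    intro M hM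
    have h3 := Ideal.isMaximal_comap_of_isIntegral_of_isMaximal (R := ℤ_[p]) M
    have h4 := IsLocalRing.eq_maximalIdeal h3
    have h5 : (p : ℤ_[p]) ∈ M.comap (algebraMap ℤ_[p] O) := by
      rw [h4, PadicInt.maximalIdeal_eq_span_p]
      exact Ideal.mem_span_singleton_self _
    rw [Ideal.mem_comap, map_natCast] at h5
    exact h5
  have hpr : (Ideal.span {π}).IsPrime := (Ideal.span_singleton_prime hπ.ne_zero).2 hπ
  have hpm : (p : O) ∈ Ideal.span {π} := Ideal.mem_span_singleton.2 h1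
  have hcm : ((Ideal.span {π}).comap (algebraMap ℤ_[p] O)).IsMaximal := by
    have h3 : ((Ideal.span {π}).comap (algebraMap ℤ_[p] O)).IsPrime := Ideal.comap_isPrime _ _
    have h4 : Ideal.span {(p : ℤ_[p])} ≤ (Ideal.span {π}).comap (algebraMap ℤ_[p] O) := by
      rw [Ideal.span_singleton_le_iff_mem, Ideal.mem_comap, map_natCast]
      exact hpm
    rw [← PadicInt.maximalIdeal_eq_span_p] at h4
    have h5 : (Ideal.span {π}).comap (algebraMap ℤ_[p] O) = IsLocalRing.maximalIdeal ℤ_[p] :=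
      le_antisymm (IsLocalRing.le_maximalIdeal h3.ne_top) h4
    rw [h5]
    infer_instance
  have hpim : (Ideal.span {π}).IsMaximal :=
    Ideal.isMaximal_of_isIntegral_of_isMaximal_comap (R := ℤ_[p]) _ hcm
  have huniq : ∀ M : Ideal O, M.IsMaximal → M = Ideal.span {π} := by
    intro M hM
    obtain ⟨N, hN⟩ := h2
    have h3 : π ∈ M := hM.isPrime.mem_of_pow_mem N (Ideal.mem_of_dvd M hN (hmax M hM))
    exact (hpim.eq_of_le hM.ne_top ((Ideal.span_singleton_le_iff_mem _).2 h3)).symm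
  have hloc : IsLocalRing O := IsLocalRing.of_unique_max_ideal ⟨_, hpim, huniq⟩
  have hmi : IsLocalRing.maximalIdeal O = Ideal.span {π} := huniq _ inferInstance
  have hnoe : IsNoetherianRing O := IsNoetherianRing.of_finite ℤ_[p] O
  have hnf : ¬ IsField O := by
    rw [IsLocalRing.isField_iff_maximalIdeal_eq, hmi, Ideal.span_singleton_eq_bot]
    exact hπ.ne_zero
  refine ((IsDiscreteValuationRing.TFAE O hnf).out 4 0).1 ?_
  rw [hmi]
  exact ⟨⟨π, rfl⟩⟩

theorem eis_irr (ζ : O) (hζ : Prime (1 - ζ)) (hd : (1 - ζ) ∣ (p : O)) (c : ℕ) :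
    Irreducible (X ^ (p ^ c) - C ζ : O[X]) := by
  have hpos : 0 < p ^ c := pow_pos hp.out.pos c
  have hm : (X ^ (p ^ c) - C ζ : O[X]).Monic := monic_X_pow_sub_C ζ hpos.ne'
  have hnd : (X ^ (p ^ c) - C ζ : O[X]).natDegree = p ^ c := natDegree_X_pow_sub_C
  have hpr : (Ideal.span {1 - ζ}).IsPrime := (Ideal.span_singleton_prime hζ.ne_zero).2 hζ
  have hmc : ((X ^ (p ^ c) - C ζ : O[X]).comp (X + C 1)).Monic := by
    refine hm.comp (monic_X_add_C 1) fun h => ?_
    rw [natDegree_X_add_C] at h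
    exact one_ne_zero h
  have hndc : ((X ^ (p ^ c) - C ζ : O[X]).comp (X + C 1)).natDegree = p ^ c := by
    rw [natDegree_comp, hnd, natDegree_X_add_C, mul_one]
  have hco : ∀ k, ((X ^ (p ^ c) - C ζ : O[X]).comp (X + C 1)).coeff k =
      ((p ^ c).choose k : O) - (C ζ : O[X]).coeff k := by
    intro k
    rw [sub_comp, pow_comp, X_comp, C_comp, coeff_sub, C_1, coeff_X_add_one_pow]
  have hE : ((X ^ (p ^ c) - C ζ : O[X]).comp (X + C 1)).IsEisensteinAt (Ideal.span {1 - ζ}) := by
    refine ⟨?_, ?_, ?_⟩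
    · rw [hmc.leadingCoeff]
      intro h
      exact hpr.ne_top ((Ideal.eq_top_iff_one _).2 h)
    · intro k hk
      rw [hndc] at hk
      rw [hco, Ideal.mem_span_singleton]
      rcases Nat.eq_zero_or_pos k with rfl | hk0
      · rw [coeff_C_zero, Nat.choose_zero_right, Nat.cast_one]
      · rw [coeff_C_of_ne_zero hk0.ne', sub_zero]
        have h1 : p ∣ (p ^ c).choose k := hp.out.dvd_choose_pow hk0.ne' hk.ne
        exact hd.trans (by exact_mod_cast Nat.cast_dvd_cast (α := O) h1)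
    · rw [hco, coeff_C_zero, Nat.choose_zero_right, Nat.cast_one, Ideal.span_singleton_pow,
        Ideal.mem_span_singleton]
      rintro ⟨r, hr⟩
      have h3 : (1 - ζ) * 1 = (1 - ζ) * ((1 - ζ) * r) := by rw [mul_one, ← mul_assoc, ← sq]; exact hr
      have h4 := mul_left_cancel₀ hζ.ne_zero h3
      exact hζ.not_isUnit (IsUnit.of_mul_eq_one r h4.symm)
  have h1 := hE.irreducible hpr hmc.isPrimitive (by rw [hndc]; exact hpos)
  have e2 : (X ^ (p ^ c) - C ζ : O[X]).comp (X + C 1) =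
      algEquivAevalXAddC (1 : O) (X ^ (p ^ c) - C ζ : O[X]) := by
    simp [comp, aeval_def, algebraMap_eq]
  rw [e2] at h1
  exact (MulEquiv.irreducible_iff (algEquivAevalXAddC (1 : O))).1 h1

/-- the numbers attached to `X ^ (p ^ c) - C ζ` -/
theorem cdata (F : Type) [Field F] (r : F) (c : ℕ) (hc : 1 ≤ c) :
    ((X ^ (p ^ c) - C r : F[X]).natDegree : F) + (X ^ (p ^ c) - C r : F[X]).nextCoeff =
      p * ((p ^ (c - 1) : ℕ) : F) := by
  have hpos : 0 < p ^ c := pow_pos hp.out.pos c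
  have h2 : 2 ≤ p ^ c := by
    calc 2 ≤ p := hp.out.two_le
      _ = p ^ 1 := (pow_one p).symm
      _ ≤ p ^ c := Nat.pow_le_pow_right hp.out.pos hc
  have hnd : (X ^ (p ^ c) - C r : F[X]).natDegree = p ^ c := natDegree_X_pow_sub_C
  rw [nextCoeff_of_natDegree_pos (by rw [hnd]; exact hpos), hnd, coeff_sub, coeff_X_pow,
    if_neg (by omega), coeff_C_of_ne_zero (by omega), sub_zero, add_zero]
  obtain ⟨d, rfl⟩ : ∃ d, c = d + 1 := ⟨c - 1, by omega⟩
  rw [Nat.add_sub_cancel]
  push_cast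
  ring

omit hp in
/-- products -/
theorem multi (F : Type) [Field F] [CharZero F] (s : Multiset F[X]) (hm : ∀ q ∈ s, q.Monic)
    (hs : ∀ q ∈ s, ∃ κ : ℕ, (q.natDegree : F) + q.nextCoeff = p * κ ∧ κ * p ≤ q.natDegree ∧
      (κ = 0 → q = X - 1)) :
    s.prod.Monic ∧ ∃ k : ℕ, (s.prod.natDegree : F) + s.prod.nextCoeff = p * k ∧
      k * p ≤ s.prod.natDegree ∧ (k = 0 → s.prod = (X - 1) ^ Multiset.card s) := by
  induction s using Multiset.induction with
  | empty => exact ⟨by simp [monic_one], 0, by simp [nextCoeff], by simp, by simp⟩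
  | cons q s ih =>
    obtain ⟨h1, k, h2, h3, h4⟩ := ih (fun r hr => hm r (Multiset.mem_cons_of_mem hr))
      (fun r hr => hs r (Multiset.mem_cons_of_mem hr))
    obtain ⟨κ, h5, h6, h7⟩ := hs q (Multiset.mem_cons_self q s)
    have hq := hm q (Multiset.mem_cons_self q s)
    rw [Multiset.prod_cons]
    refine ⟨hq.mul h1, κ + k, ?_, ?_, ?_⟩
    · rw [hq.natDegree_mul h1, hq.nextCoeff_mul h1]
      push_cast
      linear_combination h2 + h5
    · rw [hq.natDegree_mul h1, add_mul]
      omega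
    · intro h0
      have : κ = 0 := by omega
      have : k = 0 := by omega
      rw [h7 ‹_›, h4 ‹_›, Multiset.card_cons]
      ring

end Pool.Agent.H371.SC.SC4x

namespace Pool.Agent.H371.SC

open Pool.Agent.H371.SA SC4x

open Polynomial in
theorem eig_ram (p : ℕ) [Fact p.Prime] (O : Type) [CommRing O] [IsDomain O] [Algebra ℤ_[p] O]
    [Module.Free ℤ_[p] O] [Module.Finite ℤ_[p] O] (a : ℕ) (ha : 1 ≤ a) (ξ : O)
    (hξ : IsPrimitiveRoot ξ (p ^ a)) (hp : Prime (1 - ξ)) (n : ℕ)
    (t : Matrix (Fin n) (Fin n) O) (b : ℕ) (ht : t ^ (p ^ b) = 1) (h1 : t ≠ 1)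
    (L : Type) [Field L] [IsAlgClosed L] [Algebra O L] [FaithfulSMul O L] (x : Fin n → L)
    (hx : (t.map (algebraMap O L)).charpoly = ∏ i, (Polynomial.X - Polynomial.C (x i))) :
    (∃ i, x i ≠ 1 ∧ x i ^ (p ^ a) = 1) ∨
      ∃ k : ℕ, 1 ≤ k ∧ k * p ≤ n ∧ t.trace = (n : O) - p * k := by
  classical
  by_cases hex : ∃ i, x i ≠ 1 ∧ x i ^ (p ^ a) = 1
  · exact Or.inl hex
  right
  push Not at hex
  have hpp : p.Prime := Fact.out
  have hdvr : IsDiscreteValuationRing O := dvr (1 - ξ) hp (dvd_p ha hξ) (p_dvd ha hξ)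
  have hinjO : Function.Injective (algebraMap ℤ_[p] O) := FaithfulSMul.algebraMap_injective _ _
  have hcharO : CharZero O := charZero_of_injective_algebraMap hinjO
  let K := FractionRing O
  letI : Algebra K L := FractionRing.liftAlgebra O L
  haveI : IsScalarTower O K L := FractionRing.isScalarTower_liftAlgebra O L
  have hφi : Function.Injective (algebraMap O K) := IsFractionRing.injective O K
  have hψi : Function.Injective (algebraMap O L) := FaithfulSMul.algebraMap_injective O L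
  have hcharK : CharZero K := charZero_of_injective_algebraMap hφi
  have hcharL : CharZero L := charZero_of_injective_algebraMap hψi
  set T := t.map (algebraMap O K) with hT
  have hTN : T ^ (p ^ b) = 1 := by
    have := congrArg (fun M : Matrix (Fin n) (Fin n) O => M.map (algebraMap O K)) ht
    rw [Matrix.map_pow] at this
    rw [hT, this]
    exact Matrix.map_one _ (map_zero _) (map_one _)
  have hT1 : T ≠ 1 := by
    intro h
    apply h1
    apply Matrix.map_injective hφi
    change t.map (algebraMap O K) = (1 : Matrix (Fin n) (Fin n) O).map (algebraMap O K)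
    rw [← hT, h]
    exact (Matrix.map_one _ (map_zero _) (map_one _)).symm
  set f := T.charpoly with hf
  have hfm : f.Monic := T.charpoly_monic
  have hfL : f.map (algebraMap K L) = ∏ i, (X - C (x i)) := by
    rw [← hx, hf, ← Matrix.charpoly_map, hT, Matrix.map_map]
    congr 2
    exact (IsScalarTower.algebraMap_eq O K L).symm ▸ rfl
  set s := UniqueFactorizationMonoid.normalizedFactors f with hs
  have hprod : s.prod = f := by
    have h2 := UniqueFactorizationMonoid.prod_normalizedFactors_eq hfm.ne_zero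
    rw [← hs, hfm.normalize_eq_self] at h2
    exact h2
  have hsm : ∀ q ∈ s, q.Monic := fun q hq => by
    have h3 := UniqueFactorizationMonoid.normalize_normalized_factor q hq
    have h4 := (UniqueFactorizationMonoid.irreducible_of_normalized_factor q hq).ne_zero
    rw [← h3]
    exact monic_normalize h4
  have hsX : ∀ q ∈ s, q ∣ X ^ (p ^ b) - 1 := fun q hq =>
    SA.Ox.eig T (p ^ b) hTN q (UniqueFactorizationMonoid.irreducible_of_normalized_factor q hq)
      (hsm q hq) (UniqueFactorizationMonoid.dvd_of_mem_normalizedFactors hq)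
  have hcyc : ∀ q ∈ s, q = X - 1 ∨ ∃ (c : ℕ) (r : K), 1 ≤ c ∧ q = X ^ (p ^ c) - C r := by
    intro q hq
    have hqi := UniqueFactorizationMonoid.irreducible_of_normalized_factor q hq
    have hqd := UniqueFactorizationMonoid.dvd_of_mem_normalizedFactors hq
    obtain ⟨l, hl⟩ := IsAlgClosed.exists_aeval_eq_zero L q (degree_pos_of_irreducible hqi).ne'
    have hlp : l ^ (p ^ b) = 1 := by
      obtain ⟨r, hr⟩ := hsX q hq
      have h5 := congrArg (aeval l) hr
      rw [map_mul, hl, zero_mul] at h5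
      simpa [sub_eq_zero] using h5
    obtain ⟨i, hi⟩ : ∃ i, x i = l := by
      obtain ⟨r, hr⟩ := hqd
      have h5 : eval l (f.map (algebraMap K L)) = 0 := by
        rw [eval_map_algebraMap, hr, map_mul, hl, zero_mul]
      rw [hfL, eval_prod, Finset.prod_eq_zero_iff] at h5
      obtain ⟨i, -, h6⟩ := h5
      refine ⟨i, ?_⟩
      simp only [eval_sub, eval_X, eval_C, sub_eq_zero] at h6
      exact h6.symm
    have hqmin : q = minpoly K l := minpoly.eq_of_irreducible_of_monic hqi hl (hsm q hq)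
    obtain ⟨m, hmb, hm⟩ := (Nat.dvd_prime_pow hpp).1 (orderOf_dvd_of_pow_eq_one hlp)
    have hlprim : IsPrimitiveRoot l (p ^ m) := by
      rw [← hm]; exact IsPrimitiveRoot.orderOf l
    by_cases hl1 : l = 1
    · left
      rw [hqmin, hl1]
      have : (1 : L) = algebraMap K L 1 := (map_one _).symm
      rw [this, minpoly.eq_X_sub_C, C_1]
    · right
      have hma : a < m := by
        by_contra hcon
        rw [not_lt] at hcon
        apply hex i (by rw [hi]; exact hl1)
        rw [hi]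
        obtain ⟨e, rfl⟩ := Nat.exists_eq_add_of_le hcon
        rw [pow_add, pow_mul, hlprim.pow_eq_one, one_pow]
      obtain ⟨c, rfl⟩ := Nat.exists_eq_add_of_le hma.le
      have hc : 1 ≤ c := by omega
      have hlc : IsPrimitiveRoot (l ^ (p ^ c)) (p ^ a) := by
        refine hlprim.pow (pow_pos hpp.pos _) ?_
        rw [pow_add, mul_comm]
      have hξL : IsPrimitiveRoot (algebraMap O L ξ) (p ^ a) := hξ.map_of_injective hψi
      haveI : NeZero (p ^ a) := ⟨pow_ne_zero _ hpp.ne_zero⟩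
      obtain ⟨j, -, hj, hj2⟩ := hξL.isPrimitiveRoot_iff.1 hlc
      have hζ : IsPrimitiveRoot (ξ ^ j) (p ^ a) := hξ.pow_of_coprime j hj
      have hζp : Prime (1 - ξ ^ j) := (assoc hξ (ξ ^ j) hζ).prime_iff.1 hp
      have hirr := eis_irr (p := p) (ξ ^ j) hζp (dvd_p ha hζ) c
      have hmon : (X ^ (p ^ c) - C (ξ ^ j) : O[X]).Monic :=
        monic_X_pow_sub_C _ (pow_pos hpp.pos c).ne'
      have hirrK := (hmon.irreducible_iff_irreducible_map_fraction_map (K := K)).1 hirr
      have hrt : aeval l ((X ^ (p ^ c) - C (ξ ^ j) : O[X]).map (algebraMap O K)) = 0 := by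
        rw [aeval_map_algebraMap]
        simp only [map_sub, map_pow, aeval_X, aeval_C]
        rw [← hj2, sub_self]
      have h6 := minpoly.eq_of_irreducible_of_monic hirrK hrt (hmon.map _)
      refine ⟨c, algebraMap O K (ξ ^ j), hc, ?_⟩
      rw [hqmin, ← h6]
      simp
  obtain ⟨_, k, hk1, hk2, hk3⟩ := multi (p := p) K s hsm (fun q hq => by
    rcases hcyc q hq with rfl | ⟨c, r, hc, rfl⟩
    · refine ⟨0, ?_, by simp, fun _ => rfl⟩
      rw [← C_1, natDegree_X_sub_C, nextCoeff_X_sub_C]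
      simp
    · refine ⟨p ^ (c - 1), cdata K r c hc, ?_, ?_⟩
      · rw [natDegree_X_pow_sub_C, ← pow_succ, Nat.sub_add_cancel hc]
      · intro h0
        exact absurd h0 (pow_pos hpp.pos _).ne')
  rw [hprod] at hk1 hk2 hk3
  have hdeg : f.natDegree = n := by rw [hf, Matrix.charpoly_natDegree_eq_dim, Fintype.card_fin]
  rw [hdeg] at hk1 hk2
  refine ⟨k, ?_, hk2, ?_⟩
  · by_contra hk
    have hk0 : k = 0 := by omega
    have h7 := hk3 hk0
    apply hT1
    have h8 : minpoly K T ∣ (X - 1) ^ Multiset.card s := by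
      rw [← h7]; exact Matrix.minpoly_dvd_charpoly T
    have h9 : minpoly K T ∣ X ^ (p ^ b) - 1 := by
      apply minpoly.dvd
      simp [hTN]
    have h10 : (X ^ (p ^ b) - 1 : K[X]).Separable := by
      have : ((p ^ b : ℕ) : K) ≠ 0 := by
        exact_mod_cast pow_ne_zero b hpp.ne_zero
      have h := separable_X_pow_sub_C (n := p ^ b) (1 : K) this one_ne_zero
      simpa using h
    have h11 : Squarefree (minpoly K T) := h10.squarefree.squarefree_of_dvd h9
    have h12 : minpoly K T ∣ X - 1 :=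
      (h11.dvd_pow_iff_dvd (Nat.succ_ne_zero (Multiset.card s))).1
        (h8.trans (pow_dvd_pow _ (Nat.le_succ _)))
    obtain ⟨r, hr⟩ := h12
    have h13 := congrArg (aeval T) hr
    rw [map_mul, minpoly.aeval, zero_mul] at h13
    simpa [sub_eq_zero] using h13
  · apply hφi
    rw [map_sub, map_mul]
    simp only [map_natCast]
    have h7 : algebraMap O K t.trace = T.trace := by
      rw [hT, Matrix.trace, Matrix.trace, map_sum]; rfl
    rw [h7, Matrix.trace_eq_neg_charpoly_nextCoeff, ← hf]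
    linear_combination -hk1

end Pool.Agent.H371.SC
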