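import Pool.Agent.H371.SC.V0
import Pool.Agent.H371.SC.W2
import Pool.Agent.H371.SC.W3
import Pool.Agent.H371.SC.W4

/-! The virtual characters of `GL_n(O)`. -/

set_option autoImplicit false

namespace Pool.Agent.H371.SC

open Pool.Agent.H371.SA

namespace V4x

/-- the product character -/
theorem prod_mem (p : ℕ) (O : Type) [CommRing O] {A : Type} [Ring A] (P : Subgroup Aˣ) (K : ℕ)
    (g : ℕ → P → O) (hg : ∀ j, g j ∈ ACO p O P) :
    (fun u => ∏ j ∈ Finset.range K, g j u) ∈ ACO p O P := by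
  induction K with
  | zero =>
    have := ACO.const p O P 1
    simpa using this
  | succ K ih =>
    have := ACO.mul p O P ih (hg K)
    have e : (fun u => ∏ j ∈ Finset.range (K + 1), g j u) =
        (fun u => ∏ j ∈ Finset.range K, g j u) * g K := by
      funext u
      rw [Finset.prod_range_succ, Pi.mul_apply]
    rw [e]; exact this

/-- the product of the numbers `trace - (n - p (j + 1))` -/
theorem trace_prod (p : ℕ) (O : Type) [CommRing O] (n K : ℕ) :
    ∃ f : (⊤ : Subgroup (Matrix (Fin n) (Fin n) O)ˣ) → O,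
      f ∈ ACO p O (⊤ : Subgroup (Matrix (Fin n) (Fin n) O)ˣ) ∧
      f 1 = ((p ^ K * K.factorial : ℕ) : O) ∧
      ∀ (t : (⊤ : Subgroup (Matrix (Fin n) (Fin n) O)ˣ)) (k : ℕ), 1 ≤ k → k ≤ K →
        (((t : (Matrix (Fin n) (Fin n) O)ˣ) : Matrix (Fin n) (Fin n) O)).trace =
          (n : O) - p * k → f t = 0 := by
  let A := Matrix (Fin n) (Fin n) O
  let P : Subgroup Aˣ := ⊤
  let g : ℕ → P → O := fun j u =>
    (((u : Aˣ) : A)).trace - (((n : ℤ) - p * (j + 1) : ℤ) : O)
  have hg : ∀ j, g j ∈ ACO p O P := by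
    intro j
    exact (ACO p O P).sub_mem (ACO.of_ringHom p O P n (RingHom.id A)) (ACO.const p O P _)
  refine ⟨fun u => ∏ j ∈ Finset.range K, g j u, prod_mem p O P K g hg, ?_, ?_⟩
  · have h1 : ∀ j ∈ Finset.range K, g j 1 = (p : O) * ((j + 1 : ℕ) : O) := by
      intro j _
      change ((1 : A)).trace - (((n : ℤ) - p * (j + 1) : ℤ) : O) = _
      rw [Matrix.trace_one, Fintype.card_fin]
      push_cast
      ring
    change ∏ j ∈ Finset.range K, g j 1 = _
    rw [Finset.prod_congr rfl h1, Finset.prod_mul_distrib, Finset.prod_const, Finset.card_range,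
      ← Nat.cast_prod, Finset.prod_range_add_one_eq_factorial]
    push_cast
    rfl
  · intro t k hk1 hk htr
    apply Finset.prod_eq_zero (i := k - 1)
    · rw [Finset.mem_range]; omega
    · change (((t : Aˣ) : A)).trace - (((n : ℤ) - p * ((k - 1 : ℕ) + 1) : ℤ) : O) = 0
      rw [htr]
      have : ((k - 1 : ℕ) : ℤ) = k - 1 := by
        rw [Nat.cast_sub hk1]; simp
      rw [this]
      push_cast
      ring

end V4x

open V4x

theorem gl_char_unr (p : ℕ) [Fact p.Prime] (O : Type) [CommRing O] [IsDomain O] [Algebra ℤ_[p] O]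
    [Module.Free ℤ_[p] O] [Module.Finite ℤ_[p] O] (hp : Prime (p : O)) (n : ℕ) :
    ∃ f : (⊤ : Subgroup (Matrix (Fin n) (Fin n) O)ˣ) → O,
      f ∈ ACO p O (⊤ : Subgroup (Matrix (Fin n) (Fin n) O)ˣ) ∧
      f 1 = ((p ^ (n / (p - 1)) * (n / (p - 1)).factorial : ℕ) : O) ∧
      ∀ t : (⊤ : Subgroup (Matrix (Fin n) (Fin n) O)ˣ), t ≠ 1 → ∀ a : ℕ, t ^ (p ^ a) = 1 →
        f t = 0 := by
  obtain ⟨f, hf, hf1, hf0⟩ := trace_prod p O n (n / (p - 1))
  refine ⟨f, hf, hf1, ?_⟩
  intro t ht a hta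
  have hp2 : 2 ≤ p := (Fact.out : p.Prime).two_le
  have h1 : (((t : (Matrix (Fin n) (Fin n) O)ˣ) : Matrix (Fin n) (Fin n) O)) ^ (p ^ a) = 1 := by
    have := congrArg (fun u : (⊤ : Subgroup (Matrix (Fin n) (Fin n) O)ˣ) =>
      ((u : (Matrix (Fin n) (Fin n) O)ˣ) : Matrix (Fin n) (Fin n) O)) hta
    simpa using this
  have h2 : (((t : (Matrix (Fin n) (Fin n) O)ˣ) : Matrix (Fin n) (Fin n) O)) ≠ 1 := by
    intro h
    exact ht (Subtype.ext (Units.ext h))
  obtain ⟨k, hk1, hkn, htr⟩ := trace_unr p O hp n _ a h1 h2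
  exact hf0 t k hk1 ((Nat.le_div_iff_mul_le (by omega)).2 hkn) htr

theorem gl_char_ram (p : ℕ) [Fact p.Prime] (O : Type) [CommRing O] [IsDomain O] [Algebra ℤ_[p] O]
    [Module.Free ℤ_[p] O] [Module.Finite ℤ_[p] O] (a : ℕ) (ha : 1 ≤ a) (ξ : O)
    (hξ : IsPrimitiveRoot ξ (p ^ a)) (hp : Prime (1 - ξ)) (n : ℕ) :
    ∃ f : (⊤ : Subgroup (Matrix (Fin n) (Fin n) O)ˣ) → O,
      f ∈ ACO p O (⊤ : Subgroup (Matrix (Fin n) (Fin n) O)ˣ) ∧
      f 1 = (((p ^ a) ^ n * (p ^ (n / p) * (n / p).factorial) : ℕ) : O) ∧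
      ∀ t : (⊤ : Subgroup (Matrix (Fin n) (Fin n) O)ˣ), t ≠ 1 → ∀ b : ℕ, t ^ (p ^ b) = 1 →
        f t = 0 := by
  have hp2 : 2 ≤ p := (Fact.out : p.Prime).two_le
  have h0 : CharZero O :=
    charZero_of_injective_algebraMap (FaithfulSMul.algebraMap_injective ℤ_[p] O)
  obtain ⟨f, hf, hf1, hf0⟩ := trace_prod p O n (n / p)
  let Q : MvPolynomial (Fin n) ℤ := ∏ i, ∑ j ∈ Finset.range (p ^ a), MvPolynomial.X i ^ j
  have hQ : Q.IsSymmetric := by
    intro e
    simp only [Q, map_prod, map_sum, map_pow, MvPolynomial.rename_X]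
    exact Equiv.prod_comp e (fun i => ∑ j ∈ Finset.range (p ^ a), (MvPolynomial.X i : MvPolynomial (Fin n) ℤ) ^ j)
  obtain ⟨F, hF, hF1⟩ := sym_char p O n Q hQ
  have hev : ∀ (L : Type) [Field L] (x : Fin n → L), MvPolynomial.aeval x Q =
      ∏ i, ∑ j ∈ Finset.range (p ^ a), x i ^ j := by
    intro L _ x
    simp only [Q, map_prod, map_sum, map_pow, MvPolynomial.aeval_X]
  let L := AlgebraicClosure (FractionRing O)
  have hinj : Function.Injective (algebraMap O L) := by
    rw [IsScalarTower.algebraMap_eq O (FractionRing O) L]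
    exact (algebraMap (FractionRing O) L).injective.comp (IsFractionRing.injective O _)
  have hfs : FaithfulSMul O L := (faithfulSMul_iff_algebraMap_injective O L).2 hinj
  have hF2 : F 1 = (((p ^ a) ^ n : ℕ) : O) := by
    apply hinj
    rw [hF1 1 1 one_pos (one_pow 1) L (fun _ => 1), hev]
    · simp
    · change ((1 : Matrix (Fin n) (Fin n) O).map (algebraMap O L)).charpoly = _
      rw [Matrix.map_one _ (map_zero _) (map_one _), Matrix.charpoly_one]
      simp
  refine ⟨F * f, ACO.mul p O _ hF hf, ?_, ?_⟩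
  · rw [Pi.mul_apply, hf1, hF2, ← Nat.cast_mul]
  · intro t ht b htb
    rw [Pi.mul_apply]
    have h1 : (((t : (Matrix (Fin n) (Fin n) O)ˣ) : Matrix (Fin n) (Fin n) O)) ^ (p ^ b) = 1 := by
      have := congrArg (fun u : (⊤ : Subgroup (Matrix (Fin n) (Fin n) O)ˣ) =>
        ((u : (Matrix (Fin n) (Fin n) O)ˣ) : Matrix (Fin n) (Fin n) O)) htb
      simpa using this
    have h2 : (((t : (Matrix (Fin n) (Fin n) O)ˣ) : Matrix (Fin n) (Fin n) O)) ≠ 1 := by
      intro h
      exact ht (Subtype.ext (Units.ext h))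
    -- the eigenvalues
    set M : Matrix (Fin n) (Fin n) L :=
      (((t : (Matrix (Fin n) (Fin n) O)ˣ) : Matrix (Fin n) (Fin n) O).map (algebraMap O L)) with hM
    have hsp : M.charpoly.Splits := IsAlgClosed.splits M.charpoly
    have hcard : M.charpoly.roots.card = n := by
      rw [← hsp.natDegree_eq_card_roots, Matrix.charpoly_natDegree_eq_dim, Fintype.card_fin]
    obtain ⟨l, hl⟩ := Quotient.exists_rep M.charpoly.roots
    have hlen : l.length = n := by
      rw [← hcard, ← hl]; rfl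
    let x : Fin n → L := fun i => l.get (i.cast hlen.symm)
    have hx : M.charpoly = ∏ i, (Polynomial.X - Polynomial.C (x i)) := by
      have h3 := hsp.eq_prod_roots_of_monic (Matrix.charpoly_monic M)
      rw [h3, ← hl]
      change (Multiset.map _ (l : Multiset L)).prod = _
      rw [Multiset.map_coe, Multiset.prod_coe, ← List.prod_ofFn]
      congr 1
      apply List.ext_get
      · simp [hlen]
      · intro i h4 h5
        simp [x]
    rcases eig_ram p O a ha ξ hξ hp n _ b h1 h2 L x hx with ⟨i, hi1, hi2⟩ | ⟨k, hk1, hkn, htr⟩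
    · have h3 : F t = 0 := by
        apply hinj
        rw [hF1 t (p ^ b) (pow_pos (by omega) b) htb L x hx, hev, map_zero]
        apply Finset.prod_eq_zero (Finset.mem_univ i)
        have h4 := geom_sum_mul (x i) (p ^ a)
        rw [hi2, sub_self] at h4
        exact (mul_eq_zero.1 h4).resolve_right (sub_ne_zero.2 hi1)
      rw [h3, zero_mul]
    · rw [hf0 t k hk1 ((Nat.le_div_iff_mul_le (by omega)).2 hkn) htr, mul_zero]

end Pool.Agent.H371.SC
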