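import Pool.Agent.H371.SC.Defs

/-!
Project SC, task 9: the lattice of a flag.
-/

set_option autoImplicit false

namespace Pool.Agent.H371.SC

namespace SC9x

variable {R L : Type} [CommRing R] [AddCommGroup L] [Module R L]

/-- the lattice `∑_{i < r} q ^ (r - i) F_i` -/
def lat (q : R) (r : ℕ) (F : ℕ → Submodule R L) : Submodule R L :=
  ⨆ i : Fin r, (F i).map (LinearMap.lsmul R L (q ^ (r - i)))

theorem mem_lat {q : R} {r : ℕ} {F : ℕ → Submodule R L} {i : ℕ} (hi : i < r) {x : L}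
    (hx : x ∈ F i) : q ^ (r - i) • x ∈ lat q r F :=
  (le_iSup (fun i : Fin r => (F i).map (LinearMap.lsmul R L (q ^ (r - i)))) ⟨i, hi⟩)
    ⟨x, hx, rfl⟩

/-- invariance -/
theorem lat_inv (q : R) (r : ℕ) (F : ℕ → Submodule R L) (t : Module.End R L)
    (ht : ∀ i, ∀ x ∈ F i, t x ∈ F i) : ∀ x ∈ lat q r F, t x ∈ lat q r F := by
  have h : lat q r F ≤ (lat q r F).comap t := by
    refine iSup_le fun i => ?_
    rintro _ ⟨x, hx, rfl⟩
    change t (q ^ (r - i) • x) ∈ lat q r F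
    rw [map_smul]
    exact mem_lat i.2 (ht i x hx)
  exact h

/-- divisibility -/
theorem lat_div (q : R) (r : ℕ) (F : ℕ → Submodule R L) (hr : F r = ⊥) (t : Module.End R L)
    (ht : ∀ i, ∀ x ∈ F i, ∃ y ∈ F i, ∃ z ∈ F (i + 1), t x = x + (q • y + z)) :
    ∀ x ∈ lat q r F, ∃ w ∈ lat q r F, t x = x + q • w := by
  have h : lat q r F ≤ ((lat q r F).map (LinearMap.lsmul R L q)).comap (t - 1) := by
    refine iSup_le fun i => ?_
    rintro _ ⟨x, hx, rfl⟩
    obtain ⟨y, hy, z, hz, hxyz⟩ := ht i x hx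
    change t (q ^ (r - (i : ℕ)) • x) - q ^ (r - (i : ℕ)) • x ∈
      (lat q r F).map (LinearMap.lsmul R L q)
    have hpow : q ^ (r - (i : ℕ)) = q * q ^ (r - ((i : ℕ) + 1)) := by
      rw [← pow_succ']
      congr 1
      omega
    have h1 : t (q ^ (r - (i : ℕ)) • x) - q ^ (r - (i : ℕ)) • x =
        q • (q ^ (r - (i : ℕ)) • y + q ^ (r - ((i : ℕ) + 1)) • z) := by
      rw [map_smul, hxyz, smul_add, add_sub_cancel_left, smul_add, smul_add, smul_smul, smul_smul,
        smul_smul, ← hpow, mul_comm]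
    rw [h1]
    refine ⟨_, ?_, rfl⟩
    refine Submodule.add_mem _ (mem_lat i.2 hy) ?_
    by_cases hi : (i : ℕ) + 1 < r
    · exact mem_lat hi hz
    · have hi' : (i : ℕ) + 1 = r := by omega
      rw [hi', hr, Submodule.mem_bot] at hz
      rw [hz, smul_zero]
      exact Submodule.zero_mem _
  intro x hx
  obtain ⟨w, hw, hwx⟩ := h hx
  refine ⟨w, hw, ?_⟩
  change q • w = t x - x at hwx
  rw [hwx, add_sub_cancel]

end SC9x

open SC9x in
theorem exists_lattice (p : ℕ) [Fact p.Prime] (L : Type) [AddCommGroup L] [Module ℤ_[p] L]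
    [Module.Free ℤ_[p] L] [Module.Finite ℤ_[p] L] (r : ℕ) (F : ℕ → Submodule ℤ_[p] L)
    (h0 : F 0 = ⊤) (hr : F r = ⊥) (G : Type) [Group G] (τ : G →* (Module.End ℤ_[p] L)ˣ)
    (hτ : ∀ (g : G) (i : ℕ), ∀ x ∈ F i, (τ g : Module.End ℤ_[p] L) x ∈ F i) :
    ∃ (B : Type) (_ : Ring B) (_ : Algebra ℤ_[p] B) (_ : Module.Free ℤ_[p] B)
      (_ : Module.Finite ℤ_[p] B) (ψ : G →* Bˣ),
      (∀ h : G, (∀ i, ∀ x ∈ F i, ∃ y ∈ F i, ∃ z ∈ F (i + 1),
        (τ h : Module.End ℤ_[p] L) x = x + ((p : ℤ_[p]) ^ 2 • y + z)) →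
        ∃ b : B, (ψ h : B) = 1 + (p : B) ^ 2 * b) ∧
      ∀ h : G, ψ h = 1 → τ h = 1 := by
  have hp : (p : ℤ_[p]) ^ 2 ≠ 0 := pow_ne_zero _ (by
    exact_mod_cast (Fact.out : p.Prime).ne_zero)
  let q : ℤ_[p] := (p : ℤ_[p]) ^ 2
  let K : Submodule ℤ_[p] L := lat q r F
  have hK : ∀ g : G, ∀ x ∈ K, (τ g : Module.End ℤ_[p] L) x ∈ K := fun g =>
    lat_inv q r F _ (hτ g)
  let ψ0 : G →* Module.End ℤ_[p] K :=
    { toFun := fun g => (τ g : Module.End ℤ_[p] L).restrict (hK g)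
      map_one' := by
        ext x
        change ((τ 1 : (Module.End ℤ_[p] L)ˣ) : Module.End ℤ_[p] L) x = x
        rw [map_one]
        rfl
      map_mul' := fun g h => by
        ext x
        change ((τ (g * h) : (Module.End ℤ_[p] L)ˣ) : Module.End ℤ_[p] L) x =
          (τ g : Module.End ℤ_[p] L) ((τ h : Module.End ℤ_[p] L) x)
        rw [map_mul]
        rfl }
  have hψ : ∀ (g : G) (x : K), ((MonoidHom.toHomUnits ψ0 g : Module.End ℤ_[p] K) x : L) =
      (τ g : Module.End ℤ_[p] L) x := fun g x => rfl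
  refine ⟨Module.End ℤ_[p] K, inferInstance, inferInstance, inferInstance, inferInstance,
    MonoidHom.toHomUnits ψ0, ?_, ?_⟩
  · intro h hh
    have h1 := lat_div q r F hr (τ h : Module.End ℤ_[p] L) hh
    have hinj : Function.Injective (LinearMap.lsmul ℤ_[p] K q) := by
      intro x y hxy
      exact smul_right_injective K hp hxy
    let E := LinearEquiv.ofInjective (LinearMap.lsmul ℤ_[p] K q) hinj
    have h2 : ∀ x : K, ((MonoidHom.toHomUnits ψ0 h : Module.End ℤ_[p] K) - 1) x ∈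
        LinearMap.range (LinearMap.lsmul ℤ_[p] K q) := by
      intro x
      obtain ⟨w, hw, hwx⟩ := h1 x x.2
      refine ⟨⟨w, hw⟩, ?_⟩
      apply Subtype.ext
      change q • w = (τ h : Module.End ℤ_[p] L) x - x
      rw [hwx, add_sub_cancel_left]
    let b : Module.End ℤ_[p] K :=
      E.symm.toLinearMap.comp
        (LinearMap.codRestrict _ ((MonoidHom.toHomUnits ψ0 h : Module.End ℤ_[p] K) - 1) h2)
    refine ⟨b, ?_⟩
    ext x
    have h3 : E (b x) =
        ⟨((MonoidHom.toHomUnits ψ0 h : Module.End ℤ_[p] K) - 1) x, h2 x⟩ :=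
      E.apply_symm_apply _
    have h4 : q • b x = ((MonoidHom.toHomUnits ψ0 h : Module.End ℤ_[p] K) - 1) x :=
      congrArg Subtype.val h3
    have h5 : (1 + (p : Module.End ℤ_[p] K) ^ 2 * b : Module.End ℤ_[p] K) x = x + q • b x := by
      have h6 : (p : Module.End ℤ_[p] K) ^ 2 = algebraMap ℤ_[p] (Module.End ℤ_[p] K) q := by
        rw [map_pow, map_natCast]
      rw [h6]
      rfl
    rw [h5, h4]
    change _ = ((x + ((MonoidHom.toHomUnits ψ0 h : Module.End ℤ_[p] K) x - x) : K) : L)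
    rw [add_sub_cancel]
  · intro h hh
    apply Units.ext
    ext x
    have hmem : q ^ r • x ∈ K := by
      rcases Nat.eq_zero_or_pos r with h00 | hpos
      · subst h00
        have hx : x ∈ (⊤ : Submodule ℤ_[p] L) := Submodule.mem_top
        rw [← h0, hr, Submodule.mem_bot] at hx
        rw [hx, smul_zero]
        exact Submodule.zero_mem _
      · have := mem_lat (q := q) (F := F) hpos (x := x) (by rw [h0]; exact Submodule.mem_top)
        simpa using this
    have h1 := hψ h ⟨q ^ r • x, hmem⟩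
    rw [hh] at h1
    change q ^ r • x = (τ h : Module.End ℤ_[p] L) (q ^ r • x) at h1
    rw [map_smul] at h1
    exact (smul_right_injective L (pow_ne_zero r hp) h1).symm

end Pool.Agent.H371.SC
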