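import Pool.Agent.H371.SC.V3
import Pool.Agent.H371.SC.W9

/-! General linear groups over augmented rings. -/

set_option autoImplicit false

namespace Pool.Agent.H371.SC

open Pool.Agent.H371.SA Pool.Agent.H371.SB

/-- `R` is residually a ring of matrices over `C` in which the augmentation ideal is nilpotent -/
def Res {C R : Type} [CommRing C] [Ring R] [Algebra C R] (ε : R →ₐ[C] C) : Prop :=
  ∀ r : R, r ≠ 0 → ∃ (k K : ℕ) (π : R →ₐ[C] Matrix (Fin k) (Fin k) C),
    (∀ l : List R, l.length = K → (∀ x ∈ l, ε x = 0) → π l.prod = 0) ∧ π r ≠ 0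

namespace V5x

variable {p : ℕ} [Fact p.Prime] {O : Type} [CommRing O] [Algebra ℤ_[p] O]
  {C R : Type} [CommRing C] [Ring R] [Algebra C R] (ι : C →+* O) {k : ℕ}
  (π : R →ₐ[C] Matrix (Fin k) (Fin k) C) (n : ℕ)

/-- the matrices over `R` as matrices over `O` -/
noncomputable def Th : Matrix (Fin n) (Fin n) R →+* Matrix (Fin n × Fin k) (Fin n × Fin k) O :=
  (RingHom.mapMatrix ι).comp
    ((Matrix.compRingEquiv (Fin n) (Fin k) C).toRingHom.comp
      (RingHom.mapMatrix (π : R →+* Matrix (Fin k) (Fin k) C)))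

theorem Th_apply (M : Matrix (Fin n) (Fin n) R) (a b : Fin n × Fin k) :
    Th ι π n M a b = ι (π (M a.1 b.1) a.2 b.2) := rfl

theorem Th_inj (hι : Function.Injective ι) (M : Matrix (Fin n) (Fin n) R) (h : Th ι π n M = 0)
    (i j : Fin n) : π (M i j) = 0 := by
  ext a b
  have := congrFun (congrFun h (i, a)) (j, b)
  rw [Th_apply] at this
  apply hι
  rw [Matrix.zero_apply, map_zero]
  exact this

/-- the action on `O ^ (n k)` -/
noncomputable def act (p : ℕ) [Fact p.Prime] [Algebra ℤ_[p] O] :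
    Matrix (Fin n) (Fin n) R →* Module.End ℤ_[p] (Fin n × Fin k → O) where
  toFun M := (Matrix.toLin' (Th ι π n M)).restrictScalars ℤ_[p]
  map_one' := by
    rw [map_one, Matrix.toLin'_one]; rfl
  map_mul' M N := by
    rw [map_mul, Matrix.toLin'_mul]; rfl

theorem act_apply (M : Matrix (Fin n) (Fin n) R) (v : Fin n × Fin k → O) :
    act ι π n p M v = (Th ι π n M).mulVec v := rfl

/-- the filtration -/
noncomputable def Fil (p : ℕ) [Fact p.Prime] [Algebra ℤ_[p] O] (ε : R →ₐ[C] C) (i : ℕ) :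
    Submodule ℤ_[p] (Fin n × Fin k → O) :=
  Submodule.span ℤ_[p] {w | ∃ l : List R, l.length = i ∧ (∀ x ∈ l, ε x = 0) ∧
    ∃ v : Fin n × Fin k → O, w = (Th ι π n (Matrix.diagonal fun _ => l.prod)).mulVec v}

theorem decomp (M : Matrix (Fin n) (Fin n) R) (y : R) :
    M * Matrix.diagonal (fun _ => y) =
      ∑ i, ∑ j, Matrix.diagonal (fun _ => M i j * y) * Matrix.single i j 1 := by
  ext a b
  rw [Matrix.mul_diagonal, Matrix.sum_apply]
  simp only [Matrix.sum_apply, Matrix.diagonal_mul]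
  rw [Finset.sum_eq_single a]
  · rw [Finset.sum_eq_single b]
    · simp
    · intro j _ hj
      rw [Matrix.single_apply_of_ne]
      · simp
      · simp [hj]
    · simp
  · intro i _ hi
    refine Finset.sum_eq_zero fun j _ => ?_
    rw [Matrix.single_apply_of_ne]
    · simp
    · simp [hi]
  · simp

theorem step_mem (ε : R →ₐ[C] C) (M : Matrix (Fin n) (Fin n) R) (y : R)
    (v : Fin n × Fin k → O) (i : ℕ)
    (h : ∀ a b, ∃ l : List R, l.length = i ∧ (∀ x ∈ l, ε x = 0) ∧ M a b * y = l.prod) :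
    (Th ι π n M).mulVec ((Th ι π n (Matrix.diagonal fun _ => y)).mulVec v) ∈
      Fil ι π n p ε i := by
  rw [Matrix.mulVec_mulVec, ← map_mul, decomp, map_sum, Matrix.sum_mulVec]
  refine Submodule.sum_mem _ fun a _ => ?_
  rw [map_sum, Matrix.sum_mulVec]
  refine Submodule.sum_mem _ fun b _ => ?_
  obtain ⟨l, hl, hl0, he⟩ := h a b
  rw [map_mul, ← Matrix.mulVec_mulVec, he]
  exact Submodule.subset_span ⟨l, hl, hl0, _, rfl⟩

theorem fil_stable (ε : R →ₐ[C] C) (M : Matrix (Fin n) (Fin n) R) (i : ℕ)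
    (x : Fin n × Fin k → O) (hx : x ∈ Fil ι π n p ε i) :
    (Th ι π n M).mulVec x ∈ Fil ι π n p ε i := by
  refine Submodule.span_induction (p := fun x _ => (Th ι π n M).mulVec x ∈ Fil ι π n p ε i)
    ?_ ?_ ?_ ?_ hx
  · rintro _ ⟨l, hl, hl0, v, rfl⟩
    rcases l with _ | ⟨x, l⟩
    · have h1 : i = 0 := by simpa using hl.symm
      subst h1
      have h2 : (Matrix.diagonal fun _ => (1 : R)) = (1 : Matrix (Fin n) (Fin n) R) :=
        Matrix.diagonal_one
      rw [List.prod_nil, h2, map_one, Matrix.one_mulVec]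
      exact Submodule.subset_span ⟨[], rfl, by simp, (Th ι π n M).mulVec v, by
        rw [List.prod_nil, h2, map_one, Matrix.one_mulVec]⟩
    · apply step_mem
      intro a b
      refine ⟨(M a b * x) :: l, hl, ?_, ?_⟩
      · intro y hy
        rcases List.mem_cons.1 hy with rfl | hy
        · rw [map_mul, hl0 x (by simp), mul_zero]
        · exact hl0 y (List.mem_cons_of_mem _ hy)
      · rw [List.prod_cons, List.prod_cons, mul_assoc]
  · rw [Matrix.mulVec_zero]; exact zero_mem _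
  · intro x y _ _ hx hy
    rw [Matrix.mulVec_add]; exact add_mem hx hy
  · intro c x _ hx
    have : (Th ι π n M).mulVec (c • x) = c • (Th ι π n M).mulVec x := Matrix.mulVec_smul _ _ _
    rw [this]
    exact Submodule.smul_mem _ _ hx

theorem fil_step (ε : R →ₐ[C] C) (M : Matrix (Fin n) (Fin n) R) (hM : ∀ a b, ε (M a b) = 0)
    (i : ℕ) (x : Fin n × Fin k → O) (hx : x ∈ Fil ι π n p ε i) :
    (Th ι π n M).mulVec x ∈ Fil ι π n p ε (i + 1) := by
  refine Submodule.span_induction
    (p := fun x _ => (Th ι π n M).mulVec x ∈ Fil ι π n p ε (i + 1)) ?_ ?_ ?_ ?_ hx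
  · rintro _ ⟨l, hl, hl0, v, rfl⟩
    apply step_mem
    intro a b
    refine ⟨M a b :: l, by rw [List.length_cons, hl], ?_, by rw [List.prod_cons]⟩
    intro y hy
    rcases List.mem_cons.1 hy with rfl | hy
    · exact hM a b
    · exact hl0 y hy
  · rw [Matrix.mulVec_zero]; exact zero_mem _
  · intro x y _ _ hx hy
    rw [Matrix.mulVec_add]; exact add_mem hx hy
  · intro c x _ hx
    have : (Th ι π n M).mulVec (c • x) = c • (Th ι π n M).mulVec x := Matrix.mulVec_smul _ _ _
    rw [this]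
    exact Submodule.smul_mem _ _ hx

/-- the matrix `a ⊗ 1` -/
def blk (k : ℕ) {n : ℕ} (a : Matrix (Fin n) (Fin n) O) :
    Matrix (Fin n × Fin k) (Fin n × Fin k) O :=
  Matrix.of fun x y => if x.2 = y.2 then a x.1 y.1 else 0

theorem blk_comm (a : Matrix (Fin n) (Fin n) O) (y : R) :
    blk k a * Th ι π n (Matrix.diagonal fun _ => y) =
      Th ι π n (Matrix.diagonal fun _ => y) * blk k a := by
  classical
  ext x z
  rw [Matrix.mul_apply, Matrix.mul_apply, Fintype.sum_prod_type, Fintype.sum_prod_type]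
  have h1 : ∀ (i : Fin n) (j : Fin k), blk k a x (i, j) *
      Th ι π n (Matrix.diagonal fun _ => y) (i, j) z =
      if x.2 = j then (if i = z.1 then a x.1 z.1 * ι (π y x.2 z.2) else 0) else 0 := by
    intro i j
    rw [Th_apply]
    simp only [blk, Matrix.of_apply]
    by_cases hj : x.2 = j
    · subst hj
      by_cases hi : i = z.1
      · subst hi; simp
      · rw [Matrix.diagonal_apply_ne _ hi]; simp [hi]
    · simp [hj]
  have h2 : ∀ (i : Fin n) (j : Fin k), Th ι π n (Matrix.diagonal fun _ => y) x (i, j) *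
      blk k a (i, j) z =
      if j = z.2 then (if x.1 = i then a x.1 z.1 * ι (π y x.2 z.2) else 0) else 0 := by
    intro i j
    rw [Th_apply]
    simp only [blk, Matrix.of_apply]
    by_cases hj : j = z.2
    · subst hj
      by_cases hi : x.1 = i
      · subst hi; simp [mul_comm]
      · rw [Matrix.diagonal_apply_ne _ hi]; simp [hi]
    · simp [hj]
  simp only [h1, h2]
  simp

theorem blk_stable (ε : R →ₐ[C] C) (a : Matrix (Fin n) (Fin n) O) (i : ℕ)
    (x : Fin n × Fin k → O) (hx : x ∈ Fil ι π n p ε i) :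
    (blk k a).mulVec x ∈ Fil ι π n p ε i := by
  refine Submodule.span_induction
    (p := fun x _ => (blk k a).mulVec x ∈ Fil ι π n p ε i) ?_ ?_ ?_ ?_ hx
  · rintro _ ⟨l, hl, hl0, v, rfl⟩
    rw [Matrix.mulVec_mulVec, blk_comm, ← Matrix.mulVec_mulVec]
    exact Submodule.subset_span ⟨l, hl, hl0, _, rfl⟩
  · rw [Matrix.mulVec_zero]; exact zero_mem _
  · intro x y _ _ hx hy
    rw [Matrix.mulVec_add]; exact add_mem hx hy
  · intro c x _ hx
    have : (blk k a).mulVec (c • x) = c • (blk k a).mulVec x := Matrix.mulVec_smul _ _ _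
    rw [this]
    exact Submodule.smul_mem _ _ hx

theorem Th_const (M : Matrix (Fin n) (Fin n) C) (a : Matrix (Fin n) (Fin n) O)
    (h : M.map ι = 1 + (p : Matrix (Fin n) (Fin n) O) ^ 2 * a) :
    Th ι π n (M.map (algebraMap C R)) = 1 + ((p : ℤ_[p]) ^ 2) • blk k a := by
  ext x y
  rw [Th_apply, Matrix.map_apply, AlgHom.commutes, Matrix.algebraMap_eq_diagonal,
    Matrix.add_apply, Matrix.smul_apply]
  have h1 := congrFun (congrFun h x.1) y.1
  have h3 : ((p : Matrix (Fin n) (Fin n) O) ^ 2 * a) x.1 y.1 = (p : O) ^ 2 * a x.1 y.1 := by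
    rw [← Nat.cast_pow, ← nsmul_eq_mul, Matrix.smul_apply, nsmul_eq_mul, Nat.cast_pow]
  rw [Matrix.map_apply, Matrix.add_apply, h3] at h1
  by_cases h2 : x.2 = y.2
  · rw [h2, Matrix.diagonal_apply_eq]
    simp only [blk, Matrix.of_apply, h2, if_true]
    rw [Algebra.smul_def, map_pow, map_natCast]
    change ι (M x.1 y.1) = _
    rw [h1]
    congr 1
    rw [Matrix.one_apply, Matrix.one_apply]
    by_cases h4 : x.1 = y.1
    · rw [if_pos h4, if_pos (Prod.ext h4 h2)]
    · rw [if_neg h4, if_neg (fun h => h4 (congrArg Prod.fst h))]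
  · rw [Matrix.diagonal_apply_ne _ h2, map_zero, Matrix.one_apply_ne (fun h => h2 (congrArg Prod.snd h))]
    simp [blk, h2]

end V5x

open V5x in
theorem GRO.gl (p : ℕ) [Fact p.Prime] (O : Type) [CommRing O] [IsDomain O] [Algebra ℤ_[p] O]
    [Module.Free ℤ_[p] O] [Module.Finite ℤ_[p] O] (n c : ℕ)
    (hf : ∃ f : (⊤ : Subgroup (Matrix (Fin n) (Fin n) O)ˣ) → O,
      f ∈ ACO p O (⊤ : Subgroup (Matrix (Fin n) (Fin n) O)ˣ) ∧ f 1 = (c : O) ∧
      ∀ t : (⊤ : Subgroup (Matrix (Fin n) (Fin n) O)ˣ), t ≠ 1 → ∀ b : ℕ, t ^ (p ^ b) = 1 →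
        f t = 0)
    (C R : Type) [CommRing C] [Ring R] [Algebra C R] (ε : R →ₐ[C] C) (hR : Res ε)
    (ι : C →+* O) (hι : Function.Injective ι) : GRO p O c (Matrix (Fin n) (Fin n) R)ˣ := by
  obtain ⟨f, hf, hf1, hf0⟩ := hf
  have hp1 : 1 < p := (Fact.out : p.Prime).one_lt
  let Φ : Matrix (Fin n) (Fin n) R →+* Matrix (Fin n) (Fin n) O :=
    RingHom.mapMatrix (ι.comp (ε : R →+* C))
  refine ⟨Matrix (Fin n) (Fin n) O, inferInstance, inferInstance, inferInstance, inferInstance,
    ⊤, 2, (Units.map (Φ : Matrix (Fin n) (Fin n) R →* Matrix (Fin n) (Fin n) O)).codRestrict ⊤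
      (fun _ => trivial), f, by nlinarith, fun _ _ => trivial, hf, hf1, hf0, ?_⟩
  intro g hg
  have h1 : ∃ i j, (g : Matrix (Fin n) (Fin n) R) i j ≠ (1 : Matrix (Fin n) (Fin n) R) i j := by
    by_contra hcon
    push Not at hcon
    apply hg
    apply Units.ext
    ext i j
    exact hcon i j
  obtain ⟨i₀, j₀, hij⟩ := h1
  obtain ⟨k, K, π, hK, hr⟩ := hR _ (sub_ne_zero.2 hij)
  let τ : (Matrix (Fin n) (Fin n) R)ˣ →* (Module.End ℤ_[p] (Fin n × Fin k → O))ˣ :=
    Units.map (act ι π n p)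
  have hτ : ∀ (h : (Matrix (Fin n) (Fin n) R)ˣ) (v : Fin n × Fin k → O),
      (τ h : Module.End ℤ_[p] (Fin n × Fin k → O)) v = (Th ι π n h).mulVec v := fun _ _ => rfl
  obtain ⟨B, j1, j2, j3, j4, ψ, h2, h3⟩ := exists_lattice p (Fin n × Fin k → O) K
    (Fil ι π n p ε) (by
      rw [eq_top_iff]
      intro v _
      refine Submodule.subset_span ⟨[], rfl, by simp, v, ?_⟩
      rw [List.prod_nil]
      have : (Matrix.diagonal fun _ => (1 : R)) = (1 : Matrix (Fin n) (Fin n) R) := Matrix.diagonal_one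
      rw [this, map_one, Matrix.one_mulVec]) (by
      rw [eq_bot_iff, Fil, Submodule.span_le]
      rintro _ ⟨l, hl, hl0, v, rfl⟩
      have h4 : Th ι π n (Matrix.diagonal fun _ => l.prod) = 0 := by
        ext a b
        rw [Th_apply]
        by_cases hab : a.1 = b.1
        · rw [hab, Matrix.diagonal_apply_eq, hK l hl hl0]
          simp
        · rw [Matrix.diagonal_apply_ne _ hab, map_zero]
          simp
      rw [h4, Matrix.zero_mulVec]
      exact Submodule.zero_mem _) _ τ (by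
      intro h i x hx
      rw [hτ]
      exact fil_stable ι π n ε _ i x hx)
  refine ⟨2, B, j1, j2, j3, j4, ψ, ?_, ?_⟩
  · rintro h ⟨a, ha⟩
    apply h2
    intro i x hx
    have h4 : (((h : Matrix (Fin n) (Fin n) R).map ε)).map ι =
        1 + (p : Matrix (Fin n) (Fin n) O) ^ 2 * a := ha
    refine ⟨(blk k a).mulVec x, blk_stable ι π n ε a i x hx,
      (Th ι π n ((h : Matrix (Fin n) (Fin n) R) -
        ((h : Matrix (Fin n) (Fin n) R).map ε).map (algebraMap C R))).mulVec x, ?_, ?_⟩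
    · apply fil_step
      · intro a b
        rw [Matrix.sub_apply, Matrix.map_apply, Matrix.map_apply, map_sub, AlgHom.commutes]
        exact sub_self _
      · exact hx
    · rw [hτ, map_sub, Th_const ι π n _ a h4, Matrix.sub_mulVec, Matrix.add_mulVec,
        Matrix.one_mulVec]
      have h5 : (((p : ℤ_[p]) ^ 2) • blk k a).mulVec x = ((p : ℤ_[p]) ^ 2) • (blk k a).mulVec x :=
        Matrix.smul_mulVec _ _ _
      rw [h5]
      abel
  · intro h4
    apply hr
    have h5 := h3 g h4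
    have h6 : Th ι π n (g : Matrix (Fin n) (Fin n) R) = 1 := by
      apply Matrix.toLin'.injective
      rw [Matrix.toLin'_one]
      refine LinearMap.ext fun v => ?_
      have h7 := congrArg (fun u : (Module.End ℤ_[p] (Fin n × Fin k → O))ˣ =>
        (u : Module.End ℤ_[p] (Fin n × Fin k → O)) v) h5
      exact h7
    have h7 : Th ι π n ((g : Matrix (Fin n) (Fin n) R) - 1) = 0 := by
      rw [map_sub, map_one, h6, sub_self]
    exact Th_inj ι π n hι _ h7 i₀ j₀

end Pool.Agent.H371.SC
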