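import Pool.Agent.H371.SC.Defs
import Mathlib

set_option autoImplicit false

namespace Pool.Agent.H371.SC.SC5x

open WittVector Submodule

/-- finite powers of `ℤ_p` are precomplete -/
theorem precomplete_pi (p : ℕ) [Fact p.Prime] (d : ℕ) :
    IsPrecomplete (Ideal.span {(p : ℤ_[p])}) (Fin d → ℤ_[p]) := by
  constructor
  intro f hf
  have hI : Ideal.span {(p : ℤ_[p])} = IsLocalRing.maximalIdeal ℤ_[p] :=
    PadicInt.maximalIdeal_eq_span_p.symm
  have : IsAdicComplete (Ideal.span {(p : ℤ_[p])}) ℤ_[p] := by
    rw [hI]; infer_instance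
  have key : ∀ (n : ℕ) (x y : Fin d → ℤ_[p]),
      x ≡ y [SMOD (Ideal.span {(p : ℤ_[p])} ^ n • ⊤ : Submodule ℤ_[p] (Fin d → ℤ_[p]))] ↔
      ∀ i, x i ≡ y i [SMOD (Ideal.span {(p : ℤ_[p])} ^ n • ⊤ : Submodule ℤ_[p] ℤ_[p])] := by
    intro n x y
    simp only [SModEq.sub_mem, Ideal.span_singleton_pow, Submodule.ideal_span_singleton_smul,
      Submodule.mem_smul_pointwise_iff_exists, Submodule.mem_top, true_and]
    constructor
    · rintro ⟨z, hz⟩ i
      exact ⟨z i, by rw [← Pi.sub_apply x y i, ← hz]; rfl⟩
    · intro h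
      choose z hz using h
      exact ⟨z, by funext i; rw [Pi.sub_apply, ← hz i]; rfl⟩
  have h1 : ∀ i, ∃ L : ℤ_[p], ∀ n, f n i ≡ L
      [SMOD (Ideal.span {(p : ℤ_[p])} ^ n • ⊤ : Submodule ℤ_[p] ℤ_[p])] := by
    intro i
    exact IsPrecomplete.prec' (fun n => f n i) (fun {m n} hmn => (key m _ _).1 (hf hmn) i)
  choose L hL using h1
  exact ⟨L, fun n => (key n _ _).2 fun i => hL i n⟩

theorem exists_unr_aux (p : ℕ) [Fact p.Prime] (m : ℕ) (hm : ¬ p ∣ m) :
    ∃ (O : Type) (_ : CommRing O) (_ : IsDomain O) (_ : Algebra ℤ_[p] O)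
      (_ : Module.Free ℤ_[p] O) (_ : Module.Finite ℤ_[p] O) (ζ : O),
      IsPrimitiveRoot ζ m ∧ Prime (p : O) := by
  have hne : NeZero ((m : ℕ) : ZMod p) := ⟨fun h => hm ((ZMod.natCast_eq_zero_iff m p).1 h)⟩
  have hne' : NeZero m := ⟨fun h => hm (h ▸ dvd_zero p)⟩
  let K := CyclotomicField m (ZMod p)
  have : FiniteDimensional (ZMod p) K := IsCyclotomicExtension.finiteDimensional {m} (ZMod p) K
  have : Finite K := Module.finite_of_finite (ZMod p)
  have : CharP K p := charP_of_injective_algebraMap (algebraMap (ZMod p) K).injective p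
  have : ExpChar K p := ExpChar.prime Fact.out
  have : PerfectRing K p := inferInstance
  let g : ℤ_[p] →+* WittVector p K := (WittVector.map (algebraMap (ZMod p) K)).comp
    (WittVector.fromPadicInt p)
  let ia : Algebra ℤ_[p] (WittVector p K) := g.toAlgebra
  have hpirr : Irreducible (p : WittVector p K) := WittVector.irreducible p
  have hpp : Prime (p : WittVector p K) := hpirr.prime
  have hg : ∀ x : ℤ_[p], algebraMap ℤ_[p] (WittVector p K) x = g x := fun x => rfl
  -- the map to the residue field
  have hginj : Function.Injective g := by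
    intro x y hxy
    have h1 : WittVector.fromPadicInt p x = WittVector.fromPadicInt p y :=
      WittVector.map_injective _ (algebraMap (ZMod p) K).injective hxy
    have h2 := congrArg (WittVector.toPadicInt p) h1
    have h3 := WittVector.toPadicInt_comp_fromPadicInt_ext (p := p) x
    have h4 := WittVector.toPadicInt_comp_fromPadicInt_ext (p := p) y
    rw [RingHom.comp_apply, RingHom.id_apply] at h3 h4
    rw [← h3, ← h4, h2]
  have htf : Module.IsTorsionFree ℤ_[p] (WittVector p K) := by
    have : FaithfulSMul ℤ_[p] (WittVector p K) :=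
      (faithfulSMul_iff_algebraMap_injective _ _).2 hginj
    infer_instance
  have hfin : Module.Finite ℤ_[p] (WittVector p K) := by
    -- a basis of the residue field
    let b := Module.finBasis (ZMod p) K
    let β : Fin (Module.finrank (ZMod p) K) → WittVector p K := fun i =>
      WittVector.teichmuller p (b i)
    let f : (Fin (Module.finrank (ZMod p) K) → ℤ_[p]) →ₗ[ℤ_[p]] WittVector p K :=
      Fintype.linearCombination ℤ_[p] β
    have hH : IsHausdorff (Ideal.span {(p : ℤ_[p])}) (WittVector p K) := by
      have h1 : (Ideal.span {(p : ℤ_[p])}).map (algebraMap ℤ_[p] (WittVector p K)) =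
          Ideal.span {(p : WittVector p K)} := by
        rw [Ideal.map_span, Set.image_singleton, map_natCast]
      have h2 : IsHausdorff ((Ideal.span {(p : ℤ_[p])}).map
          (algebraMap ℤ_[p] (WittVector p K))) (WittVector p K) := by
        rw [h1]; infer_instance
      exact IsHausdorff.map_algebraMap_iff.1 h2
    have hP := precomplete_pi p (Module.finrank (ZMod p) K)
    have hsur : Function.Surjective f := by
      refine surjective_of_mkQ_comp_surjective (I := Ideal.span {(p : ℤ_[p])}) ?_
      intro y
      obtain ⟨w, rfl⟩ := Submodule.mkQ_surjective _ y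
      let c := b.repr (w.coeff 0)
      let e : Fin (Module.finrank (ZMod p) K) → ℤ_[p] := fun i => ((c i).val : ℤ_[p])
      refine ⟨e, ?_⟩
      have hfe : f e = ∑ i, (((c i).val : ℕ) : WittVector p K) * β i := by
        simp only [f, Fintype.linearCombination_apply, e]
        refine Finset.sum_congr rfl fun i _ => ?_
        rw [Algebra.smul_def, map_natCast]
      have hc : (f e - w).coeff 0 = 0 := by
        have h1 : (f e - w).coeff 0 = WittVector.constantCoeff (f e - w) := rfl
        rw [h1, map_sub, hfe, map_sum]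
        have h2 : ∀ i, WittVector.constantCoeff ((((c i).val : ℕ) : WittVector p K) * β i) =
            c i • b i := by
          intro i
          rw [map_mul, map_natCast, Algebra.smul_def]
          congr 1
          · conv_rhs => rw [← ZMod.natCast_zmod_val (c i)]
            rw [map_natCast]
        rw [Finset.sum_congr rfl fun i _ => h2 i, b.sum_repr]
        exact sub_self _
      rw [← WittVector.mem_span_p_iff_coeff_zero_eq_zero, Ideal.mem_span_singleton] at hc
      obtain ⟨z, hz⟩ := hc
      rw [LinearMap.comp_apply, Submodule.mkQ_apply, Submodule.mkQ_apply, Submodule.Quotient.eq,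
        Submodule.ideal_span_singleton_smul, Submodule.mem_smul_pointwise_iff_exists]
      exact ⟨z, Submodule.mem_top, by rw [hz, Algebra.smul_def, map_natCast]⟩
    exact Module.Finite.of_surjective f hsur
  have hfree : Module.Free ℤ_[p] (WittVector p K) := inferInstance
  have hζ := IsCyclotomicExtension.zeta_spec m (ZMod p) K
  refine ⟨WittVector p K, inferInstance, inferInstance, ia, hfree, hfin,
    WittVector.teichmuller p (IsCyclotomicExtension.zeta m (ZMod p) K), ?_, hpp⟩
  refine hζ.map_of_injective (f := WittVector.teichmuller p) ?_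
  intro x y hxy
  have := congrArg (fun w : WittVector p K => w.coeff 0) hxy
  simpa [WittVector.teichmuller_coeff_zero] using this

end Pool.Agent.H371.SC.SC5x

namespace Pool.Agent.H371.SC

theorem exists_unr (p : ℕ) [Fact p.Prime] (m : ℕ) (hm : ¬ p ∣ m) :
    ∃ (O : Type) (_ : CommRing O) (_ : IsDomain O) (_ : Algebra ℤ_[p] O)
      (_ : Module.Free ℤ_[p] O) (_ : Module.Finite ℤ_[p] O) (ζ : O),
      IsPrimitiveRoot ζ m ∧ Prime (p : O) := SC5x.exists_unr_aux p m hm

end Pool.Agent.H371.SC
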