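import Pool.Agent.H371.SC.Defs

set_option autoImplicit false

namespace Pool.Agent.H371.SC

namespace SC6x

open Polynomial

theorem isMaximal_p (p : ℕ) [hp : Fact p.Prime] (O₀ : Type) [CommRing O₀] [IsDomain O₀]
    [Algebra ℤ_[p] O₀] [Module.Finite ℤ_[p] O₀] (hpp : Prime (p : O₀)) :
    (Ideal.span {(p : O₀)}).IsMaximal := by
  have hint : Algebra.IsIntegral ℤ_[p] O₀ := Algebra.IsIntegral.of_finite _ _
  have hprime : (Ideal.span {(p : O₀)}).IsPrime :=
    (Ideal.span_singleton_prime hpp.ne_zero).2 hpp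
  refine Ideal.isMaximal_of_isIntegral_of_isMaximal_comap (R := ℤ_[p]) _ ?_
  have hle : IsLocalRing.maximalIdeal ℤ_[p] ≤
      (Ideal.span {(p : O₀)}).comap (algebraMap ℤ_[p] O₀) := by
    rw [PadicInt.maximalIdeal_eq_span_p, Ideal.span_le]
    intro x hx
    rw [Set.mem_singleton_iff] at hx
    subst hx
    show algebraMap ℤ_[p] O₀ (p : ℤ_[p]) ∈ Ideal.span {(p : O₀)}
    rw [map_natCast]
    exact Ideal.mem_span_singleton_self _
  have hne : (Ideal.span {(p : O₀)}).comap (algebraMap ℤ_[p] O₀) ≠ ⊤ := by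
    have : ((Ideal.span {(p : O₀)}).comap (algebraMap ℤ_[p] O₀)).IsPrime := Ideal.comap_isPrime _ _
    exact this.ne_top
  have h := (IsLocalRing.maximalIdeal.isMaximal ℤ_[p]).eq_of_le hne hle
  rw [← h]
  exact IsLocalRing.maximalIdeal.isMaximal ℤ_[p]

theorem isMaximal_eq (p : ℕ) [hp : Fact p.Prime] (O₀ : Type) [CommRing O₀] [IsDomain O₀]
    [Algebra ℤ_[p] O₀] [Module.Finite ℤ_[p] O₀] (hpp : Prime (p : O₀)) (M : Ideal O₀)
    (hM : M.IsMaximal) : M = Ideal.span {(p : O₀)} := by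
  have hint : Algebra.IsIntegral ℤ_[p] O₀ := Algebra.IsIntegral.of_finite _ _
  have h1 : (M.comap (algebraMap ℤ_[p] O₀)).IsMaximal :=
    Ideal.isMaximal_comap_of_isIntegral_of_isMaximal M
  have h2 := IsLocalRing.eq_maximalIdeal h1
  have h3 : (p : ℤ_[p]) ∈ M.comap (algebraMap ℤ_[p] O₀) := by
    rw [h2, PadicInt.maximalIdeal_eq_span_p]
    exact Ideal.mem_span_singleton_self _
  have h4 : (p : O₀) ∈ M := by
    have h5 : algebraMap ℤ_[p] O₀ (p : ℤ_[p]) ∈ M := h3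
    rwa [map_natCast] at h5
  exact ((isMaximal_p p O₀ hpp).eq_of_le hM.ne_top
    ((Ideal.span_singleton_le_iff_mem _).2 h4)).symm

theorem isPID (p : ℕ) [hp : Fact p.Prime] (O₀ : Type) [CommRing O₀] [IsDomain O₀]
    [Algebra ℤ_[p] O₀] [Module.Finite ℤ_[p] O₀] (hpp : Prime (p : O₀)) :
    IsPrincipalIdealRing O₀ := by
  have hloc : IsLocalRing O₀ :=
    IsLocalRing.of_unique_max_ideal ⟨Ideal.span {(p : O₀)}, isMaximal_p p O₀ hpp,
      fun M hM => isMaximal_eq p O₀ hpp M hM⟩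
  have hnoeth : IsNoetherianRing O₀ := IsNoetherianRing.of_finite ℤ_[p] O₀
  have hm : IsLocalRing.maximalIdeal O₀ = Ideal.span {(p : O₀)} :=
    isMaximal_eq p O₀ hpp _ (IsLocalRing.maximalIdeal.isMaximal O₀)
  have h := (tfae_of_isNoetherianRing_of_isLocalRing_of_isDomain (R := O₀)).out 4 0
  refine h.1 ?_
  rw [hm]
  exact ⟨⟨(p : O₀), rfl⟩⟩

theorem eis (p : ℕ) [hp : Fact p.Prime] (O₀ : Type) [CommRing O₀] [IsDomain O₀]
    (hpp : Prime (p : O₀)) (n : ℕ) :
    ((cyclotomic (p ^ (n + 1)) O₀).comp (X + 1)).IsEisensteinAt (Ideal.span {(p : O₀)}) := by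
  have h := cyclotomic_prime_pow_comp_X_add_one_isEisensteinAt p n
  have e : (cyclotomic (p ^ (n + 1)) O₀).comp (X + 1) =
      ((cyclotomic (p ^ (n + 1)) ℤ).comp (X + 1)).map (Int.castRingHom O₀) := by
    rw [Polynomial.map_comp, map_cyclotomic]; simp
  have hm : ((cyclotomic (p ^ (n + 1)) ℤ).comp (X + 1)).Monic := by
    rw [show (X + 1 : ℤ[X]) = X + C 1 by simp]
    refine (cyclotomic.monic _ ℤ).comp (monic_X_add_C 1) fun h => ?_
    rw [natDegree_X_add_C] at h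
    exact zero_ne_one h.symm
  have hm' : ((cyclotomic (p ^ (n + 1)) O₀).comp (X + 1)).Monic := by
    rw [e]; exact hm.map _
  have hne : (Ideal.span {(p : O₀)}) ≠ ⊤ := by
    rw [Ne, Ideal.span_singleton_eq_top]; exact hpp.not_isUnit
  refine ⟨?_, ?_, ?_⟩
  · rw [hm'.leadingCoeff]
    intro h1
    exact hne ((Ideal.eq_top_iff_one _).2 h1)
  · intro k hk
    rw [e, hm.natDegree_map] at hk
    have := h.mem hk
    rw [e, coeff_map, Ideal.mem_span_singleton]
    obtain ⟨c, hc⟩ := Ideal.mem_span_singleton.1 (show _ ∈ Ideal.span {(p : ℤ)} from this)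
    rw [hc]
    exact ⟨(c : O₀), by simp⟩
  · rw [coeff_zero_eq_eval_zero, eval_comp]
    simp only [eval_add, eval_X, eval_one, zero_add]
    rw [eval_one_cyclotomic_prime_pow]
    rw [Ideal.span_singleton_pow, Ideal.mem_span_singleton]
    intro h2
    have h3 : (p : O₀) * 1 = p := mul_one _
    obtain ⟨c, hc⟩ := h2
    have h4 : (p : O₀) * 1 = p * (p * c) := by rw [h3]; linear_combination hc
    have h5 := mul_left_cancel₀ hpp.ne_zero h4
    exact hpp.not_isUnit (IsUnit.of_mul_eq_one c h5.symm)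

theorem irr (p : ℕ) [hp : Fact p.Prime] (O₀ : Type) [CommRing O₀] [IsDomain O₀]
    (hpp : Prime (p : O₀)) (n : ℕ) : Irreducible (cyclotomic (p ^ (n + 1)) O₀) := by
  have hprime : (Ideal.span {(p : O₀)}).IsPrime :=
    (Ideal.span_singleton_prime hpp.ne_zero).2 hpp
  have hm : ((cyclotomic (p ^ (n + 1)) O₀).comp (X + 1)).Monic := by
    rw [show (X + 1 : O₀[X]) = X + C 1 by simp]
    refine (cyclotomic.monic _ _).comp (monic_X_add_C 1) fun h => ?_
    rw [natDegree_X_add_C] at h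
    exact zero_ne_one h.symm
  have hd : 0 < ((cyclotomic (p ^ (n + 1)) O₀).comp (X + 1)).natDegree := by
    rw [natDegree_comp, natDegree_cyclotomic, show (X + 1 : O₀[X]) = X + C 1 by simp,
      natDegree_X_add_C, mul_one]
    exact Nat.totient_pos.2 (pow_pos hp.out.pos _)
  have h1 := (eis p O₀ hpp n).irreducible hprime hm.isPrimitive hd
  have e2 : (cyclotomic (p ^ (n + 1)) O₀).comp (X + 1) =
      algEquivAevalXAddC (1 : O₀) (cyclotomic (p ^ (n + 1)) O₀) := by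
    simp [comp, aeval_def, algebraMap_eq]
  rw [e2] at h1
  exact (MulEquiv.irreducible_iff (algEquivAevalXAddC (1 : O₀))).1 h1

/-- a product of primitive roots of unity of coprime orders -/
theorem prim_mul {M : Type} [CommMonoid M] {x y : M} {m n : ℕ} (hx : IsPrimitiveRoot x m)
    (hy : IsPrimitiveRoot y n) (hc : m.Coprime n) : IsPrimitiveRoot (x * y) (m * n) := by
  have h := (Commute.all x y).orderOf_mul_eq_mul_orderOf_of_coprime (by
    rw [← hx.eq_orderOf, ← hy.eq_orderOf]; exact hc)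
  rw [← hx.eq_orderOf, ← hy.eq_orderOf] at h
  rw [← h]
  exact IsPrimitiveRoot.orderOf _

/-- `ξ - 1` is prime -/
theorem prime_root (p : ℕ) [hp : Fact p.Prime] (O₀ : Type) [CommRing O₀] [IsDomain O₀]
    (hpp : Prime (p : O₀)) (n : ℕ)
    [IsDomain (AdjoinRoot (cyclotomic (p ^ (n + 1)) O₀))]
    (hne : AdjoinRoot.root (cyclotomic (p ^ (n + 1)) O₀) - 1 ≠ 0) :
    Prime (AdjoinRoot.root (cyclotomic (p ^ (n + 1)) O₀) - 1) := by
  set Φ := cyclotomic (p ^ (n + 1)) O₀ with hΦ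
  have hprime : (Ideal.span {(p : O₀)}).IsPrime :=
    (Ideal.span_singleton_prime hpp.ne_zero).2 hpp
  set q := Ideal.Quotient.mk (Ideal.span {(p : O₀)}) with hq
  have h0 : Φ.eval₂ q 1 = 0 := by
    have e1 : Φ.eval₂ q 1 = q (Φ.eval 1) := by
      rw [← Polynomial.eval₂_at_one]
    rw [e1, hΦ, eval_one_cyclotomic_prime_pow, hq, Ideal.Quotient.eq_zero_iff_mem]
    exact Ideal.mem_span_singleton_self _
  set θ : AdjoinRoot Φ →+* O₀ ⧸ Ideal.span {(p : O₀)} := AdjoinRoot.lift q 1 h0 with hθ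
  have hdom : IsDomain (O₀ ⧸ Ideal.span {(p : O₀)}) := Ideal.Quotient.isDomain _
  have hker : RingHom.ker θ = Ideal.span {AdjoinRoot.root Φ - 1} := by
    apply le_antisymm
    · intro y hy
      obtain ⟨g, rfl⟩ := AdjoinRoot.mk_surjective y
      rw [RingHom.mem_ker, hθ, AdjoinRoot.lift_mk] at hy
      have e1 : g.eval₂ q 1 = q (g.eval 1) := by rw [← Polynomial.eval₂_at_one]
      rw [e1, hq, Ideal.Quotient.eq_zero_iff_mem, Ideal.mem_span_singleton] at hy
      obtain ⟨c, hc⟩ := hy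
      have hd : ∀ f : O₀[X], ∃ h : O₀[X], f = C (f.eval 1) + (X - 1) * h := by
        intro f
        have h1 : (X - C 1 : O₀[X]) ∣ f - C (f.eval 1) := X_sub_C_dvd_sub_C_eval
        obtain ⟨h, hh⟩ := h1
        refine ⟨h, ?_⟩
        rw [C_1] at hh
        rw [← hh]; ring
      obtain ⟨h, hh⟩ := hd g
      obtain ⟨k, hk⟩ := hd Φ
      have h2 : AdjoinRoot.mk Φ Φ = 0 := AdjoinRoot.mk_self
      have e3 : Φ.eval 1 = (p : O₀) := by rw [hΦ, eval_one_cyclotomic_prime_pow]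
      have hX : AdjoinRoot.mk Φ (X - 1) = AdjoinRoot.root Φ - 1 := by
        rw [map_sub, map_one, AdjoinRoot.mk_X]
      have h4 : AdjoinRoot.mk Φ (C (p : O₀)) = -((AdjoinRoot.root Φ - 1) * AdjoinRoot.mk Φ k) := by
        have h5 := congrArg (AdjoinRoot.mk Φ) hk
        rw [h2, e3, map_add, map_mul, hX] at h5
        linear_combination -h5
      rw [Ideal.mem_span_singleton]
      refine ⟨-(AdjoinRoot.mk Φ k * AdjoinRoot.mk Φ (C c)) + AdjoinRoot.mk Φ h, ?_⟩
      have h6 := congrArg (AdjoinRoot.mk Φ) hh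
      rw [map_add, map_mul, hX, hc, C_mul, map_mul, h4] at h6
      rw [h6]; ring
    · rw [Ideal.span_singleton_le_iff_mem, RingHom.mem_ker, map_sub, map_one, hθ,
        AdjoinRoot.lift_root, sub_self]
  have h7 : (Ideal.span {AdjoinRoot.root Φ - 1}).IsPrime := by
    rw [← hker]; exact RingHom.ker_isPrime θ
  exact (Ideal.span_singleton_prime hne).1 h7

end SC6x

open Polynomial SC6x in
theorem exists_ram (p : ℕ) [Fact p.Prime] (O₀ : Type) [CommRing O₀] [IsDomain O₀]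
    [Algebra ℤ_[p] O₀] [Module.Free ℤ_[p] O₀] [Module.Finite ℤ_[p] O₀] (hp : Prime (p : O₀))
    (m : ℕ) (hm : ¬ p ∣ m) (ζ₀ : O₀) (hζ₀ : IsPrimitiveRoot ζ₀ m) (a : ℕ) (ha : 1 ≤ a) :
    ∃ (O : Type) (_ : CommRing O) (_ : IsDomain O) (_ : Algebra ℤ_[p] O)
      (_ : Module.Free ℤ_[p] O) (_ : Module.Finite ℤ_[p] O) (ζ : O),
      IsPrimitiveRoot ζ (m * p ^ a) ∧ Prime (1 - ζ ^ m) := by
  have hpr : p.Prime := Fact.out
  obtain ⟨n, rfl⟩ : ∃ n, a = n + 1 := ⟨a - 1, by omega⟩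
  have hPID := isPID p O₀ hp
  set Φ := cyclotomic (p ^ (n + 1)) O₀ with hΦ
  have hirr : Irreducible Φ := irr p O₀ hp n
  have hprime : Prime Φ := hirr.prime
  have hmonic : Φ.Monic := cyclotomic.monic _ _
  have hdom : IsDomain (AdjoinRoot Φ) := AdjoinRoot.isDomain_of_prime hprime
  have hfree : Module.Free O₀ (AdjoinRoot Φ) := hmonic.free_adjoinRoot
  have hfin : Module.Finite O₀ (AdjoinRoot Φ) := hmonic.finite_adjoinRoot
  have hfree' : Module.Free ℤ_[p] (AdjoinRoot Φ) := Module.Free.trans (S := O₀)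
  have hfin' : Module.Finite ℤ_[p] (AdjoinRoot Φ) := Module.Finite.trans O₀ _
  have hdeg : Φ.degree ≠ 0 := by
    rw [hΦ, degree_cyclotomic]
    have h1 : 0 < Nat.totient (p ^ (n + 1)) := Nat.totient_pos.2 (pow_pos hpr.pos _)
    exact_mod_cast h1.ne'
  have hinj : Function.Injective (AdjoinRoot.of Φ) :=
    AdjoinRoot.of.injective_of_degree_ne_zero hdeg
  have hp0 : ((p ^ (n + 1) : ℕ) : AdjoinRoot Φ) ≠ 0 := by
    have h1 : (AdjoinRoot.of Φ) ((p : O₀) ^ (n + 1)) ≠ 0 := by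
      rw [Ne, map_eq_zero_iff _ hinj]
      exact pow_ne_zero _ hp.ne_zero
    rw [map_pow, map_natCast] at h1
    rw [Nat.cast_pow]
    exact h1
  have hNZ : NeZero ((p ^ (n + 1) : ℕ) : AdjoinRoot Φ) := ⟨hp0⟩
  have hξ : IsPrimitiveRoot (AdjoinRoot.root Φ) (p ^ (n + 1)) := by
    rw [← isRoot_cyclotomic_iff]
    have h1 := AdjoinRoot.isRoot_root Φ
    rwa [hΦ, map_cyclotomic] at h1
  have hcop : m.Coprime (p ^ (n + 1)) :=
    (Nat.Coprime.pow_left _ ((Nat.Prime.coprime_iff_not_dvd hpr).2 hm)).symm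
  have hζ : IsPrimitiveRoot (AdjoinRoot.of Φ ζ₀) m := hζ₀.map_of_injective hinj
  refine ⟨AdjoinRoot Φ, inferInstance, hdom, inferInstance, hfree', hfin',
    AdjoinRoot.of Φ ζ₀ * AdjoinRoot.root Φ, prim_mul hζ hξ hcop, ?_⟩
  have h1 : (AdjoinRoot.of Φ ζ₀ * AdjoinRoot.root Φ) ^ m = AdjoinRoot.root Φ ^ m := by
    rw [mul_pow, hζ.pow_eq_one, one_mul]
  rw [h1]
  have hne : AdjoinRoot.root Φ - 1 ≠ 0 := by
    intro h
    have h2 : AdjoinRoot.root Φ = 1 := sub_eq_zero.1 h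
    have h3 := hξ.dvd_of_pow_eq_one 1 (by rw [pow_one, h2])
    have h4 := Nat.dvd_one.1 h3
    have h5 : 1 < p ^ (n + 1) := Nat.one_lt_pow (by omega) hpr.one_lt
    omega
  have h2 := prime_root p O₀ hp n hne
  have h3 := hξ.associated_sub_one_pow_sub_one_of_coprime hcop
  have h4 := h3.prime h2
  have h5 : 1 - AdjoinRoot.root Φ ^ m = -(AdjoinRoot.root Φ ^ m - 1) := by ring
  rw [h5]
  exact h4.neg

end Pool.Agent.H371.SC
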