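import Pool.Agent.H371.SC.Defs
import Pool.Agent.H371.SA.TP

/-! TASK SC-7 : monomial groups -/

set_option autoImplicit false

namespace Pool.Agent.H371.SC

open Pool.Agent.H371.SA

namespace SC7x

variable {R : Type} [CommRing R] (C : Subgroup Rˣ) (n : ℕ)

/-- the monomial matrices -/
noncomputable def mon : SemidirectProduct (Fin n → C) (Equiv.Perm (Fin n)) (Px.act n) →*
    Matrix (Fin n) (Fin n) R where
  toFun x := Matrix.of fun i j => if x.right⁻¹ i = j then (((x.left i : C) : Rˣ) : R) else 0
  map_one' := by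
    ext i j
    rw [Matrix.of_apply, Matrix.one_apply]
    simp
  map_mul' x y := by
    ext i k
    rw [Matrix.mul_apply, Finset.sum_eq_single (x.right⁻¹ i)]
    · rw [Matrix.of_apply, Matrix.of_apply, Matrix.of_apply, if_pos rfl]
      have h1 : (x * y).right⁻¹ i = y.right⁻¹ (x.right⁻¹ i) := by
        rw [SemidirectProduct.mul_right, mul_inv_rev]
        rfl
      have h2 : (x * y).left i = x.left i * y.left (x.right⁻¹ i) := by
        rw [SemidirectProduct.mul_left]
        rfl
      rw [h1, h2]
      by_cases h : y.right⁻¹ (x.right⁻¹ i) = k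
      · rw [if_pos h, if_pos h]
        push_cast
        rfl
      · rw [if_neg h, if_neg h, mul_zero]
    · intro j _ hj
      rw [Matrix.of_apply, if_neg (Ne.symm hj), zero_mul]
    · intro h
      exact absurd (Finset.mem_univ _) h

theorem mon_inj [Nontrivial R] : Function.Injective (mon C n) := by
  rw [injective_iff_map_eq_one]
  intro x hx
  have h1 : ∀ i, x.right⁻¹ i = i ∧ (((x.left i : C) : Rˣ) : R) = 1 := by
    intro i
    have h2 := congrFun (congrFun hx i) i
    rw [Matrix.one_apply_eq] at h2
    change (if x.right⁻¹ i = i then (((x.left i : C) : Rˣ) : R) else 0) = 1 at h2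
    by_cases h : x.right⁻¹ i = i
    · rw [if_pos h] at h2
      exact ⟨h, h2⟩
    · rw [if_neg h] at h2
      exact absurd h2 zero_ne_one
  have h2 : x.right = 1 := by
    rw [← inv_eq_one]
    exact Equiv.ext fun i => (h1 i).1
  have h3 : x.left = 1 := by
    funext i
    exact Subtype.ext (Units.ext (h1 i).2)
  exact SemidirectProduct.ext h3 h2

end SC7x

theorem exists_monomial (R : Type) [CommRing R] [IsDomain R] (q : ℕ) (hq : 0 < q) (ξ : R)
    (hξ : IsPrimitiveRoot ξ q) (n : ℕ) :
    ∃ H : Subgroup (Matrix.GeneralLinearGroup (Fin n) R), Finite H ∧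
      Nat.card H = q ^ n * n.factorial := by
  have : NeZero q := ⟨hq.ne'⟩
  let C := rootsOfUnity q R
  have hC : Nat.card C = q := hξ.card_rootsOfUnity
  have hfC : Finite C := Nat.finite_of_card_ne_zero (by rw [hC]; exact hq.ne')
  let W := SemidirectProduct (Fin n → C) (Equiv.Perm (Fin n)) (Px.act n)
  let F : W →* Matrix.GeneralLinearGroup (Fin n) R := (SC7x.mon C n).toHomUnits
  have hF : Function.Injective F := by
    intro x y hxy
    apply SC7x.mon_inj C n
    exact congrArg Units.val hxy
  have : Finite W := Finite.of_equiv _ (SemidirectProduct.equivProd).symm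
  refine ⟨F.range, Finite.of_surjective F.rangeRestrict F.rangeRestrict_surjective, ?_⟩
  rw [← Nat.card_congr (Equiv.ofBijective F.rangeRestrict
    ⟨F.rangeRestrict_injective_iff.2 hF, F.rangeRestrict_surjective⟩), Px.card_wr, hC]

theorem SC7x.fact_aux (p : ℕ) (hp : 0 < p) (k : ℕ) : p ^ k * k.factorial ∣ (p * k).factorial := by
  induction k with
  | zero => simp
  | succ k ih =>
    obtain ⟨r, rfl⟩ : ∃ r, p = r + 1 := ⟨p - 1, by omega⟩
    have h1 : ((r + 1) * (k + 1)).factorial =
        ((r + 1) * (k + 1)) * ((r + 1) * k + r).factorial := by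
      have h2 : (r + 1) * (k + 1) = ((r + 1) * k + r) + 1 := by ring
      rw [h2, Nat.factorial_succ]
    have h2 : ((r + 1) * k).factorial ∣ ((r + 1) * k + r).factorial :=
      Nat.factorial_dvd_factorial (Nat.le_add_right _ _)
    have h3 : (r + 1) ^ (k + 1) * (k + 1).factorial =
        ((r + 1) * (k + 1)) * ((r + 1) ^ k * k.factorial) := by
      rw [Nat.factorial_succ]
      ring
    rw [h1, h3]
    exact Nat.mul_dvd_mul_left _ (ih.trans h2)

theorem fact_dvd (p : ℕ) [Fact p.Prime] (n : ℕ) : p ^ (n / p) * (n / p).factorial ∣ n.factorial :=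
  (SC7x.fact_aux p (Fact.out : p.Prime).pos (n / p)).trans
    (Nat.factorial_dvd_factorial (Nat.mul_div_le n p))

end Pool.Agent.H371.SC
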