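import Pool.Agent.H371.SB.Defs

/-!
Definitions for the third part: characters with values in a finite extension `O` of the `p`-adic
integers.
-/

set_option autoImplicit false

namespace Pool.Agent.H371.SC

open Pool.Agent.H371.SA

/-- virtual continuous characters with values in `O` -/
noncomputable def VCO (p : ℕ) (O : Type) [CommRing O] {G : Type} [Group G] (T : Tower G) :
    AddSubgroup (G → O) :=
  AddSubgroup.closure {χ | ∃ (v : ℕ) (ρ : G →* Matrix (Fin v) (Fin v) O),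
    (∀ n, ∀ g ∈ T.U n, ∀ i j, (p : O) ^ n ∣ (ρ g - 1) i j) ∧ χ = fun g => (ρ g).trace}

/-- virtual continuous characters with values in `O` of groups of units of orders -/
noncomputable def ACO (p : ℕ) (O : Type) [CommRing O] {A : Type} [Ring A] (P : Subgroup Aˣ) :
    AddSubgroup (P → O) :=
  AddSubgroup.closure {χ | ∃ (v : ℕ) (ρ : P →* Matrix (Fin v) (Fin v) O),
    (∀ n, ∀ g : P, (∃ a : A, ((g : Aˣ) : A) = 1 + (p : A) ^ n * a) →
      ∀ i j, (p : O) ^ n ∣ (ρ g - 1) i j) ∧ χ = fun g => (ρ g).trace}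

/-- the same as `GR`, with a virtual character with values in `O` -/
def GRO (p : ℕ) [Fact p.Prime] (O : Type) [CommRing O] (c : ℕ) (G : Type) [Group G] : Prop :=
  ∃ (A : Type) (_ : Ring A) (_ : Algebra ℤ_[p] A) (_ : Module.Free ℤ_[p] A)
    (_ : Module.Finite ℤ_[p] A) (P : Subgroup Aˣ) (k : ℕ) (φ : G →* P) (f : P → O),
    2 < p ^ k ∧ (∀ u : Aˣ, (∃ a : A, (u : A) = 1 + (p : A) ^ k * a) → u ∈ P) ∧
    f ∈ ACO p O P ∧ f 1 = c ∧
    (∀ t : P, t ≠ 1 → ∀ a : ℕ, t ^ (p ^ a) = 1 → f t = 0) ∧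
    ∀ g : G, g ≠ 1 → ∃ (l : ℕ) (B : Type) (_ : Ring B) (_ : Algebra ℤ_[p] B)
      (_ : Module.Free ℤ_[p] B) (_ : Module.Finite ℤ_[p] B) (ψ : G →* Bˣ),
      (∀ h : G, (∃ a : A, ((φ h : Aˣ) : A) = 1 + (p : A) ^ l * a) →
        ∃ b : B, (ψ h : B) = 1 + (p : B) ^ 2 * b) ∧ ψ g ≠ 1

end Pool.Agent.H371.SC
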