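import Mathlib
import Pool.Agent.H371.SC.Defs

set_option autoImplicit false

namespace Pool.Agent.H371.SC

open Polynomial

/-- the ring generated by `ζ` in the complex numbers -/
noncomputable abbrev Cy (ζ : ℂ) : Type := Algebra.adjoin ℤ ({ζ} : Set ℂ)

theorem exists_embedding (m : ℕ) (hm : 0 < m) (ζ : ℂ) (hζ : IsPrimitiveRoot ζ m)
    (O : Type) [CommRing O] [IsDomain O] [CharZero O] (ζ' : O) (hζ' : IsPrimitiveRoot ζ' m) :
    ∃ f : Cy ζ →+* O, Function.Injective f ∧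
      f ⟨ζ, Algebra.subset_adjoin (Set.mem_singleton ζ)⟩ = ζ' := by
  have hint : IsIntegral ℤ ζ := hζ.isIntegral hm
  have hmin : cyclotomic m ℤ = minpoly ℤ ζ := cyclotomic_eq_minpoly hζ hm
  haveI : NeZero m := ⟨hm.ne'⟩
  have hroot : aeval ζ' (minpoly ℤ ζ) = 0 := by
    rw [← hmin, aeval_def, eval₂_eq_eval_map, map_cyclotomic]
    exact hζ'.isRoot_cyclotomic hm
  let e := minpoly.equivAdjoin hint
  let g : AdjoinRoot (minpoly ℤ ζ) →ₐ[ℤ] O := AdjoinRoot.liftAlgHom (minpoly ℤ ζ) (Algebra.ofId ℤ O) ζ' (by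
    simpa [aeval_def] using hroot)
  let f : Cy ζ →ₐ[ℤ] O := g.comp (e.symm : Cy ζ →ₐ[ℤ] AdjoinRoot (minpoly ℤ ζ))
  have hf : f ⟨ζ, Algebra.subset_adjoin (Set.mem_singleton ζ)⟩ = ζ' := by
    have h1 : e (AdjoinRoot.root _) = ⟨ζ, Algebra.subset_adjoin (Set.mem_singleton ζ)⟩ := by
      simp only [e, minpoly.coe_equivAdjoin]
      apply Subtype.ext
      simp
    have h2 : e.symm ⟨ζ, Algebra.subset_adjoin (Set.mem_singleton ζ)⟩ = AdjoinRoot.root _ := by
      rw [← h1]; simp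
    show g (e.symm _) = _
    rw [h2]
    simp [g]
  have hinj : Function.Injective (algebraMap ℤ O) := by
    rw [RingHom.injective_iff_ker_eq_bot]
    ext x
    simp
  haveI hi : Algebra.IsIntegral ℤ (Cy ζ) := by
    apply Algebra.IsIntegral.adjoin
    intro x hx
    rw [Set.mem_singleton_iff] at hx
    rw [hx]; exact hint
  refine ⟨f.toRingHom, ?_, hf⟩
  rw [RingHom.injective_iff_ker_eq_bot]
  haveI : (RingHom.ker f.toRingHom).IsPrime := RingHom.ker_isPrime _
  apply Ideal.eq_bot_of_comap_eq_bot (R := ℤ)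
  ext x
  simp
end Pool.Agent.H371.SC
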