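import Pool.Agent.H371.SC.V2
import Pool.Agent.H371.SC.V4
import Pool.Agent.H371.SC.V5
import Pool.Agent.H371.SC.W5
import Pool.Agent.H371.SC.W6
import Pool.Agent.H371.SC.W7
import Pool.Agent.H371.SC.W8
import Pool.Agent.H371.SB.U12

/-! The assembly for general linear groups over cyclotomic integers and augmented rings. -/

set_option autoImplicit false

namespace Pool.Agent.H371.SC

open Filter Topology
open Pool.Agent.H371.SA Pool.Agent.H371.SB
open Pool.Agent.H80R2.BC (L2 GMat vdim kerA Coef act)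
open Pool.Agent.W656.VA

/-- the local denominators -/
noncomputable def cO (p m n : ℕ) : ℕ :=
  if p ∣ m then (p ^ (m.factorization p)) ^ n * (p ^ (n / p) * (n / p).factorial)
  else p ^ (n / (p - 1)) * (n / (p - 1)).factorial

/-- a finite extension of the `p`-adic integers with an `m`-th root of unity and the virtual
characters -/
structure Loc (p : ℕ) [Fact p.Prime] (m : ℕ) where
  O : Type
  i1 : CommRing O
  i2 : IsDomain O
  i3 : Algebra ℤ_[p] O
  i4 : Module.Free ℤ_[p] O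
  i5 : Module.Finite ℤ_[p] O
  ζ : O
  hζ : IsPrimitiveRoot ζ m
  hf : ∀ n : ℕ, ∃ f : (⊤ : Subgroup (Matrix (Fin n) (Fin n) O)ˣ) → O,
      f ∈ ACO p O (⊤ : Subgroup (Matrix (Fin n) (Fin n) O)ˣ) ∧ f 1 = (cO p m n : O) ∧
      ∀ t : (⊤ : Subgroup (Matrix (Fin n) (Fin n) O)ˣ), t ≠ 1 → ∀ b : ℕ, t ^ (p ^ b) = 1 →
        f t = 0

attribute [instance] Loc.i1 Loc.i2 Loc.i3 Loc.i4 Loc.i5

theorem exists_loc (p : ℕ) [Fact p.Prime] (m : ℕ) (hm : 0 < m) : Nonempty (Loc p m) := by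
  have hp : p.Prime := Fact.out
  by_cases h : p ∣ m
  · set a := m.factorization p with ha
    have ha1 : 1 ≤ a := (Nat.Prime.dvd_iff_one_le_factorization hp hm.ne').1 h
    set m' := m / p ^ a with hm'
    have hmm : m' * p ^ a = m := Nat.div_mul_cancel (Nat.ordProj_dvd m p)
    have hm'p : ¬ p ∣ m' := Nat.not_dvd_ordCompl hp hm.ne'
    obtain ⟨O₀, j1, j2, j3, j4, j5, ζ₀, hζ₀, hp₀⟩ := exists_unr p m' hm'p
    obtain ⟨O, i1, i2, i3, i4, i5, ζ, hζ, hpr⟩ := exists_ram p O₀ hp₀ m' hm'p ζ₀ hζ₀ a ha1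
    have hξ : IsPrimitiveRoot (ζ ^ m') (p ^ a) := by
      have hpos : 0 < m' * p ^ a := by rw [hmm]; exact hm
      exact hζ.pow hpos rfl
    refine ⟨⟨O, i1, i2, i3, i4, i5, ζ, by rw [← hmm]; exact hζ, fun n => ?_⟩⟩
    obtain ⟨f, hf, hf1, hf0⟩ := gl_char_ram p O a ha1 _ hξ hpr n
    refine ⟨f, hf, ?_, hf0⟩
    rw [hf1, cO, if_pos h]
  · obtain ⟨O, i1, i2, i3, i4, i5, ζ, hζ, hp₀⟩ := exists_unr p m h
    refine ⟨⟨O, i1, i2, i3, i4, i5, ζ, hζ, fun n => ?_⟩⟩
    obtain ⟨f, hf, hf1, hf0⟩ := gl_char_unr p O hp₀ n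
    refine ⟨f, hf, ?_, hf0⟩
    rw [hf1, cO, if_neg h]

/-- a choice of these rings -/
noncomputable def loc (m : ℕ) (hm : 0 < m) (p : ℕ) [Fact p.Prime] : Loc p m :=
  (exists_loc p m hm).some

/-- the relation -/
def CRO (m : ℕ) (hm : 0 < m) (G : Type) [Group G] (d : ℕ) : Prop :=
  0 < d ∧ ∀ (p : ℕ) [Fact p.Prime], ∃ c : ℕ, GRO p (loc m hm p).O c G ∧
    ∃ q : ℕ, ¬ p ∣ q ∧ c ∣ q * d

variable {m : ℕ} {hm : 0 < m}

theorem CRO.prod {G H : Type} [Group G] [Group H] {d e : ℕ} (hG : CRO m hm G d)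
    (hH : CRO m hm H e) : CRO m hm (G × H) (d * e) := by
  refine ⟨Nat.mul_pos hG.1 hH.1, fun p _ => ?_⟩
  obtain ⟨c, hc, q, hq, h⟩ := hG.2 p
  obtain ⟨c', hc', q', hq', h'⟩ := hH.2 p
  refine ⟨c * c', GRO.prod _ p c c' G H hc hc', q * q', ?_, ?_⟩
  · intro h
    rcases (Fact.out : p.Prime).dvd_mul.1 h with h | h
    · exact hq h
    · exact hq' h
  · have := mul_dvd_mul h h'
    have e1 : q * d * (q' * e) = q * q' * (d * e) := by ring
    rwa [e1] at this

theorem CRO.sub {G H : Type} [Group G] [Group H] {d : ℕ} (f : H →* G) (hf : Function.Injective f)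
    (hG : CRO m hm G d) : CRO m hm H d := by
  refine ⟨hG.1, fun p _ => ?_⟩
  obtain ⟨c, hc, q, hq, h⟩ := hG.2 p
  exact ⟨c, GRO.sub _ p c G H f hf hc, q, hq, h⟩

theorem CRO.free {G : Type} [Group G] {d : ℕ} (k : ℕ) (hG : CRO m hm G d) :
    CRO m hm (Monoid.Coprod G (FreeGroup (Fin k))) d := by
  refine ⟨hG.1, fun p _ => ?_⟩
  obtain ⟨c, hc, q, hq, h⟩ := hG.2 p
  exact ⟨c, GRO.coprod_free _ p c G k hc, q, hq, h⟩

theorem CRO.main {G : Type} [Group G] {d : ℕ} (hG : CRO m hm G d) (v : ℝ)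
    (hv : Val (⊤ : Subring ℂ) G v) : ∃ z : ℤ, (d : ℝ) * v = z := by
  refine base_change' (fun G _ d => CRO m hm G d) (fun G _ d h => h.1)
    (fun G H _ _ d e hG hH => CRO.prod hG hH) (fun G _ m d hG => CRO.free m hG)
    (Int.castRingHom ℂ).range ?_ ⊤ G d hG v hv
  intro G _ d hG v hv
  apply Tx.int_of_local
  intro p hp
  have : Fact p.Prime := ⟨hp⟩
  obtain ⟨c, hc, q, hq, e, he⟩ := hG.2 p
  obtain ⟨q', hq', z, hz⟩ := GRO.local p _ c G hc v hv
  refine ⟨q * q', ?_, e * z, ?_⟩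
  · intro h
    rcases (Fact.out : p.Prime).dvd_mul.1 h with h | h
    · exact hq h
    · exact hq' h
  · have he' : (q : ℝ) * d = c * e := by exact_mod_cast he
    push_cast
    linear_combination (q' : ℝ) * v * he' + (e : ℝ) * hz

theorem CRO.kd_int {G : Type} [Group G] [DecidableEq G] {d : ℕ} (hG : CRO m hm G d) (k n : ℕ)
    (A : Matrix (Fin k) (Fin n) (G →₀ ℂ)) : ∃ z : ℤ, (d : ℝ) * kd A = z := by
  let A' : GMat (Fin n) (Fin k) G := fun i j => (A j i).equivMapDomain (Equiv.inv G)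
  obtain ⟨z, hz⟩ := CRO.main hG _ (val_of A' (R := ⊤) fun _ _ _ => Subring.mem_top _)
  refine ⟨z, ?_⟩
  rw [← hz]
  have hS : ({x : lp (fun _ : Fin k × G => ℂ) 2 | ∀ i : Fin n, ∀ g : G,
      ∑ j' : Fin k, (A j' i).sum (fun h c => x (j', g * h⁻¹) * c) = 0} :
      Set (lp (fun _ : Fin k × G => ℂ) 2)) = (kerA A' : Set (L2 (Fin k × G))) := by
    ext x
    change _ ↔ ∀ i g, Pool.Agent.H80R2.BC.act A' x i g = 0
    refine forall_congr' fun i => forall_congr' fun g => ?_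
    have : Pool.Agent.H80R2.BC.act A' x i g =
        ∑ j' : Fin k, (A j' i).sum (fun h c => x (j', g * h⁻¹) * c) := by
      unfold Pool.Agent.H80R2.BC.act
      refine Finset.sum_congr rfl fun j _ => ?_
      change ((A j i).equivMapDomain (Equiv.inv G)).sum _ = _
      rw [Finsupp.sum_equivMapDomain, Finsupp.sum, Finsupp.sum]
      refine Finset.sum_congr rfl fun h _ => ?_
      rw [mul_comm]
      rfl
    rw [this]
  have hv : vdim (kerA A') = kd A := by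
    unfold vdim kd
    rw [hS]
    refine Finset.sum_congr rfl fun j _ => ?_
    have e : Pool.Agent.H80R2.BC.dl G j =
        (lp.single 2 (j, (1 : G)) (1 : ℂ) : lp (fun _ : Fin k × G => ℂ) 2) := by
      unfold Pool.Agent.H80R2.BC.dl
      congr 1
      exact Subsingleton.elim _ _
    rw [e]
  rw [← hv]

/-! ### general linear groups -/

theorem card_units_map {X Y : Type} [Ring X] [Ring Y] (n : ℕ) (f : X →+* Y)
    (hf : Function.Injective f) (H : Subgroup (Matrix (Fin n) (Fin n) X)ˣ) :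
    Nat.card (H.map (Units.map ((RingHom.mapMatrix f : Matrix (Fin n) (Fin n) X →+*
      Matrix (Fin n) (Fin n) Y) : Matrix (Fin n) (Fin n) X →* Matrix (Fin n) (Fin n) Y))) =
      Nat.card H := by
  refine card_map _ _ fun x _ hx => ?_
  apply Units.ext
  ext i j
  have h1 := congrArg (fun u : (Matrix (Fin n) (Fin n) Y)ˣ =>
    (u : Matrix (Fin n) (Fin n) Y) i j) hx
  change f ((x : Matrix (Fin n) (Fin n) X) i j) = (1 : Matrix (Fin n) (Fin n) Y) i j at h1
  apply hf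
  rw [h1]
  change _ = f ((1 : Matrix (Fin n) (Fin n) X) i j)
  rw [Matrix.one_apply, Matrix.one_apply]
  split_ifs <;> simp

theorem cO_dvd (p : ℕ) [Fact p.Prime] (n : ℕ) (ζ : ℂ) (hζ : IsPrimitiveRoot ζ m) (hm : 0 < m)
    (R : Type) [Ring R] [Algebra (Cy ζ) R] (ε : R →ₐ[Cy ζ] Cy ζ) (d : ℕ)
    (hd : ∀ H : Subgroup (Matrix (Fin n) (Fin n) R)ˣ, Finite H → Nat.card H ∣ d) :
    cO p m n ∣ d := by
  have hp : p.Prime := Fact.out
  have hinj : Function.Injective (algebraMap (Cy ζ) R) := by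
    intro x y hxy
    have := congrArg ε hxy
    rwa [AlgHom.commutes, AlgHom.commutes] at this
  have hle : ∀ H : Subgroup (Matrix (Fin n) (Fin n) (Cy ζ))ˣ, Finite H → Nat.card H ∣ d := by
    intro H hH
    rw [← card_units_map n (algebraMap (Cy ζ) R) hinj H]
    apply hd
    exact Set.Finite.image _ (Set.toFinite (H : Set (Matrix (Fin n) (Fin n) (Cy ζ))ˣ))
  rw [cO]
  split_ifs with h
  · set a := m.factorization p with ha
    have hdv : p ^ a ∣ m := Nat.ordProj_dvd m p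
    obtain ⟨m', hm'⟩ := hdv
    let z : Cy ζ := ⟨ζ, Algebra.subset_adjoin (Set.mem_singleton ζ)⟩
    have hz : IsPrimitiveRoot z m := by
      refine IsPrimitiveRoot.of_map_of_injective (f := (Algebra.adjoin ℤ ({ζ} : Set ℂ)).val)
        hζ Subtype.val_injective
    have hξ : IsPrimitiveRoot (z ^ m') (p ^ a) := by
      refine hz.pow hm ?_
      rw [hm', mul_comm]
    obtain ⟨H, hH, hc⟩ := exists_monomial (Cy ζ) (p ^ a) (pow_pos hp.pos a) _ hξ n
    have h1 := hle H hH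
    rw [hc] at h1
    exact (mul_dvd_mul_left _ (fact_dvd p n)).trans h1
  · obtain ⟨H, hH, hc⟩ := exists_finite_subgroup p n (n / (p - 1)) hp.two_le
      (Nat.div_mul_le_self _ _)
    rw [← hc, ← card_units_map n (Int.castRingHom (Cy ζ)) (RingHom.injective_int _) H]
    apply hle
    exact Set.Finite.image _ (Set.toFinite (H : Set (Matrix (Fin n) (Fin n) ℤ)ˣ))

theorem CRO.gl (m : ℕ) (hm : 0 < m) (ζ : ℂ) (hζ : IsPrimitiveRoot ζ m) (R : Type) [Ring R]
    [Algebra (Cy ζ) R] (ε : R →ₐ[Cy ζ] Cy ζ) (hR : Res ε) (n d : ℕ) (hd0 : 0 < d)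
    (hd : ∀ H : Subgroup (Matrix (Fin n) (Fin n) R)ˣ, Finite H → Nat.card H ∣ d) :
    CRO m hm (Matrix (Fin n) (Fin n) R)ˣ d := by
  refine ⟨hd0, fun p _ => ⟨cO p m n, ?_, 1, (Fact.out : p.Prime).one_lt.ne' ∘ Nat.dvd_one.1, ?_⟩⟩
  · have : CharZero (loc m hm p).O :=
      charZero_of_injective_algebraMap (FaithfulSMul.algebraMap_injective ℤ_[p] _)
    obtain ⟨ι, hι, -⟩ := exists_embedding m hm ζ hζ (loc m hm p).O (loc m hm p).ζ (loc m hm p).hζ
    exact GRO.gl p _ n _ ((loc m hm p).hf n) (Cy ζ) R ε hR ι hι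
  · rw [one_mul]
    exact cO_dvd p n ζ hζ hm R ε d hd

end Pool.Agent.H371.SC
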