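import Pool.Agent.H371.SC.V5

/-! Project SC, task SC-12: polynomial rings and free algebras are residually rings of matrices
in which the augmentation ideal is nilpotent. -/

set_option autoImplicit false

namespace Pool.Agent.H371.SC

namespace SC12x

variable {C : Type} [CommRing C] {K : ℕ}

/-- the matrix vanishes left of the `m`-th diagonal -/
def Up (m : ℕ) (M : Matrix (Fin K) (Fin K) C) : Prop :=
  ∀ i j : Fin K, (j : ℕ) < i + m → M i j = 0

theorem Up.add {m : ℕ} {M M' : Matrix (Fin K) (Fin K) C} (h : Up m M) (h' : Up m M') :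
    Up m (M + M') := by
  intro i j hij
  rw [Matrix.add_apply, h i j hij, h' i j hij, add_zero]

theorem Up.mul {m m' : ℕ} {M M' : Matrix (Fin K) (Fin K) C} (h : Up m M) (h' : Up m' M') :
    Up (m + m') (M * M') := by
  intro i j hij
  rw [Matrix.mul_apply]
  refine Finset.sum_eq_zero fun l _ => ?_
  by_cases hl : (l : ℕ) < i + m
  · rw [h i l hl, zero_mul]
  · rw [h' l j (by omega), mul_zero]

theorem Up.mono {m m' : ℕ} {M : Matrix (Fin K) (Fin K) C} (h : Up m M) (hm : m' ≤ m) :
    Up m' M := fun i j hij => h i j (by omega)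

theorem Up.zero (m : ℕ) : Up m (0 : Matrix (Fin K) (Fin K) C) := fun _ _ _ => rfl

theorem Up.smul {m : ℕ} {M : Matrix (Fin K) (Fin K) C} (h : Up m M) (c : C) :
    Up m (c • M) := by
  intro i j hij
  rw [Matrix.smul_apply, h i j hij, smul_zero]

theorem Up.one : Up 0 (1 : Matrix (Fin K) (Fin K) C) := by
  intro i j hij
  rw [Matrix.one_apply_ne]
  intro h
  subst h
  omega

theorem Up.eq_zero {M : Matrix (Fin K) (Fin K) C} (h : Up K M) : M = 0 := by
  ext i j
  exact h i j (by omega)

section hom

variable {R : Type} [Ring R] [Algebra C R] (ε : R →ₐ[C] C)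
  (π : R →ₐ[C] Matrix (Fin K) (Fin K) C)

theorem add_mem {x y : R} (hx : Up 1 (π x - ε x • 1)) (hy : Up 1 (π y - ε y • 1)) :
    Up 1 (π (x + y) - ε (x + y) • 1) := by
  have e : π (x + y) - ε (x + y) • (1 : Matrix (Fin K) (Fin K) C) =
      (π x - ε x • 1) + (π y - ε y • 1) := by
    rw [map_add, map_add, add_smul]; abel
  rw [e]
  exact hx.add hy

theorem mul_mem {x y : R} (hx : Up 1 (π x - ε x • 1)) (hy : Up 1 (π y - ε y • 1)) :
    Up 1 (π (x * y) - ε (x * y) • 1) := by
  have e : π (x * y) - ε (x * y) • (1 : Matrix (Fin K) (Fin K) C) =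
      (π x - ε x • 1) * (π y - ε y • 1) + (ε y • (π x - ε x • 1) + ε x • (π y - ε y • 1)) := by
    rw [map_mul, map_mul, sub_mul, mul_sub, mul_sub, smul_mul_assoc, smul_mul_assoc,
      mul_smul_comm, one_mul, mul_one, one_mul, smul_sub, smul_sub, smul_smul, smul_smul,
      mul_comm (ε y) (ε x)]
    abel
  rw [e]
  exact ((hx.mul hy).mono (by omega)).add ((hx.smul _).add (hy.smul _))

theorem map_mem (c : C) : Up 1 (π (algebraMap C R c) - ε (algebraMap C R c) • 1) := by
  rw [AlgHom.commutes, AlgHom.commutes, Algebra.algebraMap_eq_smul_one]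
  have : (algebraMap C C c) = c := rfl
  rw [this, sub_self]
  exact Up.zero 1

theorem list_mem (h : ∀ x : R, Up 1 (π x - ε x • 1)) :
    ∀ l : List R, (∀ x ∈ l, ε x = 0) → Up l.length (π l.prod)
  | [], _ => by
      rw [List.prod_nil, map_one]
      exact Up.one
  | x :: l, hl => by
      have h1 : Up 1 (π x) := by
        have := h x
        rwa [hl x (by simp), zero_smul, sub_zero] at this
      have h2 := list_mem h l fun y hy => hl y (by simp [hy])
      rw [List.prod_cons, map_mul, List.length_cons, add_comm]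
      exact h1.mul h2

theorem nil_of (h : ∀ x : R, Up 1 (π x - ε x • 1)) (l : List R) (hl : l.length = K)
    (h0 : ∀ x ∈ l, ε x = 0) : π l.prod = 0 := by
  have := list_mem ε π h l h0
  rw [hl] at this
  exact this.eq_zero

end hom

/-- the nilpotent Jordan block -/
def Jor (C : Type) [CommRing C] (K : ℕ) : Matrix (Fin K) (Fin K) C :=
  fun i j => if (i : ℕ) + 1 = j then 1 else 0

theorem jor_up : Up 1 (Jor C K) := by
  intro i j hij
  rw [Jor, if_neg (by omega)]

theorem jor_pow (m : ℕ) (i j : Fin K) :
    (Jor C K ^ m) i j = if (i : ℕ) + m = j then 1 else 0 := by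
  induction m generalizing i j with
  | zero =>
    rw [pow_zero, Matrix.one_apply]
    simp [Fin.ext_iff]
  | succ m ih =>
    rw [pow_succ', Matrix.mul_apply]
    by_cases hi : (i : ℕ) + 1 < K
    · rw [Finset.sum_eq_single (⟨i + 1, hi⟩ : Fin K)]
      · rw [Jor, if_pos rfl, one_mul, ih]
        have : ((i : ℕ) + 1 + m = j) ↔ ((i : ℕ) + (m + 1) = j) := by omega
        simp only [this]
      · intro l _ hl
        rw [Jor, if_neg, zero_mul]
        intro h
        exact hl (Fin.ext h.symm)
      · simp
    · rw [Finset.sum_eq_zero, if_neg (by omega)]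
      intro l _
      rw [Jor, if_neg (by omega), zero_mul]

theorem jor_aeval (g : Polynomial C) (i j : Fin K) (hij : (i : ℕ) = 0) :
    (Polynomial.aeval (Jor C K) g) i j = g.coeff j := by
  rw [Polynomial.aeval_eq_sum_range, Matrix.sum_apply]
  simp only [Matrix.smul_apply, jor_pow, hij, zero_add, smul_eq_mul, mul_ite, mul_one, mul_zero]
  by_cases h : (j : ℕ) < g.natDegree + 1
  · rw [Finset.sum_eq_single (j : ℕ)]
    · simp
    · intro l _ hl
      rw [if_neg hl]
    · intro hj
      exact absurd (Finset.mem_range.2 h) hj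
  · rw [Finset.sum_eq_zero, Polynomial.coeff_eq_zero_of_natDegree_lt (by omega)]
    intro l hl
    rw [if_neg]
    rintro rfl
    exact h (Finset.mem_range.1 hl)

/-- the matrices belonging to a word -/
noncomputable def W {σ : Type} (w : List σ) (s : σ) :
    Matrix (Fin (w.length + 1)) (Fin (w.length + 1)) C := by
  classical
  exact fun i j => if (i : ℕ) + 1 = j ∧ w[(i : ℕ)]? = some s then 1 else 0

theorem W_up {σ : Type} (w : List σ) (s : σ) :
    Up 1 (W w s : Matrix (Fin (w.length + 1)) (Fin (w.length + 1)) C) := by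
  intro i j hij
  rw [W, if_neg (by omega)]

open Classical in
theorem W_prod {σ : Type} (w : List σ) (v : List σ) (i j : Fin (w.length + 1)) :
    ((v.map (W w)).prod : Matrix (Fin (w.length + 1)) (Fin (w.length + 1)) C) i j =
      if w.drop i = v ++ w.drop j ∧ (i : ℕ) + v.length = j then 1 else 0 := by
  induction v generalizing i j with
  | nil =>
    rw [List.map_nil, List.prod_nil, Matrix.one_apply]
    by_cases h : i = j
    · subst h; simp
    · rw [if_neg h, if_neg]
      rintro ⟨_, h'⟩
      exact h (Fin.ext (by simpa using h'))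
  | cons s v ih =>
    rw [List.map_cons, List.prod_cons, Matrix.mul_apply]
    by_cases hi : w[(i : ℕ)]? = some s
    · obtain ⟨hlt, hs⟩ := List.getElem?_eq_some_iff.1 hi
      rw [Finset.sum_eq_single (⟨i + 1, by omega⟩ : Fin (w.length + 1))]
      · rw [W, if_pos ⟨rfl, hi⟩, one_mul, ih]
        have e : w.drop i = s :: w.drop (i + 1) := by
          rw [List.drop_eq_getElem_cons hlt, hs]
        have : (w.drop ((i : ℕ) + 1) = v ++ w.drop j ∧ (i : ℕ) + 1 + v.length = j) ↔
            (w.drop i = s :: v ++ w.drop j ∧ (i : ℕ) + (s :: v).length = j) := by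
          rw [e, List.cons_append, List.cons.injEq, List.length_cons]
          constructor
          · rintro ⟨h1, h2⟩
            exact ⟨⟨rfl, h1⟩, by omega⟩
          · rintro ⟨⟨_, h1⟩, h2⟩
            exact ⟨h1, by omega⟩
        simp only [this]
      · intro l _ hl
        rw [W, if_neg, zero_mul]
        rintro ⟨h, _⟩
        exact hl (Fin.ext h.symm)
      · simp
    · rw [Finset.sum_eq_zero, if_neg]
      · rintro ⟨h, h2⟩
        apply hi
        rw [List.cons_append] at h
        have : (w.drop (i : ℕ))[0]? = some s := by rw [h]; rfl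
        rwa [List.getElem?_drop, add_zero] at this
      · intro l _
        rw [W, if_neg, zero_mul]
        exact fun h => hi h.2

end SC12x

open SC12x

theorem res_mv_polynomial (C : Type) [CommRing C] [IsDomain C] [CharZero C] (σ : Type) :
    Res (MvPolynomial.aeval (fun _ : σ => (0 : C)) : MvPolynomial σ C →ₐ[C] C) := by
  intro f hf
  obtain ⟨a, ha⟩ : ∃ a : σ → C, MvPolynomial.eval a f ≠ 0 := by
    by_contra h
    push Not at h
    exact hf (MvPolynomial.funext fun x => by rw [h x, map_zero])
  let φ : MvPolynomial σ C →ₐ[C] Polynomial C :=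
    MvPolynomial.aeval fun i => Polynomial.C (a i) * Polynomial.X
  have hφ : Polynomial.eval 1 (φ f) = MvPolynomial.eval a f := by
    have : (Polynomial.evalRingHom (1 : C)).comp (φ : MvPolynomial σ C →+* Polynomial C) =
        MvPolynomial.eval a := by
      apply MvPolynomial.ringHom_ext
      · intro r
        simp [φ]
      · intro i
        simp [φ]
    exact congrArg (fun g : MvPolynomial σ C →+* C => g f) this
  have hg : φ f ≠ 0 := by
    intro h
    rw [h, Polynomial.eval_zero] at hφ
    exact ha hφ.symm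
  set g := φ f with hgdef
  let K := g.natDegree + 1
  refine ⟨K, K, (Polynomial.aeval (Jor C K)).comp φ, ?_, ?_⟩
  · intro l hl h0
    refine nil_of _ _ ?_ l hl h0
    intro x
    induction x using MvPolynomial.induction_on with
    | C c => exact map_mem (R := MvPolynomial σ C) _ _ c
    | add p q hp hq => exact add_mem _ _ hp hq
    | mul_X p i hp =>
      refine mul_mem _ _ hp ?_
      have e1 : (MvPolynomial.aeval (fun _ : σ => (0 : C)) : MvPolynomial σ C →ₐ[C] C)
          (MvPolynomial.X i) = 0 := by simp
      have e2 : ((Polynomial.aeval (Jor C K)).comp φ) (MvPolynomial.X i) = a i • Jor C K := by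
        simp [φ, Algebra.smul_def]
      rw [e1, e2, zero_smul, sub_zero]
      exact jor_up.smul _
  · intro h
    have h1 := congrFun (congrFun h (⟨0, by omega⟩ : Fin K)) (⟨g.natDegree, by omega⟩ : Fin K)
    rw [AlgHom.comp_apply, jor_aeval _ _ _ rfl, Matrix.zero_apply] at h1
    exact hg (Polynomial.leadingCoeff_eq_zero.1 h1)

theorem res_free_algebra (C : Type) [CommRing C] [IsDomain C] [CharZero C] (σ : Type) :
    Res (FreeAlgebra.lift C (fun _ : σ => (0 : C)) : FreeAlgebra C σ →ₐ[C] C) := by
  classical
  intro f hf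
  let e : FreeAlgebra C σ ≃ₐ[C] MonoidAlgebra C (FreeMonoid σ) :=
    FreeAlgebra.equivMonoidAlgebraFreeMonoid
  have hef : e f ≠ 0 := fun h => hf (e.injective (by rw [h, map_zero]))
  obtain ⟨w, hw⟩ : ∃ w : FreeMonoid σ, (e f).coeff w ≠ 0 := by
    by_contra h
    push Not at h
    exact hef (MonoidAlgebra.coeff_injective (Finsupp.ext h))
  let ws : List σ := FreeMonoid.toList w
  let π : FreeAlgebra C σ →ₐ[C] Matrix (Fin (ws.length + 1)) (Fin (ws.length + 1)) C :=
    FreeAlgebra.lift C (W ws)
  let m : FreeMonoid σ →* Matrix (Fin (ws.length + 1)) (Fin (ws.length + 1)) C :=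
    FreeMonoid.lift (W ws)
  let π' : MonoidAlgebra C (FreeMonoid σ) →ₐ[C]
      Matrix (Fin (ws.length + 1)) (Fin (ws.length + 1)) C := MonoidAlgebra.lift C _ _ m
  have hπ : π = π'.comp (e : FreeAlgebra C σ →ₐ[C] MonoidAlgebra C (FreeMonoid σ)) := by
    apply FreeAlgebra.hom_ext
    funext s
    simp [π, π', e, m, FreeAlgebra.equivMonoidAlgebraFreeMonoid]
  refine ⟨ws.length + 1, ws.length + 1, π, ?_, ?_⟩
  · intro l hl h0
    refine nil_of _ _ ?_ l hl h0
    intro x
    induction x using FreeAlgebra.induction with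
    | grade0 r => exact map_mem _ _ r
    | grade1 s =>
      have e1 : (FreeAlgebra.lift C (fun _ : σ => (0 : C)) : FreeAlgebra C σ →ₐ[C] C)
          (FreeAlgebra.ι C s) = 0 := by simp
      have e2 : π (FreeAlgebra.ι C s) = W ws s := by simp [π]
      rw [e1, e2, zero_smul, sub_zero]
      exact W_up ws s
    | mul a b ha hb => exact mul_mem _ _ ha hb
    | add a b ha hb => exact add_mem _ _ ha hb
  · intro h
    have h1 := congrFun (congrFun h (⟨0, by omega⟩ : Fin (ws.length + 1)))
      (⟨ws.length, by omega⟩ : Fin (ws.length + 1))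
    rw [hπ, AlgHom.comp_apply, Matrix.zero_apply] at h1
    have h2 : π' (e f) = (e f).coeff.sum fun v c => c • m v := by
      exact MonoidAlgebra.lift_apply _ _
    have h3 : (π' (e f)) (⟨0, by omega⟩ : Fin (ws.length + 1))
        (⟨ws.length, by omega⟩ : Fin (ws.length + 1)) = (e f).coeff w := by
      rw [h2, Finsupp.sum, Matrix.sum_apply, Finset.sum_eq_single w]
      · rw [Matrix.smul_apply]
        have : m w = (ws.map (W ws)).prod := FreeMonoid.lift_apply _ _
        rw [this, W_prod, if_pos ⟨by simp, by simp⟩, smul_eq_mul, mul_one]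
      · intro v _ hv
        rw [Matrix.smul_apply]
        have : m v = ((FreeMonoid.toList v).map (W ws)).prod := FreeMonoid.lift_apply _ _
        rw [this, W_prod, if_neg, smul_zero]
        rintro ⟨h4, _⟩
        apply hv
        apply FreeMonoid.toList.injective
        have h5 : ws = FreeMonoid.toList v := by simpa using h4
        exact h5.symm
      · intro h4
        rw [Finsupp.notMem_support_iff.1 h4, zero_smul, Matrix.zero_apply]
    rw [AlgEquiv.coe_toAlgHom] at h1
    exact hw (h3.symm.trans h1)

end Pool.Agent.H371.SC
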