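import Pool.Agent.H371.SC.Defs
import Pool.Agent.H371.SA.TN

/-! Products, constants and pullbacks of continuous characters with values in `O`; elements which
are nearly of finite order. -/

set_option autoImplicit false

namespace Pool.Agent.H371.SC

open Pool.Agent.H371.SA

namespace V0x

variable (p : ℕ) (O : Type) [CommRing O] {A : Type} [Ring A] (P : Subgroup Aˣ)

/-- the continuity condition -/
def Cont {v : ℕ} (ρ : P →* Matrix (Fin v) (Fin v) O) : Prop :=
  ∀ n, ∀ g : P, (∃ a : A, ((g : Aˣ) : A) = 1 + (p : A) ^ n * a) →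
      ∀ i j, (p : O) ^ n ∣ (ρ g - 1) i j

theorem mem_of_cont {v : ℕ} (ρ : P →* Matrix (Fin v) (Fin v) O) (h : Cont p O P ρ) :
    (fun g => (ρ g).trace) ∈ ACO p O P :=
  AddSubgroup.subset_closure ⟨v, ρ, h, rfl⟩

/-- the tensor product of two representations -/
noncomputable def tens {v w : ℕ} (ρ : P →* Matrix (Fin v) (Fin v) O)
    (σ : P →* Matrix (Fin w) (Fin w) O) :
    P →* Matrix (Fin (v * w)) (Fin (v * w)) O where
  toFun g := Matrix.reindex finProdFinEquiv finProdFinEquiv
    (Matrix.kroneckerMap (· * ·) (ρ g) (σ g))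
  map_one' := by
    rw [map_one, map_one]
    rw [Matrix.one_kronecker_one]
    simp
  map_mul' g h := by
    rw [map_mul, map_mul, Matrix.mul_kronecker_mul]
    simp only [Matrix.reindex_apply]
    rw [Matrix.submatrix_mul_equiv]

theorem trace_tens {v w : ℕ} (ρ : P →* Matrix (Fin v) (Fin v) O)
    (σ : P →* Matrix (Fin w) (Fin w) O) (g : P) :
    (tens O P ρ σ g).trace = (ρ g).trace * (σ g).trace := by
  change (Matrix.reindex finProdFinEquiv finProdFinEquiv (Matrix.kroneckerMap (· * ·) (ρ g) (σ g))).trace = _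
  rw [← Matrix.trace_kronecker]
  simp only [Matrix.trace, Matrix.diag, Matrix.reindex_apply, Matrix.submatrix_apply]
  exact Equiv.sum_comp finProdFinEquiv.symm
    (fun x => (Matrix.kroneckerMap (· * ·) (ρ g) (σ g)) x x)

theorem cont_tens {v w : ℕ} (ρ : P →* Matrix (Fin v) (Fin v) O)
    (σ : P →* Matrix (Fin w) (Fin w) O) (hρ : Cont p O P ρ) (hσ : Cont p O P σ) :
    Cont p O P (tens O P ρ σ) := by
  intro n g hg i j
  have h1 := hρ n g hg (finProdFinEquiv.symm i).1 (finProdFinEquiv.symm j).1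
  have h2 := hσ n g hg (finProdFinEquiv.symm i).2 (finProdFinEquiv.symm j).2
  have h3 : (tens O P ρ σ g - 1) i j =
      (ρ g - 1) (finProdFinEquiv.symm i).1 (finProdFinEquiv.symm j).1 *
        (σ g) (finProdFinEquiv.symm i).2 (finProdFinEquiv.symm j).2 +
      (1 : Matrix (Fin v) (Fin v) O) (finProdFinEquiv.symm i).1 (finProdFinEquiv.symm j).1 *
        (σ g - 1) (finProdFinEquiv.symm i).2 (finProdFinEquiv.symm j).2 := by
    have h4 : (1 : Matrix (Fin (v * w)) (Fin (v * w)) O) i j =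
        (1 : Matrix (Fin v) (Fin v) O) (finProdFinEquiv.symm i).1 (finProdFinEquiv.symm j).1 *
        (1 : Matrix (Fin w) (Fin w) O) (finProdFinEquiv.symm i).2
          (finProdFinEquiv.symm j).2 := by
      simp only [Matrix.one_apply]
      by_cases hij : i = j
      · subst hij; simp
      · rw [if_neg hij]
        by_cases h5 : (finProdFinEquiv.symm i).1 = (finProdFinEquiv.symm j).1
        · by_cases h6 : (finProdFinEquiv.symm i).2 = (finProdFinEquiv.symm j).2
          · exact absurd (finProdFinEquiv.symm.injective (Prod.ext h5 h6)) hij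
          · rw [if_neg h6, mul_zero]
        · rw [if_neg h5, zero_mul]
    have h5 : (tens O P ρ σ g) i j =
        (ρ g) (finProdFinEquiv.symm i).1 (finProdFinEquiv.symm j).1 *
        (σ g) (finProdFinEquiv.symm i).2 (finProdFinEquiv.symm j).2 := rfl
    rw [Matrix.sub_apply, Matrix.sub_apply, Matrix.sub_apply, h4, h5]
    ring
  rw [h3]
  exact dvd_add (Dvd.dvd.mul_right h1 _) (Dvd.dvd.mul_left h2 _)

end V0x

section Q
variable (p : ℕ) (O : Type) [CommRing O] {A : Type} [Ring A] (P : Subgroup Aˣ)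

theorem ACO.mul {f g : P → O} (hf : f ∈ ACO p O P) (hg : g ∈ ACO p O P) : f * g ∈ ACO p O P := by
  unfold ACO at hf
  induction hf using AddSubgroup.closure_induction with
  | mem f hf =>
    obtain ⟨v, ρ, hρ, rfl⟩ := hf
    unfold ACO at hg
    induction hg using AddSubgroup.closure_induction with
    | mem g hg =>
      obtain ⟨w, σ, hσ, rfl⟩ := hg
      have h := V0x.mem_of_cont p O P (V0x.tens O P ρ σ) (V0x.cont_tens p O P ρ σ hρ hσ)
      have h2 : (fun g => (V0x.tens O P ρ σ g).trace) =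
          (fun g => (ρ g).trace) * (fun g => (σ g).trace) := by
        funext x
        exact V0x.trace_tens O P ρ σ x
      rw [h2] at h
      exact h
    | zero => rw [mul_zero]; exact zero_mem _
    | add x y _ _ hx hy => rw [mul_add]; exact add_mem hx hy
    | neg x _ hx => rw [mul_neg]; exact neg_mem hx
  | zero => rw [zero_mul]; exact zero_mem _
  | add x y _ _ hx hy => rw [add_mul]; exact add_mem hx hy
  | neg x _ hx => rw [neg_mul]; exact neg_mem hx

theorem ACO.const (z : ℤ) : (fun _ => (z : O)) ∈ ACO p O P := by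
  have h : (fun _ : P => (1 : O)) ∈ ACO p O P := by
    have h1 := V0x.mem_of_cont p O P (1 : P →* Matrix (Fin 1) (Fin 1) O) (by
      intro n g _ i j
      simp)
    have h2 : (fun g : P => ((1 : P →* Matrix (Fin 1) (Fin 1) O) g).trace) =
        fun _ => (1 : O) := by
      funext g
      simp
    rw [h2] at h1
    exact h1
  have h2 := zsmul_mem h z
  have h3 : z • (fun _ : P => (1 : O)) = fun _ => (z : O) := by
    funext x
    simp
  rw [h3] at h2
  exact h2

theorem ACO.comap {B : Type} [Ring B] (P' : Subgroup Bˣ) (π : A →+* B)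
    (hπ : ∀ u ∈ P, Units.map (π : A →* B) u ∈ P') {f : P' → O} (hf : f ∈ ACO p O P') :
    (fun u : P => f ⟨Units.map (π : A →* B) u, hπ u u.2⟩) ∈ ACO p O P := by
  unfold ACO at hf
  induction hf using AddSubgroup.closure_induction with
  | mem f hf =>
    obtain ⟨v, ρ, hρ, rfl⟩ := hf
    let θ : P →* P' := ((Units.map (π : A →* B)).comp P.subtype).codRestrict P'
      (fun u => hπ u u.2)
    have h := V0x.mem_of_cont p O P (ρ.comp θ) (by
      intro n g hg i j
      obtain ⟨a, ha⟩ := hg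
      refine hρ n (θ g) ⟨π a, ?_⟩ i j
      change π ((g : Aˣ) : A) = _
      rw [ha]
      simp)
    exact h
  | zero => exact zero_mem _
  | add x y _ _ hx hy => exact add_mem hx hy
  | neg x _ hx => exact neg_mem hx

/-- matrix representations given by ring homomorphisms -/
theorem ACO.of_ringHom (v : ℕ) (π : A →+* Matrix (Fin v) (Fin v) O) :
    (fun u : P => (π ((u : Aˣ) : A)).trace) ∈ ACO p O P := by
  let θ : P →* Matrix (Fin v) (Fin v) O :=
    ((π : A →* Matrix (Fin v) (Fin v) O).comp (Units.coeHom A)).comp P.subtype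
  refine V0x.mem_of_cont p O P θ ?_
  intro n g hg i j
  obtain ⟨a, ha⟩ := hg
  have h1 : θ g - 1 = (p : O) ^ n • π a := by
    change π ((g : Aˣ) : A) - 1 = _
    rw [ha, map_add, map_one, map_mul, map_pow, map_natCast, add_sub_cancel_left]
    rw [Algebra.smul_def, map_pow, map_natCast]
  rw [h1, Matrix.smul_apply, smul_eq_mul]
  exact Dvd.intro _ rfl

end Q

section ac
variable (p : ℕ) (O : Type) [CommRing O] {A : Type} [Ring A] (P : Subgroup Aˣ)

/-- the characters are uniformly continuous -/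
theorem aco_cont {f : P → O} (hf : f ∈ ACO p O P) (N : ℕ) (x y : P)
    (hxy : ∃ a : A, (((x⁻¹ * y : P) : Aˣ) : A) = 1 + (p : A) ^ N * a) :
    (p : O) ^ N ∣ f y - f x := by
  unfold ACO at hf
  induction hf using AddSubgroup.closure_induction with
  | mem f hf =>
    obtain ⟨v, ρ, hρ, rfl⟩ := hf
    have h1 := hρ N _ hxy
    choose c hc using h1
    have h2 : ρ y = ρ x + (p : O) ^ N • (ρ x * Matrix.of c) := by
      have h3 : ρ (x⁻¹ * y) = 1 + (p : O) ^ N • Matrix.of c := by
        ext i j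
        have := hc i j
        simp only [Matrix.sub_apply, Matrix.add_apply, Matrix.smul_apply, Matrix.of_apply,
          smul_eq_mul] at this ⊢
        linear_combination this
      calc ρ y = ρ x * ρ (x⁻¹ * y) := by rw [← map_mul]; congr 1; group
        _ = _ := by rw [h3, mul_add, mul_one, Matrix.mul_smul]
    simp only [h2, Matrix.trace_add, Matrix.trace_smul, smul_eq_mul]
    exact ⟨(ρ x * Matrix.of c).trace, by ring⟩
  | zero => simp
  | add f g _ _ h1 h2 =>
    have : (f + g) y - (f + g) x = (f y - f x) + (g y - g x) := by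
      simp only [Pi.add_apply]; ring
    rw [this]; exact dvd_add h1 h2
  | neg f _ h1 =>
    have : (-f) y - (-f) x = -(f y - f x) := by simp only [Pi.neg_apply]; ring
    rw [this]; exact (dvd_neg).2 h1


end ac

open Nx in
theorem near_torsionO (p : ℕ) [Fact p.Prime] (O : Type) [CommRing O] (A : Type) [Ring A] [Algebra ℤ_[p] A]
    [Module.Free ℤ_[p] A] [Module.Finite ℤ_[p] A] (P : Subgroup Aˣ) (k : ℕ) (hk : 2 < p ^ k)
    (hP : ∀ u : Aˣ, (∃ a : A, (u : A) = 1 + (p : A) ^ k * a) → u ∈ P)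
    (f : P → O) (hf : f ∈ ACO p O P)
    (hf0 : ∀ t : P, t ≠ 1 → ∀ a : ℕ, t ^ (p ^ a) = 1 → f t = 0) (u N : ℕ) :
    ∃ n₀ : ℕ, ∀ g : P, (¬ ∃ a : A, ((g : Aˣ) : A) = 1 + (p : A) ^ k * a) →
      (∃ a : A, (((g ^ (p ^ u) : P) : Aˣ) : A) = 1 + (p : A) ^ n₀ * a) →
        (p : O) ^ N ∣ f g := by
  by_contra hcon
  push Not at hcon
  choose g hg1 hg2 hg3 using hcon
  obtain ⟨l, φ, hφ, hl⟩ := subseq (p := p) (fun n => ((g n : Aˣ) : A))
  -- the limit has finite order
  have hlt : l ^ (p ^ u) = 1 := by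
    have : l ^ (p ^ u) - 1 = 0 := by
      apply sep (p := p)
      intro j
      obtain ⟨n₀, hn₀⟩ := hl j
      obtain ⟨a, ha⟩ := hn₀ (max n₀ j) (le_max_left _ _)
      obtain ⟨b, hb⟩ := pow_congr j _ _ a ha (p ^ u)
      obtain ⟨c, hc⟩ := hg2 (φ (max n₀ j))
      have hj : j ≤ φ (max n₀ j) := (le_max_right n₀ j).trans (hφ.id_le _)
      have hc' : ((g (φ (max n₀ j)) : Aˣ) : A) ^ (p ^ u) = 1 + (p : A) ^ φ (max n₀ j) * c := by
        rw [← hc]; simp
      obtain ⟨i, hi⟩ := Nat.exists_eq_add_of_le hj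
      refine ⟨(p : A) ^ i * c - b, ?_⟩
      rw [mul_sub, ← mul_assoc, ← pow_add, ← hi]
      rw [hc'] at hb
      have : l ^ p ^ u - 1 = (1 + (p : A) ^ φ (max n₀ j) * c) - (p : A) ^ j * b - 1 := by
        rw [hb]; abel
      rw [this]; abel
    exact sub_eq_zero.1 this
  have hpu : p ^ u ≠ 0 := pow_ne_zero _ (Fact.out : p.Prime).ne_zero
  let L : Aˣ := Units.ofPowEqOne l (p ^ u) hlt hpu
  have hLl : (L : A) = l := rfl
  -- quotients
  have hq : ∀ j : ℕ, ∃ n₀ : ℕ, ∀ n, n₀ ≤ n →
      ∃ a : A, ((L⁻¹ * (g (φ n) : Aˣ) : Aˣ) : A) = 1 + (p : A) ^ j * a := by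
    intro j
    obtain ⟨n₀, hn₀⟩ := hl j
    refine ⟨n₀, fun n hn => ?_⟩
    obtain ⟨a, ha⟩ := hn₀ n hn
    refine ⟨((L⁻¹ : Aˣ) : A) * a, ?_⟩
    rw [Units.val_mul, ha, mul_add, ← mul_assoc, cast_comm, mul_assoc, ← hLl, Units.inv_mul]
  have hLP : L ∈ P := by
    obtain ⟨n₀, hn₀⟩ := hq k
    have h1 := hP _ (hn₀ n₀ le_rfl)
    have h2 := P.mul_mem (g (φ n₀)).2 (P.inv_mem h1)
    rw [mul_inv_rev, inv_inv, mul_inv_cancel_left] at h2
    exact h2
  have hne : (⟨L, hLP⟩ : P) ≠ 1 := by
    intro h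
    have h1 : L = 1 := congrArg Subtype.val h
    obtain ⟨n₀, hn₀⟩ := hq k
    obtain ⟨a, ha⟩ := hn₀ n₀ le_rfl
    apply hg1 (φ n₀)
    rw [h1, inv_one, one_mul] at ha
    exact ha
  have hf1 := hf0 ⟨L, hLP⟩ hne u (by
    apply Subtype.ext
    apply Units.ext
    change l ^ (p ^ u) = 1
    exact hlt)
  obtain ⟨n₀, hn₀⟩ := hq N
  have h2 := aco_cont p O P hf N ⟨L, hLP⟩ (g (φ n₀)) (hn₀ n₀ le_rfl)
  rw [hf1, sub_zero] at h2
  exact hg3 _ h2


end Pool.Agent.H371.SC
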