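import Pool.Agent.H371.SC.Defs
import Pool.Agent.H371.SA.TK

/-!
TASK SC-1 (helper200, adapted from SA/TK.lean by helper168): twisted coinvariants with
coefficients in a finite free `ℤ_p`-algebra `O`.
-/

set_option autoImplicit false
set_option linter.unusedSectionVars false

namespace Pool.Agent.H371.SC

open Pool.Agent.H371.SA

namespace SC1x

open Matrix

/-! ### completeness of `O` -/
section lim
variable (p : ℕ) [Fact p.Prime] (O : Type) [CommRing O]

/-- reduction modulo `p ^ n` -/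
noncomputable abbrev On (n : ℕ) : Type := O ⧸ Ideal.span {(p : O) ^ n}

/-- reduction modulo `p ^ n` -/
noncomputable def rO (n : ℕ) : O →+* On p O n := Ideal.Quotient.mk _

variable {p O}

theorem rO_eq_zero_iff (n : ℕ) (x : O) : rO p O n x = 0 ↔ (p : O) ^ n ∣ x := by
  unfold rO
  rw [Ideal.Quotient.eq_zero_iff_mem, Ideal.mem_span_singleton]

theorem rO_surj (n : ℕ) : Function.Surjective (rO p O n) := Ideal.Quotient.mk_surjective

variable (p O) in
/-- the transition maps -/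
noncomputable def cO (n : ℕ) : On p O (n + 1) →+* On p O n :=
  Ideal.Quotient.factor (by
    rw [Ideal.span_singleton_le_span_singleton]
    exact pow_dvd_pow _ (Nat.le_succ n))

theorem cO_rO (n : ℕ) (x : O) : cO p O n (rO p O (n + 1) x) = rO p O n x := rfl

variable [Algebra ℤ_[p] O]

theorem smul_pow (n : ℕ) (x : O) : ((p : ℤ_[p]) ^ n) • x = (p : O) ^ n * x := by
  rw [Algebra.smul_def, map_pow, map_natCast]

variable [Module.Free ℤ_[p] O] [Module.Finite ℤ_[p] O]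

theorem dvd_iff (n : ℕ) (x : O) : (p : O) ^ n ∣ x ↔
    ∀ i, (p : ℤ_[p]) ^ n ∣ (Module.Free.chooseBasis ℤ_[p] O).repr x i := by
  constructor
  · rintro ⟨y, rfl⟩ i
    rw [← smul_pow, map_smul, Finsupp.smul_apply, smul_eq_mul]
    exact dvd_mul_right _ _
  · intro h
    choose c hc using h
    refine ⟨∑ i, c i • Module.Free.chooseBasis ℤ_[p] O i, ?_⟩
    rw [← smul_pow, Finset.smul_sum]
    conv_lhs => rw [← (Module.Free.chooseBasis ℤ_[p] O).sum_repr x]
    refine Finset.sum_congr rfl fun i _ => ?_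
    rw [hc i, mul_smul]

theorem lim_Zp (c : ℕ → ℤ_[p]) (hc : ∀ n, (p : ℤ_[p]) ^ n ∣ c (n + 1) - c n) :
    ∃ y : ℤ_[p], ∀ n, (p : ℤ_[p]) ^ n ∣ y - c n := by
  obtain ⟨y, hy⟩ := Kx.exists_lim (fun n => PadicInt.toZModPow n (c n)) (fun n => by
    have h1 : ZMod.castHom (pow_dvd_pow p (Nat.le_succ n)) (ZMod (p ^ n))
        (PadicInt.toZModPow (n + 1) (c (n + 1))) = PadicInt.toZModPow n (c (n + 1)) :=
      congrArg (fun F => F (c (n + 1)))
        (PadicInt.zmod_cast_comp_toZModPow (p := p) n (n + 1) (Nat.le_succ n))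
    rw [h1, ← sub_eq_zero, ← map_sub, Kx.toZMod_eq_zero_iff]
    exact hc n)
  refine ⟨y, fun n => ?_⟩
  rw [← Kx.toZMod_eq_zero_iff, map_sub, hy n, sub_self]

theorem exists_limO (x : (n : ℕ) → On p O n) (hx : ∀ n, cO p O n (x (n + 1)) = x n) :
    ∃ y : O, ∀ n, rO p O n y = x n := by
  choose X hX using fun n => rO_surj (p := p) (O := O) n (x n)
  have h1 : ∀ n, (p : O) ^ n ∣ X (n + 1) - X n := by
    intro n
    rw [← rO_eq_zero_iff, map_sub, sub_eq_zero, hX n, ← hx n, ← hX (n + 1), cO_rO]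
  have h2 : ∀ i, ∃ y : ℤ_[p], ∀ n,
      (p : ℤ_[p]) ^ n ∣ y - (Module.Free.chooseBasis ℤ_[p] O).repr (X n) i := by
    intro i
    refine lim_Zp _ fun n => ?_
    have := (dvd_iff n _).1 (h1 n) i
    rwa [map_sub, Finsupp.sub_apply] at this
  choose y hy using h2
  refine ⟨∑ i, y i • Module.Free.chooseBasis ℤ_[p] O i, fun n => ?_⟩
  rw [← hX n, ← sub_eq_zero, ← map_sub, rO_eq_zero_iff, dvd_iff]
  intro i
  rw [map_sub, Finsupp.sub_apply, Module.Basis.repr_sum_self]
  exact hy i n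

theorem sep_Zp (c : ℤ_[p]) (h : ∀ n : ℕ, (p : ℤ_[p]) ^ n ∣ c) : c = 0 := by
  rw [← PadicInt.ext_of_toZModPow]
  intro n
  rw [map_zero, Kx.toZMod_eq_zero_iff]
  exact h n

theorem sepO (x : O) (h : ∀ n : ℕ, rO p O n x = 0) : x = 0 := by
  apply (Module.Free.chooseBasis ℤ_[p] O).repr.injective
  rw [map_zero]
  ext i
  rw [Finsupp.zero_apply]
  exact sep_Zp _ fun n => (dvd_iff n x).1 ((rO_eq_zero_iff n x).1 (h n)) i

end lim

/-! ### the extension of a representation -/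
section ext
variable {G : Type} [Group G] {p : ℕ} [Fact p.Prime] {T : Tower G} {v : ℕ} {O : Type} [CommRing O]
  [Algebra ℤ_[p] O] [Module.Free ℤ_[p] O] [Module.Finite ℤ_[p] O]
  (ρ : G →* Matrix (Fin v) (Fin v) O)
  (hρ : ∀ n, ∀ g ∈ T.U n, ∀ i j, (p : O) ^ n ∣ (ρ g - 1) i j)

/-- scalars -/
noncomputable def zO (p : ℕ) [Fact p.Prime] (O : Type) [CommRing O] [Algebra ℤ_[p] O] (n : ℕ) :
    ℤ_[p] →+* On p O n := (rO p O n).comp (algebraMap ℤ_[p] O)

theorem zO_apply (n : ℕ) (x : ℤ_[p]) : zO p O n x = rO p O n (algebraMap ℤ_[p] O x) := rfl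

/-- reduction of matrices -/
noncomputable def rm (p : ℕ) [Fact p.Prime] (O : Type) [CommRing O] (v n : ℕ) :
    Matrix (Fin v) (Fin v) O →+* Matrix (Fin v) (Fin v) (On p O n) :=
  (rO p O n).mapMatrix

theorem rm_apply (n : ℕ) (X : Matrix (Fin v) (Fin v) O) (i j : Fin v) :
    rm p O v n X i j = rO p O n (X i j) := rfl

theorem rm_ext {X Y : Matrix (Fin v) (Fin v) O} (h : ∀ n, rm p O v n X = rm p O v n Y) :
    X = Y := by
  ext i j
  rw [← sub_eq_zero]
  refine sepO (p := p) _ fun n => ?_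
  rw [map_sub, sub_eq_zero]
  exact congrFun (congrFun (h n) i) j

include hρ in
theorem rm_of_mem (n : ℕ) (g : G) (hg : g ∈ T.U n) : rm p O v n (ρ g) = 1 := by
  have h : rm p O v n (ρ g - 1) = 0 := by
    ext i j
    rw [rm_apply, (rO_eq_zero_iff n _).2 (hρ n g hg i j)]; rfl
  rw [map_sub, map_one, sub_eq_zero] at h
  exact h

/-- the representation modulo `p ^ n` -/
noncomputable def rq (n : ℕ) : T.Q n →* Matrix (Fin v) (Fin v) (On p O n) :=
  QuotientGroup.lift (T.U n)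
    (((rm p O v n : Matrix (Fin v) (Fin v) O →+* Matrix (Fin v) (Fin v) (On p O n)) :
      Matrix (Fin v) (Fin v) O →* Matrix (Fin v) (Fin v) (On p O n)).comp ρ)
    (fun g hg => MonoidHom.mem_ker.2 (rm_of_mem ρ hρ n g hg))

theorem rq_mk (n : ℕ) (g : G) : rq ρ hρ n (g : T.Q n) = rm p O v n (ρ g) := rfl

/-- the ring homomorphism modulo `p ^ n` -/
noncomputable def rr (n : ℕ) :
    MonoidAlgebra ℤ_[p] (T.Q n) →+* Matrix (Fin v) (Fin v) (On p O n) :=
  MonoidAlgebra.liftNCRingHom ((Matrix.scalar (Fin v)).comp (zO p O n)) (rq ρ hρ n)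
    (fun _ _ => (Matrix.scalar_commute _ (fun _ => Commute.all _ _) _))

theorem rr_single (n : ℕ) (q : T.Q n) (c : ℤ_[p]) : rr ρ hρ n (MonoidAlgebra.single q c) =
    zO p O n c • rq ρ hρ n q := by
  unfold rr
  rw [MonoidAlgebra.liftNCRingHom_single, Matrix.smul_eq_diagonal_mul]
  rfl

theorem rr_apply (n : ℕ) (y : MonoidAlgebra ℤ_[p] (T.Q n)) : rr ρ hρ n y =
    ∑ q : T.Q n, zO p O n (y.coeff q) • rq ρ hρ n q := by
  classical
  induction y using MonoidAlgebra.induction_linear with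
  | zero => simp
  | add f g hf hg =>
    rw [map_add, hf, hg, ← Finset.sum_add_distrib]
    refine Finset.sum_congr rfl fun q _ => ?_
    rw [MonoidAlgebra.coeff_add, Finsupp.add_apply, map_add, add_smul]
  | single q c =>
    rw [rr_single, Finset.sum_eq_single q]
    · rw [MonoidAlgebra.coeff_single, Finsupp.single_eq_same]
    · intro q' _ h
      rw [MonoidAlgebra.coeff_single, Finsupp.single_eq_of_ne h, map_zero, zero_smul]
    · intro h; exact absurd (Finset.mem_univ _) h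

theorem rr_compat (n : ℕ) (y : MonoidAlgebra ℤ_[p] (T.Q (n + 1))) :
    (cO p O n).mapMatrix (rr ρ hρ (n + 1) y) =
    rr ρ hρ n (MonoidAlgebra.mapDomainAlgHom ℤ_[p] ℤ_[p] (T.tr n) y) := by
  have key : ∀ x : ℤ_[p], cO p O n (zO p O (n + 1) x) = zO p O n x := fun x => rfl
  induction y using MonoidAlgebra.induction_linear with
  | zero => simp
  | add f g hf hg => rw [map_add, map_add, hf, hg, map_add, map_add]
  | single q c =>
    have h1 : MonoidAlgebra.mapDomainAlgHom ℤ_[p] ℤ_[p] (T.tr n) (MonoidAlgebra.single q c) =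
        MonoidAlgebra.single (T.tr n q) c := MonoidAlgebra.mapDomain_single
    rw [h1, rr_single, rr_single]
    obtain ⟨g, rfl⟩ := QuotientGroup.mk_surjective q
    have h2 : T.tr n ((g : G) : T.Q (n + 1)) = ((g : G) : T.Q n) := rfl
    rw [h2, rq_mk, rq_mk]
    ext i j
    simp only [RingHom.mapMatrix_apply, Matrix.map_apply, Matrix.smul_apply, smul_eq_mul, map_mul,
      key, rm_apply, cO_rO]

theorem exists_rho (a : Lam ℤ_[p] T) : ∃ X : Matrix (Fin v) (Fin v) O,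
    ∀ n, rm p O v n X = rr ρ hρ n (Lam.proj ℤ_[p] T n a) := by
  have h : ∀ i j, ∃ y : O, ∀ n, rO p O n y =
      rr ρ hρ n (Lam.proj ℤ_[p] T n a) i j := by
    intro i j
    refine exists_limO _ fun n => ?_
    have h1 := rr_compat ρ hρ n (Lam.proj ℤ_[p] T (n + 1) a)
    have h2 : MonoidAlgebra.mapDomainAlgHom ℤ_[p] ℤ_[p] (T.tr n) (Lam.proj ℤ_[p] T (n + 1) a) =
      Lam.proj ℤ_[p] T n a := a.2 n
    rw [h2] at h1
    exact congrFun (congrFun h1 i) j
  choose X hX using h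
  exact ⟨X, fun n => by ext i j; exact hX i j n⟩

/-- the extension of the representation -/
noncomputable def rh (a : Lam ℤ_[p] T) : Matrix (Fin v) (Fin v) O :=
  (exists_rho ρ hρ a).choose

theorem rh_spec (a : Lam ℤ_[p] T) (n : ℕ) :
    rm p O v n (rh ρ hρ a) = rr ρ hρ n (Lam.proj ℤ_[p] T n a) := (exists_rho ρ hρ a).choose_spec n

theorem rh_mul (a c : Lam ℤ_[p] T) : rh ρ hρ (a * c) = rh ρ hρ a * rh ρ hρ c := by
  apply rm_ext (p := p)
  intro n
  rw [map_mul, rh_spec, rh_spec, rh_spec, map_mul, map_mul]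

theorem rh_sum {ι : Type} (S : Finset ι) (f : ι → Lam ℤ_[p] T) :
    rh ρ hρ (∑ i ∈ S, f i) = ∑ i ∈ S, rh ρ hρ (f i) := by
  apply rm_ext (p := p)
  intro n
  rw [rh_spec, map_sum, map_sum, map_sum]
  exact Finset.sum_congr rfl fun i _ => (rh_spec ρ hρ (f i) n).symm

theorem rh_of (g : G) : rh ρ hρ (Lam.of ℤ_[p] T g) = ρ g := by
  apply rm_ext (p := p)
  intro n
  rw [rh_spec, Kx.proj_of, rr_single, map_one, one_smul, rq_mk]

end ext

/-! ### the homomorphism and its trace -/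
section hom
variable {G : Type} [Group G] {p : ℕ} [Fact p.Prime] {T : Tower G} {E : Type} [AddCommGroup E]
  [Module (Lam ℤ_[p] T) E] {s : ℕ} (b : Module.Basis (Fin s) (Om ℤ_[p] T) E) {v : ℕ}
  {O : Type} [CommRing O] [IsDomain O] [Algebra ℤ_[p] O] [Module.Free ℤ_[p] O]
  [Module.Finite ℤ_[p] O]
  (ρ : G →* Matrix (Fin v) (Fin v) O)
  (hρ : ∀ n, ∀ g ∈ T.U n, ∀ i j, (p : O) ^ n ∣ (ρ g - 1) i j)

theorem rh_zero : rh ρ hρ (0 : Lam ℤ_[p] T) = 0 := by
  have := rh_sum ρ hρ (∅ : Finset ℕ) (fun _ => 0)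
  simpa using this

theorem rho_inv_mul (x : G) : ρ x * ρ x⁻¹ = 1 := by rw [← map_mul, mul_inv_cancel, map_one]

theorem mm_of_mem (u : G) (hu : u ∈ T.U 0) (j k : Fin s) :
    ρ u * rh ρ hρ (Om.incl ℤ_[p] T (Kx.al b u⁻¹ j k)) =
      (1 : Matrix (Fin s) (Fin s) (Matrix (Fin v) (Fin v) O)) j k := by
  obtain ⟨a, ha⟩ := Kx.exists_of ℤ_[p] T u⁻¹ (inv_mem hu)
  have h := Kx.al_mul_left b u⁻¹ 1 a ha j k
  rw [mul_one, Kx.al_one] at h
  rw [h, Matrix.one_apply]
  by_cases hjk : j = k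
  · rw [if_pos hjk.symm, if_pos hjk, mul_one, ha, rh_of, rho_inv_mul]
  · rw [if_neg (Ne.symm hjk), if_neg hjk, mul_zero, map_zero, rh_zero, mul_zero]

/-- the action on the twisted coinvariants -/
noncomputable def MM : G →* Matrix (Fin s) (Fin s) (Matrix (Fin v) (Fin v) O) where
  toFun x := Matrix.of fun j k => ρ x * rh ρ hρ (Om.incl ℤ_[p] T (Kx.al b x⁻¹ j k))
  map_one' := by
    ext1 j k
    exact mm_of_mem b ρ hρ 1 (one_mem _) j k
  map_mul' x y := by
    ext1 j k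
    rw [Matrix.mul_apply]
    simp only [Matrix.of_apply]
    rw [_root_.mul_inv_rev, Kx.al_mul, map_sum, rh_sum, Finset.mul_sum]
    refine Finset.sum_congr rfl fun l _ => ?_
    rw [map_mul ρ, map_mul (Om.incl ℤ_[p] T), rh_mul, Kx.cj_spec, rh_mul, rh_mul, rh_of, rh_of,
      inv_inv]
    have h := rho_inv_mul ρ y
    calc ρ x * ρ y * (ρ y⁻¹ * rh ρ hρ (Om.incl ℤ_[p] T (Kx.al b x⁻¹ j l)) * ρ y *
          rh ρ hρ (Om.incl ℤ_[p] T (Kx.al b y⁻¹ l k)))
        = ρ x * (ρ y * ρ y⁻¹) * rh ρ hρ (Om.incl ℤ_[p] T (Kx.al b x⁻¹ j l)) *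
          (ρ y * rh ρ hρ (Om.incl ℤ_[p] T (Kx.al b y⁻¹ l k))) := by noncomm_ring
      _ = _ := by rw [h, mul_one]

theorem MM_apply (x : G) (j k : Fin s) : MM b ρ hρ x j k =
    ρ x * rh ρ hρ (Om.incl ℤ_[p] T (Kx.al b x⁻¹ j k)) := rfl

theorem MM_of_mem (u : G) (hu : u ∈ T.U 0) : MM b ρ hρ u = 1 := by
  ext1 j k
  exact mm_of_mem b ρ hρ u hu j k

/-- the representation of the finite group -/
noncomputable def MQ : T.Q 0 →* Matrix (Fin s × Fin v) (Fin s × Fin v) (FractionRing O) :=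
  QuotientGroup.lift (T.U 0)
    ((((algebraMap O (FractionRing O)).mapMatrix.comp
      (Matrix.compRingEquiv (Fin s) (Fin v) O : _ →+* _) :
        Matrix (Fin s) (Fin s) (Matrix (Fin v) (Fin v) O) →+*
          Matrix (Fin s × Fin v) (Fin s × Fin v) (FractionRing O)) :
      Matrix (Fin s) (Fin s) (Matrix (Fin v) (Fin v) O) →*
        Matrix (Fin s × Fin v) (Fin s × Fin v) (FractionRing O)).comp (MM b ρ hρ))
    (fun g hg => MonoidHom.mem_ker.2 (by
      rw [MonoidHom.comp_apply, MM_of_mem b ρ hρ g hg, map_one]))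

theorem MQ_trace (x : G) : (MQ b ρ hρ (x : T.Q 0)).trace =
    algebraMap O (FractionRing O) (∑ j, (MM b ρ hρ x j j).trace) := by
  have h : MQ b ρ hρ (x : T.Q 0) = (algebraMap O (FractionRing O)).mapMatrix
    (Matrix.comp _ _ _ _ _ (MM b ρ hρ x)) := rfl
  rw [h]
  unfold Matrix.trace
  rw [Fintype.sum_prod_type, map_sum]
  refine Finset.sum_congr rfl fun j _ => ?_
  rw [map_sum]
  rfl

open scoped Classical in
theorem trace_MM (n : ℕ) (x : G) :
    rO p O n (∑ j, (MM b ρ hρ x j j).trace) =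
      ∑ q : T.Q n, zO p O n (if Kx.pr T n q = (x : T.Q 0) then tQ b n q⁻¹ else 0) *
        (rq ρ hρ n q).trace := by
  have h1 : ∀ X : Matrix (Fin v) (Fin v) O,
      rO p O n X.trace = (rm p O v n X).trace := by
    intro X
    unfold Matrix.trace
    rw [map_sum]
    rfl
  have h2 : ∀ j, (rm p O v n (MM b ρ hρ x j j)).trace = ∑ q : T.Q n,
      zO p O n ((Om.proj ℤ_[p] T n (Kx.al b x⁻¹ j j)).coeff ((x : T.Q n)⁻¹ * q)) *
        (rq ρ hρ n q).trace := by
    intro j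
    rw [MM_apply, map_mul, rh_spec, ← Kx.om_proj_incl, rr_apply, ← rq_mk ρ hρ, Finset.mul_sum,
      Matrix.trace_sum]
    refine Fintype.sum_equiv (Equiv.mulLeft ((x : G) : T.Q n)) _ _ fun u => ?_
    rw [Equiv.coe_mulLeft, inv_mul_cancel_left, map_mul, Matrix.mul_smul, Matrix.trace_smul,
      smul_eq_mul]
  rw [map_sum]
  simp only [h1, h2]
  rw [Finset.sum_comm]
  refine Finset.sum_congr rfl fun q _ => ?_
  rw [← Kx.key b n x q, map_sum, Finset.sum_mul]

end hom

end SC1x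

section SC1
variable {G : Type} [Group G] {p : ℕ} [Fact p.Prime] {T : Tower G} {E : Type} [AddCommGroup E]
  [Module (Lam ℤ_[p] T) E] {s : ℕ} (b : Module.Basis (Fin s) (Om ℤ_[p] T) E)

theorem exists_HO (O : Type) [CommRing O] [IsDomain O] [Algebra ℤ_[p] O] [Module.Free ℤ_[p] O]
    [Module.Finite ℤ_[p] O] (v : ℕ) (ρ : G →* Matrix (Fin v) (Fin v) O)
    (hρ : ∀ n, ∀ g ∈ T.U n, ∀ i j, (p : O) ^ n ∣ (ρ g - 1) i j) :
    ∃ H : ℤ, ∀ n : ℕ, (p : O) ^ n ∣ ((T.U 0).index : O) * H -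
      ∑ q : T.Q n, algebraMap ℤ_[p] O (tQ b n q⁻¹) * (ρ q.out).trace := by
  classical
  have hinj0 : Function.Injective (algebraMap ℤ_[p] O) := FaithfulSMul.algebraMap_injective _ _
  have hch : CharZero O := charZero_of_injective_algebraMap hinj0
  have hinj : Function.Injective (algebraMap O (FractionRing O)) := IsFractionRing.injective _ _
  have hch2 : CharZero (FractionRing O) := charZero_of_injective_algebraMap hinj
  obtain ⟨H, hH⟩ := Kx.finite_trace (SC1x.MQ b ρ hρ)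
  refine ⟨H, fun n => ?_⟩
  have h1 : ((T.U 0).index : O) * (H : O) =
      ∑ γ : T.Q 0, ∑ j, (SC1x.MM b ρ hρ γ.out j j).trace := by
    apply hinj
    rw [map_sum, map_mul, map_natCast, map_natCast]
    have h2 : (T.U 0).index = Nat.card (T.Q 0) := rfl
    rw [h2, ← hH]
    refine Finset.sum_congr rfl fun γ _ => ?_
    rw [← SC1x.MQ_trace]
    congr 2
    exact (QuotientGroup.out_eq' γ).symm
  rw [Int.cast_natCast, h1, ← SC1x.rO_eq_zero_iff, map_sub, sub_eq_zero, map_sum, map_sum]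
  simp only [SC1x.trace_MM b ρ hρ n]
  rw [Finset.sum_comm]
  refine Finset.sum_congr rfl fun q _ => ?_
  rw [← Finset.sum_mul, map_mul]
  congr 1
  · rw [Finset.sum_eq_single (Kx.pr T n q)]
    · rw [if_pos]
      · rfl
      · exact (QuotientGroup.out_eq' _).symm
    · intro γ _ hγ
      rw [if_neg, map_zero]
      intro h
      apply hγ
      rw [h]
      exact (QuotientGroup.out_eq' _).symm
    · intro h; exact absurd (Finset.mem_univ _) h
  · have h3 : SC1x.rq ρ hρ n q = SC1x.rm p O v n (ρ q.out) := by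
      rw [← SC1x.rq_mk ρ hρ n q.out]
      congr 1
      exact (QuotientGroup.out_eq' q).symm
    rw [h3]
    unfold Matrix.trace
    rw [map_sum]
    rfl

end SC1

end Pool.Agent.H371.SC
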