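import Pool.Agent.H371.SB.U0
import Pool.Agent.H371.SC.V0
import Pool.Agent.H371.SC.V1

/-!
The local theorem for characters with values in `O`.
-/

set_option autoImplicit false

namespace Pool.Agent.H371.SC

open Filter Topology
open Pool.Agent.H371.SA Pool.Agent.H371.SB
open Pool.Agent.H80R2.BC (L2 GMat vdim kerA Coef act)
open Pool.Agent.W656.VA
open Pool.Agent.H371.SB.S0x

namespace V2x

theorem ACO_le_VCO {p : ℕ} {O : Type} [CommRing O] {A : Type} [Ring A] {P : Subgroup Aˣ}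
    {T : Tower P} {k : ℕ}
    (hT : ∀ (n : ℕ) (u : P), u ∈ T.U n ↔ ∃ a : A, ((u : Aˣ) : A) = 1 + (p : A) ^ (k + n) * a) :
    ACO p O P ≤ VCO p O T := by
  refine AddSubgroup.closure_mono ?_
  rintro χ ⟨v, ρ, h, rfl⟩
  refine ⟨v, ρ, ?_, rfl⟩
  intro n g hg
  refine h n g ?_
  obtain ⟨a, ha⟩ := (hT n g).1 hg
  refine ⟨(p : A) ^ k * a, ?_⟩
  rw [ha, add_comm k n, pow_add, mul_assoc]

/-- the case of a pro-`p` image: approximation by one finite quotient -/
theorem lim_rank {p : ℕ} [Fact p.Prime] {O : Type} [CommRing O] [IsDomain O]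
    [Algebra ℤ_[p] O] [Module.Free ℤ_[p] O] [Module.Finite ℤ_[p] O] {G : Type} [Group G] {A : Type} [Ring A]
    [Algebra ℤ_[p] A] [Module.Free ℤ_[p] A] [Module.Finite ℤ_[p] A] (P : Subgroup Aˣ) (k : ℕ)
    (φ : G →* P) (f : P → O) (c : ℕ) (hk : 2 < p ^ k)
    (hP : ∀ u : Aˣ, (∃ a : A, (u : A) = 1 + (p : A) ^ k * a) → u ∈ P)
    (hf : f ∈ ACO p O P) (hf1 : f 1 = c)
    (hf0 : ∀ t : P, t ≠ 1 → ∀ a : ℕ, t ^ (p ^ a) = 1 → f t = 0)
    (hpp : ∀ x : P, ∃ a : ℕ, ((x : Aˣ) ^ (p ^ a)) ∈ Cong p A k)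
    {ι κ : Type} [Fintype ι] [Fintype κ] (B : κ → ι → (G →₀ ℤ)) (S : Finset G)
    (hS : ∀ s ∈ S, φ s ≠ 1) (ε : ℝ) (hε : 0 < ε) :
    ∃ (Q : Type) (_ : Group Q) (_ : Finite Q) (g : G →* Q) (z : ℤ), (∀ s ∈ S, g s ≠ 1) ∧
      |(c : ℝ) * rk p B g - z| < ε := by
  classical
  obtain ⟨T, hT, d, ⟨C⟩⟩ := exists_tower p A P k hk hP
  obtain ⟨u, hu⟩ : ∃ u, (T.U 0).index = p ^ u := by
    have h1 : IsPGroup p (P ⧸ T.U 0) := by
      intro q
      obtain ⟨x, rfl⟩ := QuotientGroup.mk_surjective q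
      obtain ⟨a, ha⟩ := hpp x
      refine ⟨a, ?_⟩
      rw [← QuotientGroup.mk_pow, QuotientGroup.eq_one_iff, hT, add_zero]
      rw [SubgroupClass.coe_pow]
      exact ha
    exact IsPGroup.iff_card.1 h1
  have hp : ∀ n, ∃ m, Nat.card (T.Q n) = p ^ m := by
    intro n
    refine ⟨n * d + u, ?_⟩
    have hle : T.U n ≤ T.U 0 := by
      induction n with
      | zero => exact le_rfl
      | succ n ih => exact (T.anti n).trans ih
    have h1 : (T.N n).index = (T.U 0).index := by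
      refine Subgroup.index_map_eq _ (QuotientGroup.mk'_surjective _) ?_
      rw [QuotientGroup.ker_mk']
      exact hle
    rw [← Subgroup.card_mul_index (T.N n), h1, hu, C.card_N, pow_add]
  obtain ⟨n₀, hn₀⟩ := near_torsionO p O A P k hk hP f hf hf0 u u
  let M : Matrix ι κ (Lam ℤ_[p] T) := fun i j =>
    (B j i).sum fun h z => (z : ℤ_[p]) • Lam.of ℤ_[p] T (φ h)⁻¹
  obtain ⟨E, _, _, s, b, z, σ, hσ, hlim⟩ := exists_module p T (reg_of_coord p T C) M
  have hM : ∀ n, M.map (Lam.proj ℤ_[p] T n) = Matrix.of fun (i : ι) (k : κ) =>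
      (B k i).sum fun h z => MonoidAlgebra.single
        (((QuotientGroup.mk' (T.U n)).comp φ) h)⁻¹ (z : ℤ_[p]) := by
    intro n
    refine Matrix.ext fun i j => ?_
    change Lam.proj ℤ_[p] T n ((B j i).sum fun h z => (z : ℤ_[p]) • Lam.of ℤ_[p] T (φ h)⁻¹) = _
    rw [Finsupp.sum, map_sum]
    change _ = (B j i).sum fun h z => MonoidAlgebra.single
        (((QuotientGroup.mk' (T.U n)).comp φ) h)⁻¹ (z : ℤ_[p])
    rw [Finsupp.sum]
    refine Finset.sum_congr rfl fun h _ => ?_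
    rw [map_smul]
    change (((B j i) h : ℤ) : ℤ_[p]) • MonoidAlgebra.single (((φ h)⁻¹ : P) : T.Q n) (1 : ℤ_[p]) = _
    rw [MonoidAlgebra.smul_single, smul_eq_mul, mul_one]
    rfl
  have htr : ((p : ℤ) ^ u) ∣ (c : ℤ) * s := by
    refine trace_mainO b u hu hp f (ACO_le_VCO hT hf) (c : ℤ) (by rw [hf1]; simp) ⟨n₀, ?_⟩
    intro g hg hg2
    refine hn₀ g ?_ ?_
    · intro h
      apply hg
      rw [hT]
      simpa using h
    · obtain ⟨a, ha⟩ := (hT n₀ _).1 hg2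
      refine ⟨(p : A) ^ k * a, ?_⟩
      rw [ha, add_comm k n₀, pow_add, mul_assoc]
  obtain ⟨e, he⟩ := htr
  have hpu : ((p : ℝ) ^ u) ≠ 0 := pow_ne_zero _ (by exact_mod_cast (Fact.out : p.Prime).ne_zero)
  have he' : (c : ℝ) * s = (p : ℝ) ^ u * e := by exact_mod_cast he
  have hlim2 : Tendsto (fun n => (c : ℝ) * rk p B ((QuotientGroup.mk' (T.U n)).comp φ)) atTop
      (𝓝 ((c * z + σ * e : ℤ) : ℝ)) := by
    have h1 := hlim.const_mul ((c : ℝ) / (p : ℝ) ^ u)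
    have h2 : (c : ℝ) / (p : ℝ) ^ u * ((z : ℝ) * (T.U 0).index + σ * s) =
        ((c * z + σ * e : ℤ) : ℝ) := by
      rw [hu]
      push_cast
      field_simp
      linear_combination (σ : ℝ) * he'
    rw [h2] at h1
    refine h1.congr fun n => ?_
    rw [rk, hM n, hu]
    push_cast
    field_simp
  have h1 : ∀ᶠ n in atTop, ∀ s ∈ S, ((QuotientGroup.mk' (T.U n)).comp φ) s ≠ 1 := by
    rw [Filter.eventually_all_finset]
    intro s hs
    filter_upwards [Sx.sep C (φ s) (hS s hs)] with n hn h2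
    exact hn ((QuotientGroup.eq_one_iff _).1 h2)
  have h2 : ∀ᶠ n in atTop, |(c : ℝ) * rk p B ((QuotientGroup.mk' (T.U n)).comp φ) -
      ((c * z + σ * e : ℤ) : ℝ)| < ε := by
    have := (Metric.tendsto_nhds.1 hlim2) ε hε
    simpa [Real.dist_eq] using this
  obtain ⟨n, hn1, hn2⟩ := (h1.and h2).exists
  exact ⟨T.Q n, inferInstance, inferInstance, (QuotientGroup.mk' (T.U n)).comp φ, _, hn1, hn2⟩

/-- enlarging the order -/
theorem step {p : ℕ} [Fact p.Prime] {O : Type} [CommRing O] [IsDomain O]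
    [Algebra ℤ_[p] O] [Module.Free ℤ_[p] O] [Module.Finite ℤ_[p] O] {H : Type} [Group H] {A : Type} [Ring A]
    [Algebra ℤ_[p] A] [Module.Free ℤ_[p] A] [Module.Finite ℤ_[p] A] (P : Subgroup Aˣ) (k : ℕ)
    (φ : H →* P) (f : P → O) (c : ℕ) (hk : 2 < p ^ k)
    (hP : ∀ u : Aˣ, (∃ a : A, (u : A) = 1 + (p : A) ^ k * a) → u ∈ P)
    (hf : f ∈ ACO p O P) (hf1 : f 1 = c)
    (hf0 : ∀ t : P, t ≠ 1 → ∀ a : ℕ, t ^ (p ^ a) = 1 → f t = 0)
    (hpp : ∀ h : H, ∃ a : ℕ, ((φ h : Aˣ) ^ (p ^ a)) ∈ Cong p A k)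
    {B : Type} [Ring B] [Algebra ℤ_[p] B] [Module.Free ℤ_[p] B] [Module.Finite ℤ_[p] B]
    (l : ℕ) (ψ : H →* Bˣ)
    (hψ : ∀ h : H, (∃ a : A, ((φ h : Aˣ) : A) = 1 + (p : A) ^ l * a) →
        ∃ b : B, (ψ h : B) = 1 + (p : B) ^ 2 * b)
    {ι κ : Type} [Fintype ι] [Fintype κ] (X : κ → ι → (H →₀ ℤ)) (S : Finset H)
    (hS : ∀ s ∈ S, ψ s ≠ 1) (ε : ℝ) (hε : 0 < ε) :
    ∃ (Q : Type) (_ : Group Q) (_ : Finite Q) (g : H →* Q) (z : ℤ), (∀ s ∈ S, g s ≠ 1) ∧
      |(c : ℝ) * rk p X g - z| < ε := by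
  classical
  have hk1 : 1 ≤ k := by
    rcases Nat.eq_zero_or_pos k with rfl | h
    · simp at hk
    · exact h
  set L := max k l with hL
  set K := max L 2 with hK
  have hp1 : 1 < p := (Fact.out : p.Prime).one_lt
  have hK2 : 2 < p ^ K := lt_of_lt_of_le hk (Nat.pow_le_pow_right hp1.le
    ((le_max_left k l).trans (le_max_left L 2)))
  let e1 : (A × B)ˣ →* Aˣ := Units.map (MonoidHom.fst A B)
  let e2 : (A × B)ˣ →* Bˣ := Units.map (MonoidHom.snd A B)
  let V : Subgroup (A × B)ˣ := (Cong p A L).comap e1 ⊓ (Cong p B 2).comap e2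
  have hVmem : ∀ u, u ∈ V ↔ e1 u ∈ Cong p A L ∧ e2 u ∈ Cong p B 2 := fun u => Iff.rfl
  let Φ : H →* (A × B)ˣ :=
    (MulEquiv.prodUnits.symm : Aˣ × Bˣ ≃* (A × B)ˣ).toMonoidHom.comp
      ((P.subtype.comp φ).prod ψ)
  have hΦ1 : ∀ h, e1 (Φ h) = (φ h : Aˣ) := fun h => Units.ext rfl
  have hΦ2 : ∀ h, e2 (Φ h) = ψ h := fun h => Units.ext rfl
  let P' : Subgroup (A × B)ˣ := (((QuotientGroup.mk' V).comp Φ).range).comap (QuotientGroup.mk' V)
  have hP'mem : ∀ u : (A × B)ˣ, u ∈ P' ↔ ∃ h, (Φ h)⁻¹ * u ∈ V := by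
    intro u
    constructor
    · rintro ⟨h, hh⟩
      exact ⟨h, QuotientGroup.eq.1 hh⟩
    · rintro ⟨h, hh⟩
      exact ⟨h, QuotientGroup.eq.2 hh⟩
  have hP' : ∀ u : (A × B)ˣ, (∃ a : A × B, (u : A × B) = 1 + (p : A × B) ^ K * a) → u ∈ P' := by
    rintro u ⟨a, ha⟩
    rw [hP'mem]
    refine ⟨1, ?_⟩
    rw [map_one, inv_one, one_mul, hVmem]
    rw [← Nat.cast_pow] at ha
    constructor
    · refine cong_mono (le_max_left L 2) ⟨a.1, ?_⟩
      change (u : A × B).1 = _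
      rw [ha, Prod.fst_add, Prod.fst_one, Prod.fst_mul, Prod.fst_natCast, Nat.cast_pow]
    · refine cong_mono (le_max_right L 2) ⟨a.2, ?_⟩
      change (u : A × B).2 = _
      rw [ha, Prod.snd_add, Prod.snd_one, Prod.snd_mul, Prod.snd_natCast, Nat.cast_pow]
  have hPV : ∀ u : (A × B)ˣ, u ∈ V → e1 u ∈ P := fun u hu =>
    hP _ (cong_mono (le_max_left k l) ((hVmem u).1 hu).1)
  have hπ : ∀ u ∈ P', Units.map ((RingHom.fst A B : A × B →+* A) : A × B →* A) u ∈ P := by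
    intro u hu
    obtain ⟨h, hh⟩ := (hP'mem u).1 hu
    have h1 : u = Φ h * ((Φ h)⁻¹ * u) := by group
    change e1 u ∈ P
    rw [h1, map_mul, hΦ1]
    exact P.mul_mem (φ h).2 (hPV _ hh)
  let f' : P' → O := fun u => f ⟨Units.map ((RingHom.fst A B : A × B →+* A) : A × B →* A) u,
    hπ u u.2⟩
  let Φ' : H →* P' := Φ.codRestrict P' (fun h => (hP'mem _).2 ⟨h, by
    rw [inv_mul_cancel]; exact one_mem V⟩)
  refine lim_rank P' K Φ' f' c hK2 hP' (ACO.comap p O P' P (RingHom.fst A B) hπ hf) ?_ ?_ ?_ X S ?_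
    ε hε
  · change f ⟨Units.map _ ((1 : P') : (A × B)ˣ), _⟩ = _
    rw [← hf1]
    congr 1
  · intro t ht a hta
    by_cases hx : (⟨Units.map ((RingHom.fst A B : A × B →+* A) : A × B →* A) t, hπ t t.2⟩ : P) = 1
    · exfalso
      apply ht
      obtain ⟨h, hh⟩ := (hP'mem t).1 t.2
      have h1 : e1 t = 1 := congrArg (fun w : P => (w : Aˣ)) hx
      -- the image of `h` is congruent to one
      have h2 : (φ h : Aˣ) ∈ Cong p A l := by
        have h3 := ((hVmem _).1 hh).1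
        rw [map_mul, map_inv, h1, mul_one, hΦ1] at h3
        have h4 := (Cong p A L).inv_mem h3
        rw [inv_inv] at h4
        exact cong_mono (le_max_right k l) h4
      have h3 : e2 t ∈ Cong p B 2 := by
        have h4 := ((hVmem _).1 hh).2
        have h5 : e2 t = ψ h * (e2 ((Φ h)⁻¹ * t)) := by
          rw [map_mul, map_inv, hΦ2]; group
        rw [h5]
        exact (Cong p B 2).mul_mem (hψ h h2) h4
      obtain ⟨b, hb⟩ := h3
      have h4 : ((e2 t : Bˣ) : B) = 1 := by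
        refine torsion_free p B 2 ?_ _ b hb (p ^ a) (pow_pos (by omega) a) ?_
        · nlinarith
        · have h5 : (t : (A × B)ˣ) ^ (p ^ a) = 1 := by
            rw [← SubgroupClass.coe_pow, hta]; rfl
          rw [← Units.val_pow_eq_pow_val, ← map_pow, h5, map_one, Units.val_one]
      apply Subtype.ext
      apply Units.ext
      exact Prod.ext (congrArg (fun w : Aˣ => (w : A)) h1) h4
    · apply hf0 _ hx a
      apply Subtype.ext
      change (e1 (t : (A × B)ˣ)) ^ (p ^ a) = 1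
      rw [← map_pow, ← SubgroupClass.coe_pow, hta]
      exact map_one _
  · intro x
    obtain ⟨h, hh⟩ := (hP'mem x).1 x.2
    obtain ⟨a, ha⟩ := hpp h
    have h1 : (φ h : Aˣ) ^ (p ^ (a + L)) ∈ Cong p A L := by
      rw [pow_add, pow_mul]
      exact cong_mono (by omega) (cong_pow_pow hk1 ha L)
    have h2 : Φ h ^ (p ^ (a + L)) ∈ V := by
      rw [hVmem]
      constructor
      · rw [map_pow, hΦ1]; exact h1
      · rw [map_pow, hΦ2, ← map_pow]
        apply hψ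
        rw [map_pow, SubgroupClass.coe_pow]
        exact cong_mono (le_max_right k l) h1
    have h3 : (x : (A × B)ˣ) ^ (p ^ (a + L)) ∈ V := by
      have h4 : ((x : (A × B)ˣ) : (A × B)ˣ ⧸ V) = ((Φ h : (A × B)ˣ) : (A × B)ˣ ⧸ V) :=
        (QuotientGroup.eq.2 hh).symm
      rw [← QuotientGroup.eq_one_iff, QuotientGroup.mk_pow, h4, ← QuotientGroup.mk_pow,
        QuotientGroup.eq_one_iff]
      exact h2
    refine ⟨a + L + K, ?_⟩
    rw [pow_add, pow_mul]
    set y := (x : (A × B)ˣ) ^ (p ^ (a + L)) with hy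
    obtain ⟨h4, h5⟩ := (hVmem y).1 h3
    have hL1 : 1 ≤ L := hk1.trans (le_max_left k l)
    obtain ⟨a1, ha1⟩ := cong_mono (show K ≤ L + K by omega) (cong_pow_pow hL1 h4 K)
    obtain ⟨b1, hb1⟩ := cong_mono (show K ≤ 2 + K by omega)
      (cong_pow_pow (l := 2) (by norm_num) h5 K)
    refine ⟨(a1, b1), ?_⟩
    rw [← map_pow] at ha1 hb1
    rw [← Nat.cast_pow]
    refine Prod.ext ?_ ?_
    · rw [Prod.fst_add, Prod.fst_one, Prod.fst_mul, Prod.fst_natCast, Nat.cast_pow]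
      exact ha1
    · rw [Prod.snd_add, Prod.snd_one, Prod.snd_mul, Prod.snd_natCast, Nat.cast_pow]
      exact hb1
  · intro s hs h
    apply hS s hs
    have h1 : Φ s = 1 := congrArg (fun w : P' => (w : (A × B)ˣ)) h
    rw [← hΦ2, h1, map_one]

/-- the case of a countable group with pro-`p` image -/
theorem countable_case {p : ℕ} [Fact p.Prime] {O : Type} [CommRing O] [IsDomain O]
    [Algebra ℤ_[p] O] [Module.Free ℤ_[p] O] [Module.Finite ℤ_[p] O] {H : Type} [Group H] [Countable H] {A : Type}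
    [Ring A] [Algebra ℤ_[p] A] [Module.Free ℤ_[p] A] [Module.Finite ℤ_[p] A] (P : Subgroup Aˣ)
    (k : ℕ) (φ : H →* P) (f : P → O) (c : ℕ) (hk : 2 < p ^ k)
    (hP : ∀ u : Aˣ, (∃ a : A, (u : A) = 1 + (p : A) ^ k * a) → u ∈ P)
    (hf : f ∈ ACO p O P) (hf1 : f 1 = c)
    (hf0 : ∀ t : P, t ≠ 1 → ∀ a : ℕ, t ^ (p ^ a) = 1 → f t = 0)
    (hpp : ∀ h : H, ∃ a : ℕ, ((φ h : Aˣ) ^ (p ^ a)) ∈ Cong p A k)
    (hsep : ∀ g : H, g ≠ 1 → ∃ (l : ℕ) (B : Type) (_ : Ring B) (_ : Algebra ℤ_[p] B)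
      (_ : Module.Free ℤ_[p] B) (_ : Module.Finite ℤ_[p] B) (ψ : H →* Bˣ),
      (∀ h : H, (∃ a : A, ((φ h : Aˣ) : A) = 1 + (p : A) ^ l * a) →
        ∃ b : B, (ψ h : B) = 1 + (p : B) ^ 2 * b) ∧ ψ g ≠ 1)
    {ι κ : Type} [Fintype ι] [Fintype κ] (X : κ → ι → (H →₀ ℤ)) :
    ∃ z : ℤ, (c : ℝ) *
      vdim (kerA (fun k i => (X k i).mapRange (Int.cast : ℤ → ℂ) Int.cast_zero)) = z := by
  classical
  obtain ⟨e, he⟩ := exists_surjective_nat H
  have key : ∀ j : ℕ, ∃ (Q : Type) (_ : Group Q) (_ : Finite Q) (g : H →* Q) (z : ℤ),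
      (∀ s ∈ ((Finset.range j).image e).erase 1, g s ≠ 1) ∧
      |(c : ℝ) * rk p X g - z| < 1 / ((j : ℝ) + 1) := by
    intro j
    obtain ⟨l, B, _, _, _, _, ψ, h1, h2⟩ := sep_fin φ hsep (((Finset.range j).image e).erase 1)
      (fun s hs => (Finset.mem_erase.1 hs).1)
    exact step P k φ f c hk hP hf hf1 hf0 hpp l ψ h1 X _ h2 _ (by positivity)
  choose Q iQ fQ g z hg hz using key
  have happ := approx (G := H) Q g
    (by
      intro x hx
      obtain ⟨i, rfl⟩ := he x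
      filter_upwards [eventually_gt_atTop i] with n hn
      exact hg n _ (Finset.mem_erase.2 ⟨hx, Finset.mem_image.2 ⟨i, Finset.mem_range.2 hn, rfl⟩⟩))
    X p (fun n => Matrix.of fun (i : ι) (k : κ) =>
        (X k i).sum fun h z => MonoidAlgebra.single (g n h)⁻¹ (z : ℤ_[p]))
    (fun n i k => rfl)
  set D : ℝ := (Fintype.card κ : ℝ) - Fintype.card ι +
    vdim (kerA (fun k i => (X k i).mapRange (Int.cast : ℤ → ℂ) Int.cast_zero)) with hD
  have h1 : Tendsto (fun n => (c : ℝ) * rk p X (g n)) atTop (𝓝 (c * D)) := happ.const_mul _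
  have h2 : Tendsto (fun n => (z n : ℝ) - (c : ℝ) * rk p X (g n)) atTop (𝓝 0) := by
    refine squeeze_zero_norm (a := fun n : ℕ => 1 / ((n : ℝ) + 1)) (fun n => ?_)
      tendsto_one_div_add_atTop_nhds_zero_nat
    rw [Real.norm_eq_abs, abs_sub_comm]
    exact (hz n).le
  have h3 : Tendsto (fun n => (z n : ℝ)) atTop (𝓝 (c * D)) := by
    have := h2.add h1
    simpa using this
  have h4 : (c * D : ℝ) ∈ Set.range (Int.cast : ℤ → ℝ) :=
    Int.isClosedEmbedding_coe_real.isClosed_range.mem_of_tendsto h3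
      (Eventually.of_forall fun n => ⟨z n, rfl⟩)
  obtain ⟨w, hw⟩ := h4
  refine ⟨w - (c : ℤ) * (Fintype.card κ - Fintype.card ι), ?_⟩
  push_cast
  rw [hw, hD]
  ring

end V2x

open V2x in
theorem GRO.local (p : ℕ) [Fact p.Prime] (O : Type) [CommRing O] [IsDomain O]
    [Algebra ℤ_[p] O] [Module.Free ℤ_[p] O] [Module.Finite ℤ_[p] O] (c : ℕ) (G : Type) [Group G]
    (hG : GRO p O c G) (v : ℝ)
    (hv : Val (Int.castRingHom ℂ).range G v) :
    ∃ q : ℕ, ¬ p ∣ q ∧ ∃ z : ℤ, (q : ℝ) * c * v = z := by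
  classical
  obtain ⟨A, _, _, _, _, P, k, φ, f, hk, hP, hf, hf1, hf0, hsep⟩ := hG
  obtain ⟨m, n, X, hX, rfl⟩ := hv
  -- reduction to a finitely generated group
  let s : Finset G := Finset.univ.biUnion fun k : Fin n => Finset.univ.biUnion fun i : Fin m =>
    (X k i).support
  let H : Subgroup G := Subgroup.closure (s : Set G)
  have hs : ∀ k i, ∀ x ∈ (X k i).support, x ∈ H := by
    intro k i x hx
    apply Subgroup.subset_closure
    simp only [s, Finset.coe_biUnion, Finset.coe_univ, Set.mem_iUnion, Finset.mem_coe]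
    exact ⟨k, trivial, i, trivial, hx⟩
  have hcount : Countable H := by
    have h1 : Function.Surjective (FreeGroup.mk (α := {x : G // x ∈ (s : Set G)})) :=
      Quot.mk_surjective
    have h1' : Countable (List ({x : G // x ∈ (s : Set G)} × Bool)) := inferInstance
    have h2 : Countable (FreeGroup {x : G // x ∈ (s : Set G)}) := h1.countable
    have h3 : H = (FreeGroup.lift (fun x : {x : G // x ∈ (s : Set G)} => (x : G))).range :=
      FreeGroup.closure_eq_range _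
    rw [h3]
    exact (MonoidHom.rangeRestrict_surjective _).countable
  let Y : GMat (Fin n) (Fin m) H := fun k i => (X k i).comapDomain H.subtype
    H.subtype_injective.injOn
  have hYX : Pool.Agent.H80R2.BC.push H.subtype Y = X := by
    funext k i
    change Finsupp.mapDomain _ _ = _
    rw [Finsupp.mapDomain_comapDomain _ H.subtype_injective]
    intro x hx
    exact ⟨⟨x, hs k i x hx⟩, rfl⟩
  have hdim : vdim (kerA X) = vdim (kerA Y) := by
    rw [← hYX]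
    exact vdim_push H.subtype H.subtype_injective Y
  obtain ⟨G₁, hG₁, hpp⟩ := exists_sylow P k (φ.comp H.subtype) hk hP
  have hfin : G₁.index ≠ 0 := fun h => hG₁ (h ▸ dvd_zero p)
  have : G₁.FiniteIndex := ⟨hfin⟩
  have : Fintype (H ⧸ G₁) := Fintype.ofFinite _
  obtain ⟨Z, hZ⟩ := Sx.exists_int (Pool.Agent.TH107.AT.res G₁ Y) (by
    intro k i x
    exact hX _ _ _)
  obtain ⟨z, hz⟩ := countable_case (H := G₁) P k ((φ.comp H.subtype).comp G₁.subtype) f c hk hP hf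
    hf1 hf0 (fun h => hpp h h.2) (by
      intro g hg
      have hg' : ((g : H) : G) ≠ 1 := by
        intro h
        exact hg (Subtype.ext (Subtype.ext h))
      obtain ⟨l, B, i1, i2, i3, i4, ψ, h1, h2⟩ := hsep _ hg'
      exact ⟨l, B, i1, i2, i3, i4, (ψ.comp H.subtype).comp G₁.subtype, fun h hh => h1 _ hh, h2⟩)
    Z
  rw [hZ, Pool.Agent.TH107.AT.vdim_res] at hz
  refine ⟨Fintype.card (H ⧸ G₁), ?_, z, ?_⟩
  · rw [← Nat.card_eq_fintype_card]
    exact hG₁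
  · rw [hdim, ← hz]
    ring

end Pool.Agent.H371.SC
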