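import Pool.Agent.H371.SB.U2
import Pool.Agent.H371.SC.V0

/-! The class `GRO` is closed under products, subgroups and free products with free groups. -/

set_option autoImplicit false

namespace Pool.Agent.H371.SC

open Pool.Agent.H371.SA Pool.Agent.H371.SB

variable (O : Type) [CommRing O]

theorem GRO.sub (p : ℕ) [Fact p.Prime] (c : ℕ) (G H : Type) [Group G] [Group H] (f : H →* G)
    (hf : Function.Injective f) (hG : GRO p O c G) : GRO p O c H := by
  obtain ⟨A, iR, iA, iF, iM, P, k, φ, χ, hk, hP, hχ, hc, h0, hs⟩ := hG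
  refine ⟨A, iR, iA, iF, iM, P, k, φ.comp f, χ, hk, hP, hχ, hc, h0, ?_⟩
  intro h hh
  obtain ⟨l, B, jR, jA, jF, jM, ψ, h1, h2⟩ := hs (f h) (fun e => hh (hf (by rw [e, map_one])))
  exact ⟨l, B, jR, jA, jF, jM, ψ.comp f, fun x hx => h1 (f x) hx, h2⟩

theorem GRO.prod (p : ℕ) [Fact p.Prime] (c c' : ℕ) (G H : Type) [Group G] [Group H]
    (hG : GRO p O c G) (hH : GRO p O c' H) : GRO p O (c * c') (G × H) := by
  obtain ⟨A, iR, iA, iF, iM, P, k, φ, f, hk, hP, hf, hc, h0, hs⟩ := hG
  obtain ⟨A', iR', iA', iF', iM', P', k', φ', f', hk', hP', hf', hc', h0', hs'⟩ := hH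
  have hp1 : 1 ≤ p := (Fact.out : p.Prime).pos
  let P'' : Subgroup (A × A')ˣ :=
    (P.comap (Units.map (RingHom.fst A A' : A × A' →* A))) ⊓
      (P'.comap (Units.map (RingHom.snd A A' : A × A' →* A')))
  have hπ : ∀ u ∈ P'', Units.map (RingHom.fst A A' : A × A' →* A) u ∈ P := fun u hu => hu.1
  have hπ' : ∀ u ∈ P'', Units.map (RingHom.snd A A' : A × A' →* A') u ∈ P' := fun u hu => hu.2
  let Φ : G × H →* P'' :=
    { toFun := fun x => ⟨MulEquiv.prodUnits.symm ((φ x.1 : Aˣ), (φ' x.2 : A'ˣ)), by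
        constructor
        · change Units.map (RingHom.fst A A' : A × A' →* A) _ ∈ P
          have : Units.map (RingHom.fst A A' : A × A' →* A)
            (MulEquiv.prodUnits.symm ((φ x.1 : Aˣ), (φ' x.2 : A'ˣ))) = (φ x.1 : Aˣ) := by
            apply Units.ext; rfl
          rw [this]; exact (φ x.1).2
        · change Units.map (RingHom.snd A A' : A × A' →* A') _ ∈ P'
          have : Units.map (RingHom.snd A A' : A × A' →* A')
            (MulEquiv.prodUnits.symm ((φ x.1 : Aˣ), (φ' x.2 : A'ˣ))) = (φ' x.2 : A'ˣ) := by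
            apply Units.ext; rfl
          rw [this]; exact (φ' x.2).2⟩
      map_one' := by
        apply Subtype.ext
        apply Units.ext
        simp
      map_mul' := by
        intro x y
        apply Subtype.ext
        apply Units.ext
        simp
        rfl }
  refine ⟨A × A', inferInstance, inferInstance, inferInstance, inferInstance, P'', max k k', Φ,
    (fun u : P'' => f ⟨Units.map (RingHom.fst A A' : A × A' →* A) u, hπ u u.2⟩) *
    (fun u : P'' => f' ⟨Units.map (RingHom.snd A A' : A × A' →* A') u, hπ' u u.2⟩),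
    ?_, ?_, ?_, ?_, ?_, ?_⟩
  · exact lt_of_lt_of_le hk (Nat.pow_le_pow_right hp1 (le_max_left _ _))
  · rintro u ⟨a, ha⟩
    constructor
    · apply hP
      refine ⟨(p : A) ^ (max k k' - k) * a.1, ?_⟩
      have h1 := congrArg Prod.fst ha
      rw [← mul_assoc, ← pow_add, Nat.add_sub_cancel' (le_max_left k k')]
      simpa using h1
    · apply hP'
      refine ⟨(p : A') ^ (max k k' - k') * a.2, ?_⟩
      have h1 := congrArg Prod.snd ha
      rw [← mul_assoc, ← pow_add, Nat.add_sub_cancel' (le_max_right k k')]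
      simpa using h1
  · exact ACO.mul p O P'' (ACO.comap p O P'' P (RingHom.fst A A') hπ hf)
      (ACO.comap p O P'' P' (RingHom.snd A A') hπ' hf')
  · rw [Pi.mul_apply]
    have e1 : (⟨Units.map (RingHom.fst A A' : A × A' →* A) ((1 : P'') : (A × A')ˣ),
      hπ _ (1 : P'').2⟩ : P) = 1 := by
      apply Subtype.ext; exact map_one _
    have e2 : (⟨Units.map (RingHom.snd A A' : A × A' →* A') ((1 : P'') : (A × A')ˣ),
      hπ' _ (1 : P'').2⟩ : P') = 1 := by
      apply Subtype.ext; exact map_one _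
    rw [e1, e2, hc, hc', Nat.cast_mul]
  · intro t ht a hta
    rw [Pi.mul_apply]
    have h1 : (⟨Units.map (RingHom.fst A A' : A × A' →* A) (t : (A × A')ˣ), hπ _ t.2⟩ : P) ^
        (p ^ a) = 1 := by
      apply Subtype.ext
      have : ((t ^ (p ^ a) : P'') : (A × A')ˣ) = 1 := congrArg Subtype.val hta
      have h3 := congrArg (Units.map (RingHom.fst A A' : A × A' →* A)) this
      rw [map_one, Subgroup.coe_pow, map_pow] at h3
      exact h3
    have h2 : (⟨Units.map (RingHom.snd A A' : A × A' →* A') (t : (A × A')ˣ), hπ' _ t.2⟩ : P') ^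
        (p ^ a) = 1 := by
      apply Subtype.ext
      have : ((t ^ (p ^ a) : P'') : (A × A')ˣ) = 1 := congrArg Subtype.val hta
      have h3 := congrArg (Units.map (RingHom.snd A A' : A × A' →* A')) this
      rw [map_one, Subgroup.coe_pow, map_pow] at h3
      exact h3
    by_cases ht1 : (⟨Units.map (RingHom.fst A A' : A × A' →* A) (t : (A × A')ˣ), hπ _ t.2⟩ : P) = 1
    · by_cases ht2 :
        (⟨Units.map (RingHom.snd A A' : A × A' →* A') (t : (A × A')ˣ), hπ' _ t.2⟩ : P') = 1
      · exfalso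
        apply ht
        apply Subtype.ext
        apply Units.ext
        apply Prod.ext
        · exact congrArg (fun u : P => ((u : Aˣ) : A)) ht1
        · exact congrArg (fun u : P' => ((u : A'ˣ) : A')) ht2
      · rw [h0' _ ht2 a h2, mul_zero]
    · rw [h0 _ ht1 a h1, zero_mul]
  · rintro ⟨g, h⟩ hgh
    by_cases hg : g = 1
    · have hh : h ≠ 1 := fun hh => hgh (by rw [hg, hh]; rfl)
      obtain ⟨l, B, jR, jA, jF, jM, ψ, h1, h2⟩ := hs' h hh
      refine ⟨l, B, jR, jA, jF, jM, ψ.comp (MonoidHom.snd G H), ?_, h2⟩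
      rintro x ⟨a, ha⟩
      apply h1 x.2
      refine ⟨a.2, ?_⟩
      have h3 := congrArg Prod.snd ha
      have h4 : ((Φ x : (A × A')ˣ) : A × A').2 = ((φ' x.2 : A'ˣ) : A') := rfl
      rw [← h4]
      simpa using h3
    · obtain ⟨l, B, jR, jA, jF, jM, ψ, h1, h2⟩ := hs g hg
      refine ⟨l, B, jR, jA, jF, jM, ψ.comp (MonoidHom.fst G H), ?_, h2⟩
      rintro x ⟨a, ha⟩
      apply h1 x.1
      refine ⟨a.1, ?_⟩
      have h3 := congrArg Prod.fst ha
      have h4 : ((Φ x : (A × A')ˣ) : A × A').1 = ((φ x.1 : Aˣ) : A) := rfl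
      rw [← h4]
      simpa using h3

open Pool.Agent.H371.SB.SB2x Pool.Agent.H371.SA.R2x in
theorem GRO.coprod_int (p : ℕ) [Fact p.Prime] (c : ℕ) (G : Type) [Group G] (hG : GRO p O c G) :
    GRO p O c (Monoid.Coprod G (Multiplicative ℤ)) := by
  obtain ⟨A, iR, iA, iF, iM, P, k, φ, f, hk, hP, hf, hc, h0, hs⟩ := hG
  refine ⟨A, iR, iA, iF, iM, P, k, φ.comp Monoid.Coprod.fst, f, hk, hP, hf, hc, h0, ?_⟩
  intro x hx
  obtain ⟨g, L, hL, rfl⟩ := exists_word x
  by_cases hne : L = []
  · subst hne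
    have h4 : ev g [] = Monoid.Coprod.inl g := by simp [ev]
    rw [h4] at hx ⊢
    obtain ⟨l, B, jR, jA, jF, jM, ψ, h1, h2⟩ := hs g (by
      intro h
      apply hx
      rw [h, map_one])
    refine ⟨l, B, jR, jA, jF, jM, ψ.comp Monoid.Coprod.fst, fun h hh => h1 _ hh, ?_⟩
    rw [MonoidHom.comp_apply, Monoid.Coprod.fst_apply_inl]
    exact h2
  · obtain ⟨l, B, jR, jA, jF, jM, ψ0, h1, h2⟩ := combine p P φ hs (L.map Prod.snd)
    obtain ⟨Ψ, h3, h4⟩ := exists_hom (p := p) ψ0 g L hL hne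
      (fun a ha => h2 a.2 (List.mem_map_of_mem ha))
    refine ⟨l, B × Matrix (J p B) (J p B) ℤ_[p], inferInstance, inferInstance, inferInstance,
      inferInstance, Ψ, ?_, h4⟩
    intro h hh
    exact h3 h (h1 _ hh)

open Pool.Agent.H371.SB.SB2x Pool.Agent.H371.SA.R2x in
theorem GRO.coprod_free (p : ℕ) [Fact p.Prime] (c : ℕ) (G : Type) [Group G] (m : ℕ)
    (hG : GRO p O c G) : GRO p O c (Monoid.Coprod G (FreeGroup (Fin m))) := by
  induction m with
  | zero => exact GRO.sub O p c _ _ (zeroIso G).symm.toMonoidHom (zeroIso G).symm.injective hG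
  | succ m ih =>
    exact GRO.sub O p c _ _ (splitIso G m).symm.toMonoidHom (splitIso G m).symm.injective
      (GRO.coprod_int O p c _ ih)

end Pool.Agent.H371.SC
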