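import Pool.Agent.H371.SC.V6

/-! Common extensions of the coefficient rings; the relation `CRX`. -/

set_option autoImplicit false

namespace Pool.Agent.H371.SC

open Filter Topology
open Pool.Agent.H371.SA Pool.Agent.H371.SB
open Pool.Agent.H80R2.BC (L2 GMat vdim kerA Coef act)
open Pool.Agent.W656.VA

theorem exists_common (p : ℕ) [Fact p.Prime] (O O' : Type) [CommRing O] [IsDomain O]
    [Algebra ℤ_[p] O] [Module.Free ℤ_[p] O] [Module.Finite ℤ_[p] O] [CommRing O'] [IsDomain O']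
    [Algebra ℤ_[p] O'] [Module.Free ℤ_[p] O'] [Module.Finite ℤ_[p] O'] :
    ∃ (O'' : Type) (_ : CommRing O'') (_ : IsDomain O'') (_ : Algebra ℤ_[p] O'')
      (_ : Module.Free ℤ_[p] O'') (_ : Module.Finite ℤ_[p] O''),
      Nonempty (O →ₐ[ℤ_[p]] O'') ∧ Nonempty (O' →ₐ[ℤ_[p]] O'') := by
  let K := AlgebraicClosure (FractionRing O)
  have hi : Function.Injective (algebraMap O K) := by
    rw [IsScalarTower.algebraMap_eq O (FractionRing O) K]
    exact (algebraMap (FractionRing O) K).injective.comp (IsFractionRing.injective O _)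
  have hj : Function.Injective (algebraMap ℤ_[p] K) := by
    rw [IsScalarTower.algebraMap_eq ℤ_[p] O K]
    exact hi.comp (FaithfulSMul.algebraMap_injective ℤ_[p] O)
  have : FaithfulSMul ℤ_[p] K := (faithfulSMul_iff_algebraMap_injective ℤ_[p] K).2 hj
  let f : O →ₐ[ℤ_[p]] K := IsScalarTower.toAlgHom ℤ_[p] O K
  let f' : O' →ₐ[ℤ_[p]] K := IsAlgClosed.lift
  let S : Subalgebra ℤ_[p] K := f.range ⊔ f'.range
  have h1 : Module.Finite ℤ_[p] f.range := Module.Finite.range f.toLinearMap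
  have h2 : Module.Finite ℤ_[p] f'.range := Module.Finite.range f'.toLinearMap
  have h3 : Module.Finite ℤ_[p] S := Subalgebra.finite_sup _ _
  have h4 : Module.Free ℤ_[p] S := Module.free_of_finite_type_torsion_free'
  refine ⟨S, inferInstance, inferInstance, inferInstance, h4, h3, ⟨?_⟩, ⟨?_⟩⟩
  · exact (Subalgebra.inclusion le_sup_left).comp f.rangeRestrict
  · exact (Subalgebra.inclusion le_sup_right).comp f'.rangeRestrict

theorem ACO.mono (p : ℕ) {O O' : Type} [CommRing O] [CommRing O'] (j : O →+* O') {A : Type}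
    [Ring A] (P : Subgroup Aˣ) (f : P → O) (hf : f ∈ ACO p O P) : (fun g => j (f g)) ∈ ACO p O' P := by
  refine AddSubgroup.closure_induction (p := fun f _ => (fun g => j (f g)) ∈ ACO p O' P)
    ?_ ?_ ?_ ?_ hf
  · rintro _ ⟨v, ρ, hρ, rfl⟩
    refine AddSubgroup.subset_closure ⟨v,
      ((RingHom.mapMatrix j : Matrix (Fin v) (Fin v) O →+* Matrix (Fin v) (Fin v) O') :
        Matrix (Fin v) (Fin v) O →* Matrix (Fin v) (Fin v) O').comp ρ, ?_, ?_⟩
    · intro n g hg a b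
      obtain ⟨x, hx⟩ := hρ n g hg a b
      refine ⟨j x, ?_⟩
      have h1 : (((RingHom.mapMatrix j : Matrix (Fin v) (Fin v) O →+* Matrix (Fin v) (Fin v) O') :
        Matrix (Fin v) (Fin v) O →* Matrix (Fin v) (Fin v) O').comp ρ g - 1) a b =
        j ((ρ g - 1) a b) := by
        rw [Matrix.sub_apply, Matrix.sub_apply, map_sub]
        congr 1
        rw [Matrix.one_apply, Matrix.one_apply]
        split_ifs <;> simp
      rw [h1, hx, map_mul, map_pow, map_natCast]
    · funext g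
      change j (ρ g).trace = _
      rw [Matrix.trace, map_sum]
      rfl
  · simp only [Pi.zero_apply, map_zero]
    exact zero_mem _
  · intro f g _ _ hf hg
    simp only [Pi.add_apply, map_add]
    exact add_mem hf hg
  · intro f _ hf
    simp only [Pi.neg_apply, map_neg]
    exact neg_mem hf

theorem GRO.mono (p : ℕ) [Fact p.Prime] {O O' : Type} [CommRing O] [CommRing O'] (j : O →+* O')
    (c : ℕ) (G : Type) [Group G] (h : GRO p O c G) : GRO p O' c G := by
  obtain ⟨A, iR, iA, iF, iM, P, k, φ, f, hk, hP, hf, hc, h0, hs⟩ := h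
  refine ⟨A, iR, iA, iF, iM, P, k, φ, fun g => j (f g), hk, hP, ACO.mono p j P f hf, ?_, ?_, hs⟩
  · change j (f 1) = _
    rw [hc, map_natCast]
  · intro t ht a hta
    change j (f t) = _
    rw [h0 t ht a hta, map_zero]

/-- the relation with unspecified coefficient rings -/
def GRX (p : ℕ) [Fact p.Prime] (c : ℕ) (G : Type) [Group G] : Prop :=
  ∃ (O : Type) (_ : CommRing O) (_ : IsDomain O) (_ : Algebra ℤ_[p] O) (_ : Module.Free ℤ_[p] O)
    (_ : Module.Finite ℤ_[p] O), GRO p O c G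

theorem GRX.of_GR (p : ℕ) [Fact p.Prime] (c : ℕ) (G : Type) [Group G] (h : GR p c G) :
    GRX p c G :=
  ⟨ℤ_[p], inferInstance, inferInstance, inferInstance, inferInstance, inferInstance, h⟩

theorem GRX.of_GRO (p : ℕ) [Fact p.Prime] (O : Type) [CommRing O] [IsDomain O]
    [Algebra ℤ_[p] O] [Module.Free ℤ_[p] O] [Module.Finite ℤ_[p] O] (c : ℕ) (G : Type) [Group G]
    (h : GRO p O c G) : GRX p c G :=
  ⟨O, inferInstance, inferInstance, inferInstance, inferInstance, inferInstance, h⟩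

/-- the relation for all primes -/
def CRX (G : Type) [Group G] (d : ℕ) : Prop :=
  0 < d ∧ ∀ (p : ℕ) [Fact p.Prime], ∃ c : ℕ, GRX p c G ∧ ∃ q : ℕ, ¬ p ∣ q ∧ c ∣ q * d

theorem CRX.prod {G H : Type} [Group G] [Group H] {d e : ℕ} (hG : CRX G d)
    (hH : CRX H e) : CRX (G × H) (d * e) := by
  refine ⟨Nat.mul_pos hG.1 hH.1, fun p _ => ?_⟩
  obtain ⟨c, ⟨O, i1, i2, i3, i4, i5, hc⟩, q, hq, h⟩ := hG.2 p
  obtain ⟨c', ⟨O', i1', i2', i3', i4', i5', hc'⟩, q', hq', h'⟩ := hH.2 p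
  obtain ⟨O'', j1, j2, j3, j4, j5, ⟨f⟩, ⟨f'⟩⟩ := exists_common p O O'
  refine ⟨c * c', GRX.of_GRO p O'' _ _ (GRO.prod _ p c c' G H (GRO.mono p (f : O →+* O'') c G hc)
    (GRO.mono p (f' : O' →+* O'') c' H hc')), q * q', ?_, ?_⟩
  · intro h
    rcases (Fact.out : p.Prime).dvd_mul.1 h with h | h
    · exact hq h
    · exact hq' h
  · have := mul_dvd_mul h h'
    have e1 : q * d * (q' * e) = q * q' * (d * e) := by ring
    rwa [e1] at this

theorem CRX.sub {G H : Type} [Group G] [Group H] {d : ℕ} (f : H →* G) (hf : Function.Injective f)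
    (hG : CRX G d) : CRX H d := by
  refine ⟨hG.1, fun p _ => ?_⟩
  obtain ⟨c, ⟨O, i1, i2, i3, i4, i5, hc⟩, q, hq, h⟩ := hG.2 p
  exact ⟨c, GRX.of_GRO p O _ _ (GRO.sub _ p c G H f hf hc), q, hq, h⟩

theorem CRX.free {G : Type} [Group G] {d : ℕ} (k : ℕ) (hG : CRX G d) :
    CRX (Monoid.Coprod G (FreeGroup (Fin k))) d := by
  refine ⟨hG.1, fun p _ => ?_⟩
  obtain ⟨c, ⟨O, i1, i2, i3, i4, i5, hc⟩, q, hq, h⟩ := hG.2 p
  exact ⟨c, GRX.of_GRO p O _ _ (GRO.coprod_free _ p c G k hc), q, hq, h⟩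

theorem CRX.mono {G : Type} [Group G] {d e : ℕ} (he : 0 < e) (hde : d ∣ e) (hG : CRX G d) :
    CRX G e := by
  refine ⟨he, fun p _ => ?_⟩
  obtain ⟨c, hc, q, hq, h⟩ := hG.2 p
  exact ⟨c, hc, q, hq, h.trans (mul_dvd_mul_left q hde)⟩

theorem CRX.main {G : Type} [Group G] {d : ℕ} (hG : CRX G d) (v : ℝ)
    (hv : Val (⊤ : Subring ℂ) G v) : ∃ z : ℤ, (d : ℝ) * v = z := by
  refine base_change' (fun G _ d => CRX G d) (fun G _ d h => h.1)
    (fun G H _ _ d e hG hH => CRX.prod hG hH) (fun G _ m d hG => CRX.free m hG)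
    (Int.castRingHom ℂ).range ?_ ⊤ G d hG v hv
  intro G _ d hG v hv
  apply Tx.int_of_local
  intro p hp
  have : Fact p.Prime := ⟨hp⟩
  obtain ⟨c, ⟨O, i1, i2, i3, i4, i5, hc⟩, q, hq, e, he⟩ := hG.2 p
  obtain ⟨q', hq', z, hz⟩ := GRO.local p _ c G hc v hv
  refine ⟨q * q', ?_, e * z, ?_⟩
  · intro h
    rcases (Fact.out : p.Prime).dvd_mul.1 h with h | h
    · exact hq h
    · exact hq' h
  · have he' : (q : ℝ) * d = c * e := by exact_mod_cast he
    push_cast
    linear_combination (q' : ℝ) * v * he' + (e : ℝ) * hz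

theorem CRX.kd_int {G : Type} [Group G] [DecidableEq G] {d : ℕ} (hG : CRX G d) (k n : ℕ)
    (A : Matrix (Fin k) (Fin n) (G →₀ ℂ)) : ∃ z : ℤ, (d : ℝ) * kd A = z := by
  let A' : GMat (Fin n) (Fin k) G := fun i j => (A j i).equivMapDomain (Equiv.inv G)
  obtain ⟨z, hz⟩ := CRX.main hG _ (val_of A' (R := ⊤) fun _ _ _ => Subring.mem_top _)
  refine ⟨z, ?_⟩
  rw [← hz]
  have hS : ({x : lp (fun _ : Fin k × G => ℂ) 2 | ∀ i : Fin n, ∀ g : G,
      ∑ j' : Fin k, (A j' i).sum (fun h c => x (j', g * h⁻¹) * c) = 0} :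
      Set (lp (fun _ : Fin k × G => ℂ) 2)) = (kerA A' : Set (L2 (Fin k × G))) := by
    ext x
    change _ ↔ ∀ i g, Pool.Agent.H80R2.BC.act A' x i g = 0
    refine forall_congr' fun i => forall_congr' fun g => ?_
    have : Pool.Agent.H80R2.BC.act A' x i g =
        ∑ j' : Fin k, (A j' i).sum (fun h c => x (j', g * h⁻¹) * c) := by
      unfold Pool.Agent.H80R2.BC.act
      refine Finset.sum_congr rfl fun j _ => ?_
      change ((A j i).equivMapDomain (Equiv.inv G)).sum _ = _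
      rw [Finsupp.sum_equivMapDomain, Finsupp.sum, Finsupp.sum]
      refine Finset.sum_congr rfl fun h _ => ?_
      rw [mul_comm]
      rfl
    rw [this]
  have hv : vdim (kerA A') = kd A := by
    unfold vdim kd
    rw [hS]
    refine Finset.sum_congr rfl fun j _ => ?_
    have e : Pool.Agent.H80R2.BC.dl G j =
        (lp.single 2 (j, (1 : G)) (1 : ℂ) : lp (fun _ : Fin k × G => ℂ) 2) := by
      unfold Pool.Agent.H80R2.BC.dl
      congr 1
      exact Subsingleton.elim _ _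
    rw [e]
  rw [← hv]

/-- the class of the first part -/
theorem CRX.of_CR {G : Type} [Group G] {d : ℕ} (h : CR G d) : CRX G d :=
  ⟨h.1, fun p hp => by
    obtain ⟨c, hc, q, hq, h'⟩ := h.2 p
    exact ⟨c, GRX.of_GR p c G hc, q, hq, h'⟩⟩

theorem CRX.of_CRO {G : Type} [Group G] {d m : ℕ} {hm : 0 < m} (h : CRO m hm G d) : CRX G d :=
  ⟨h.1, fun p hp => by
    obtain ⟨c, hc, q, hq, h'⟩ := h.2 p
    exact ⟨c, GRX.of_GRO p _ c G hc, q, hq, h'⟩⟩

end Pool.Agent.H371.SC
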